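import Pool.Agent.FlowRec.Series

/-!
# Flows avoiding prescribed values
-/

namespace Pool.Agent.FlowRec

open Finset

variable {V E : Type} [Fintype V] [DecidableEq V] [Fintype E] [DecidableEq E]

omit [Fintype V] in
lemma isFlow_sum (G : Multigraph V E) {ι : Type} (B : Finset ι) (t : ι → ℤ) (χ : ι → E → ℤ)
    (h : ∀ i ∈ B, IsFlow G (χ i)) : IsFlow G (fun x => ∑ i ∈ B, t i * χ i x) := by
  classical
  induction B using Finset.induction_on with
  | empty => intro v; simp
  | insert i B hi ih =>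
    have h1 := ih (fun j hj => h j (mem_insert_of_mem hj))
    have h2 := (h i (mem_insert_self i B)).zmul G (t i)
    have h3 := IsFlow.add G h2 h1
    simp only [sum_insert hi]
    exact h3

omit [Fintype V] in
/-- One stage: fix the values on `I` using the private cycles. -/
lemma stage (G : Multigraph V E) {N I : Finset E} (hI : CI G N I) {p : E → ℤ} (hp : IsFlow G p)
    (β : ℤ) (Q : E → ℤ → Prop) (hQ : ∀ e ∈ I, ∀ v : ℤ, ∃ x : ℤ, Q e (v + β * x)) :
    ∃ p' : E → ℤ, IsFlow G p' ∧ (∀ e, β ∣ p' e - p e) ∧ (∀ e ∈ N, p' e = p e) ∧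
      ∀ e ∈ I, Q e (p' e) := by
  classical
  have h1 : ∀ e, ∃ χ : E → ℤ, e ∈ I → (Good G χ ∧ χ e ≠ 0 ∧ (∀ x ∈ N, χ x = 0) ∧
      ∀ x ∈ I, x ≠ e → χ x = 0) := by
    intro e
    by_cases he : e ∈ I
    · obtain ⟨χ, h⟩ := hI e he
      exact ⟨χ, fun _ => h⟩
    · exact ⟨fun _ => 0, fun h => absurd h he⟩
  choose χ hχ using h1
  have h2 : ∀ e, ∃ x : ℤ, e ∈ I → Q e (p e + β * x) := by
    intro e
    by_cases he : e ∈ I
    · obtain ⟨x, h⟩ := hQ e he (p e)
      exact ⟨x, fun _ => h⟩
    · exact ⟨0, fun h => absurd h he⟩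
  choose x hx using h2
  refine ⟨fun w => p w + β * ∑ e ∈ I, (x e * χ e e) * χ e w, ?_, fun w => ?_, fun w hw => ?_,
    fun w hw => ?_⟩
  · exact IsFlow.add G hp ((isFlow_sum G I (fun e => x e * χ e e) χ
      (fun e he => (hχ e he).1.flow)).zmul G β)
  · exact ⟨∑ e ∈ I, (x e * χ e e) * χ e w, by ring⟩
  · have : ∑ e ∈ I, (x e * χ e e) * χ e w = 0 :=
      sum_eq_zero fun e he => by rw [(hχ e he).2.2.1 w hw, mul_zero]
    simp only [this, mul_zero, add_zero]
  · have : ∑ e ∈ I, (x e * χ e e) * χ e w = x w := by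
      rw [sum_eq_single w]
      · have h3 : χ w w * χ w w = 1 := by
          rcases (hχ w hw).1.val w with h | h | h
          · exact absurd h (hχ w hw).2.1
          · rw [h]; norm_num
          · rw [h]; norm_num
        rw [mul_assoc, h3, mul_one]
      · intro e he hne
        rw [(hχ e he).2.2.2 w hw hne.symm, mul_zero]
      · intro h; exact absurd hw h
    simp only [this]
    exact hx w hw

omit [Fintype V] in
lemma exists_maximal_ci (G : Multigraph V E) {N I : Finset E} (hI : CI G N I)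
    (hd : ∀ x ∈ I, x ∉ N) : ∃ B : Finset E, I ⊆ B ∧ CI G N B ∧ (∀ x ∈ B, x ∉ N) ∧
      ∀ w, w ∉ B → w ∉ N → ¬ CI G N (insert w B) := by
  classical
  obtain ⟨B, hB, hmax⟩ := exists_max_image
    (univ.filter fun B : Finset E => I ⊆ B ∧ CI G N B ∧ ∀ x ∈ B, x ∉ N) (fun B => B.card)
    ⟨I, by simp only [mem_filter, mem_univ, true_and]; exact ⟨subset_refl _, hI, hd⟩⟩
  simp only [mem_filter, mem_univ, true_and] at hB hmax
  refine ⟨B, hB.1, hB.2.1, hB.2.2, fun w hwB hwN hci => ?_⟩
  have h1 := hmax (insert w B) ⟨hB.1.trans (subset_insert _ _), hci, fun x hx => by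
    rcases mem_insert.1 hx with h | h
    · rw [h]; exact hwN
    · exact hB.2.2 x h⟩
  rw [card_insert_of_notMem hwB] at h1
  omega

lemma cover_of_maximal (G : Multigraph V E) {N B : Finset E}
    (hmax : ∀ w, w ∉ B → w ∉ N → ¬ CI G N (insert w B))
    (hbr : ∀ w, w ∉ N → ∃ χ : E → ℤ, Good G χ ∧ χ w ≠ 0 ∧ ∀ x ∈ N, χ x = 0)
    {χ : E → E → ℤ} (hχ : ∀ e ∈ B, Good G (χ e) ∧ χ e e ≠ 0 ∧ (∀ x ∈ N, χ e x = 0) ∧
      ∀ x ∈ B, x ≠ e → χ e x = 0) {w : E} (hwB : w ∉ B) (hwN : w ∉ N) :
    ∃ e ∈ B, χ e w ≠ 0 := by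
  classical
  by_contra hcon
  push Not at hcon
  apply hmax w hwB hwN
  obtain ⟨η, h1, h2, h3⟩ := hbr w hwN
  set φ : E → ℤ := fun x => η x - ∑ e ∈ B, (η e * χ e e) * χ e x with hφ
  have hφflow : IsFlow G φ := IsFlow.sub G h1.flow
    (isFlow_sum G B (fun e => η e * χ e e) χ (fun e he => (hχ e he).1.flow))
  have hφw : φ w ≠ 0 := by
    have : ∑ e ∈ B, (η e * χ e e) * χ e w = 0 :=
      sum_eq_zero fun e he => by rw [hcon e he, mul_zero]
    simp only [hφ, this, sub_zero]
    exact h2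
  have hφN : ∀ x ∈ N, φ x = 0 := by
    intro x hx
    have : ∑ e ∈ B, (η e * χ e e) * χ e x = 0 :=
      sum_eq_zero fun e he => by rw [(hχ e he).2.2.1 x hx, mul_zero]
    simp only [hφ, this, sub_zero]
    exact h3 x hx
  have hφB : ∀ x ∈ B, φ x = 0 := by
    intro x hx
    have : ∑ e ∈ B, (η e * χ e e) * χ e x = η x := by
      rw [sum_eq_single x]
      · have h4 : χ x x * χ x x = 1 := by
          rcases (hχ x hx).1.val x with h | h | h
          · exact absurd h (hχ x hx).2.1
          · rw [h]; norm_num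
          · rw [h]; norm_num
        rw [mul_assoc, h4, mul_one]
      · intro e he hne
        rw [(hχ e he).2.2.2 x hx hne.symm, mul_zero]
      · intro h; exact absurd hx h
    simp only [hφ, this, sub_self]
  obtain ⟨κ, hκ, hκw, hκc⟩ := flow_cycle hφflow hφw
  have hκ0 : ∀ x, φ x = 0 → κ x = 0 := by
    intro x hx
    by_contra h
    have := hκc x h
    rw [hx, mul_zero] at this
    exact lt_irrefl _ this
  intro e he
  rcases mem_insert.1 he with h | h
  · rw [h]
    refine ⟨κ, hκ, hκw, fun x hx => hκ0 x (hφN x hx), fun x hx hxw => ?_⟩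
    rcases mem_insert.1 hx with h' | h'
    · exact absurd h' hxw
    · exact hκ0 x (hφB x h')
  · refine ⟨χ e, (hχ e h).1, (hχ e h).2.1, (hχ e h).2.2.1, fun x hx hxe => ?_⟩
    rcases mem_insert.1 hx with h' | h'
    · rw [h']; exact hcon e h
    · exact (hχ e h).2.2.2 x h' hxe

omit [Fintype E] in
/-- Averaging. -/
lemma averaging {m : ℕ} (hm : 2 ≤ m) (χ : E → E → ℤ) (bad : E → ℤ → Prop)
    (hbad : ∀ e x y, bad e x → bad e y → (m : ℤ) ∣ x - y) (B : Finset E) :
    (∀ e ∈ B, χ e e ≠ 0) → (∀ e ∈ B, ∀ e' ∈ B, e' ≠ e → χ e e' = 0) →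
    (∀ e ∈ B, ∀ w, χ e w = 0 ∨ χ e w = 1 ∨ χ e w = -1) → ∀ (W : Finset E),
    (∀ w ∈ W, ∃ e ∈ B, χ e w ≠ 0) → ∀ φ₀ : E → ℤ, ∃ x : E → ℤ,
      (∀ e ∈ B, ¬ bad e (φ₀ e + ∑ e' ∈ B, x e' * χ e' e)) ∧
      ∀ W' : Finset E, W' ⊆ W → (∀ w ∈ W', bad w (φ₀ w + ∑ e' ∈ B, x e' * χ e' w)) →
        W'.card * (m - 1) ≤ W.card := by
  classical
  induction B using Finset.induction_on with
  | empty =>
    intro _ _ _ W hW φ₀
    refine ⟨fun _ => 0, fun e he => absurd he (notMem_empty e), fun W' hW' _ => ?_⟩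
    have h1 : W = ∅ := by
      rw [eq_empty_iff_forall_notMem]
      intro w hw
      obtain ⟨e, he, _⟩ := hW w hw
      exact absurd he (notMem_empty e)
    rw [h1, subset_empty] at hW'
    rw [hW', h1]; simp
  | insert e₀ B₁ he₀ ih =>
    intro hB1 hB0 hval W hW φ₀
    set W₁ := W.filter fun w => ∃ e ∈ B₁, χ e w ≠ 0 with hW₁
    set W₀ := W.filter fun w => ¬ ∃ e ∈ B₁, χ e w ≠ 0 with hW₀
    have hcard : W₁.card + W₀.card = W.card := card_filter_add_card_filter_not _
    have huniq : ∀ w, χ e₀ w ≠ 0 → ((range m).filter fun x : ℕ =>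
        bad w (φ₀ w + x * χ e₀ w)).card ≤ 1 := by
      intro w hw
      rw [card_le_one]
      intro x hx y hy
      simp only [mem_filter, mem_range] at hx hy
      have h1 := hbad w _ _ hx.2 hy.2
      have h2 : φ₀ w + x * χ e₀ w - (φ₀ w + y * χ e₀ w) = ((x : ℤ) - y) * χ e₀ w := by ring
      rw [h2] at h1
      have h3 : (m : ℤ) ∣ (x : ℤ) - y := by
        rcases hval e₀ (mem_insert_self _ _) w with h | h | h
        · exact absurd h hw
        · rw [h, mul_one] at h1; exact h1
        · rw [h, mul_neg_one, dvd_neg] at h1; exact h1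
      have h4 : (x : ℤ) - y = 0 := by
        apply Int.eq_zero_of_abs_lt_dvd h3
        rw [abs_lt]
        constructor <;> omega
      omega
    set A := (range m).filter fun x : ℕ => ¬ bad e₀ (φ₀ e₀ + x * χ e₀ e₀) with hA
    have hAcard : m - 1 ≤ A.card := by
      have h1 := card_filter_add_card_filter_not (s := range m)
        (fun x : ℕ => bad e₀ (φ₀ e₀ + x * χ e₀ e₀))
      have h2 := huniq e₀ (hB1 e₀ (mem_insert_self _ _))
      rw [card_range] at h1
      rw [← hA] at h1
      omega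
    have hAne : A.Nonempty := card_pos.1 (by omega)
    obtain ⟨x₀, hx₀A, hx₀min⟩ := exists_min_image A
      (fun x : ℕ => (W₀.filter fun w => bad w (φ₀ w + x * χ e₀ w)).card) hAne
    have hx₀ : (W₀.filter fun w => bad w (φ₀ w + x₀ * χ e₀ w)).card * (m - 1) ≤ W₀.card := by
      have h1 : A.card * (W₀.filter fun w => bad w (φ₀ w + x₀ * χ e₀ w)).card
          ≤ ∑ x ∈ A, (W₀.filter fun w => bad w (φ₀ w + x * χ e₀ w)).card := by
        rw [← smul_eq_mul]
        exact card_nsmul_le_sum A _ _ hx₀min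
      have h2 : ∑ x ∈ A, (W₀.filter fun w => bad w (φ₀ w + x * χ e₀ w)).card
          = ∑ w ∈ W₀, (A.filter fun x : ℕ => bad w (φ₀ w + x * χ e₀ w)).card := by
        simp only [card_filter]
        exact sum_comm
      have h3 : ∑ w ∈ W₀, (A.filter fun x : ℕ => bad w (φ₀ w + x * χ e₀ w)).card
          ≤ ∑ w ∈ W₀, 1 := by
        apply sum_le_sum
        intro w hw
        rw [hW₀, mem_filter] at hw
        obtain ⟨e, he, hew⟩ := hW w hw.1
        have hne : χ e₀ w ≠ 0 := by
          rcases mem_insert.1 he with h | h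
          · rw [h] at hew; exact hew
          · exact absurd ⟨e, h, hew⟩ hw.2
        refine (card_le_card ?_).trans (huniq w hne)
        intro x hx
        rw [mem_filter] at hx ⊢
        exact ⟨(mem_filter.1 hx.1).1, hx.2⟩
      rw [sum_const, smul_eq_mul, mul_one] at h3
      have h4 : (m - 1) * (W₀.filter fun w => bad w (φ₀ w + x₀ * χ e₀ w)).card
          ≤ A.card * (W₀.filter fun w => bad w (φ₀ w + x₀ * χ e₀ w)).card :=
        Nat.mul_le_mul_right _ hAcard
      rw [mul_comm]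
      omega
    obtain ⟨x', hx'1, hx'2⟩ := ih (fun e he => hB1 e (mem_insert_of_mem he))
      (fun e he e' he' => hB0 e (mem_insert_of_mem he) e' (mem_insert_of_mem he'))
      (fun e he => hval e (mem_insert_of_mem he)) W₁ (fun w hw => (mem_filter.1 hw).2)
      (fun w => φ₀ w + x₀ * χ e₀ w)
    refine ⟨fun e => if e = e₀ then (x₀ : ℤ) else x' e, ?_, ?_⟩
    · intro e he
      have hsum : φ₀ e + ∑ e' ∈ insert e₀ B₁, (if e' = e₀ then (x₀ : ℤ) else x' e') * χ e' e
          = φ₀ e + x₀ * χ e₀ e + ∑ e' ∈ B₁, x' e' * χ e' e := by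
        rw [sum_insert he₀, if_pos rfl]
        have : ∑ e' ∈ B₁, (if e' = e₀ then (x₀ : ℤ) else x' e') * χ e' e
            = ∑ e' ∈ B₁, x' e' * χ e' e := by
          apply sum_congr rfl
          intro e' he'
          rw [if_neg]
          intro h; rw [h] at he'; exact he₀ he'
        rw [this]; ring
      rw [hsum]
      rcases mem_insert.1 he with h | h
      · have h0 : ∑ e' ∈ B₁, x' e' * χ e' e = 0 := by
          apply sum_eq_zero
          intro e' he'
          rw [hB0 e' (mem_insert_of_mem he') e he (by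
            intro h'; rw [h] at h'; rw [← h'] at he'; exact he₀ he'), mul_zero]
        rw [h0, add_zero, h]
        exact (mem_filter.1 hx₀A).2
      · exact hx'1 e h
    · intro W' hW' hW'bad
      have hsum : ∀ e, φ₀ e + ∑ e' ∈ insert e₀ B₁, (if e' = e₀ then (x₀ : ℤ) else x' e') * χ e' e
          = φ₀ e + x₀ * χ e₀ e + ∑ e' ∈ B₁, x' e' * χ e' e := by
        intro e
        rw [sum_insert he₀, if_pos rfl]
        have : ∑ e' ∈ B₁, (if e' = e₀ then (x₀ : ℤ) else x' e') * χ e' e
            = ∑ e' ∈ B₁, x' e' * χ e' e := by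
          apply sum_congr rfl
          intro e' he'
          rw [if_neg]
          intro h; rw [h] at he'; exact he₀ he'
        rw [this]; ring
      have h1 := hx'2 (W'.filter fun w => ∃ e ∈ B₁, χ e w ≠ 0) (by
        intro w hw
        rw [mem_filter] at hw
        exact mem_filter.2 ⟨hW' hw.1, hw.2⟩) (by
        intro w hw
        have := hW'bad w (mem_filter.1 hw).1
        rwa [hsum w] at this)
      have h2 : (W'.filter fun w => ¬ ∃ e ∈ B₁, χ e w ≠ 0) ⊆
          W₀.filter fun w => bad w (φ₀ w + x₀ * χ e₀ w) := by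
        intro w hw
        rw [mem_filter] at hw
        rw [mem_filter]
        refine ⟨mem_filter.2 ⟨hW' hw.1, hw.2⟩, ?_⟩
        have h3 := hW'bad w hw.1
        rw [hsum w] at h3
        have h4 := hw.2
        push Not at h4
        rw [sum_eq_zero (fun e' he' => by rw [h4 e' he', mul_zero]), add_zero] at h3
        exact h3
      have h3 := card_le_card h2
      have h4 := card_filter_add_card_filter_not (s := W') (fun w => ∃ e ∈ B₁, χ e w ≠ 0)
      have h5 : (W'.filter fun w => ¬ ∃ e ∈ B₁, χ e w ≠ 0).card * (m - 1) ≤ W₀.card :=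
        (Nat.mul_le_mul_right _ h3).trans hx₀
      rw [← h4, add_mul]
      omega

end Pool.Agent.FlowRec
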