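import Pool.Agent.FlowRec.Avoid

/-!
# Small flows avoiding prescribed residues
-/

namespace Pool.Agent.FlowRec

open Finset

variable {V E : Type} [Fintype V] [DecidableEq V] [Fintype E] [DecidableEq E]

/-- A small flow avoiding one residue class modulo `24` on all of `R \ N` up to `2 |N ∩ R| / 5`
edges, if `G \ N` is bridgeless. -/
lemma avoid_avg (G : Multigraph V E) {R N : Finset E} (hR : CutFree G R)
    (hN : rk G N ≤ (N ∩ R).card)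
    (hbr : ∀ w, w ∉ N → ∃ χ : E → ℤ, Good G χ ∧ χ w ≠ 0 ∧ ∀ x ∈ N, χ x = 0) (s : E → ℤ) :
    ∃ ψ : E → ℤ, IsFlow G ψ ∧ (∀ e, |ψ e| < 24) ∧ (∀ e ∈ N, ψ e = 0) ∧
      5 * (R.filter fun e => e ∉ N ∧ (24 : ℤ) ∣ ψ e - s e).card ≤ 2 * (N ∩ R).card := by
  classical
  obtain ⟨I, W, hI, hIN, hcov, hW⟩ := exists_three G hR hN
  have h0 : IsFlow G (fun _ : E => (0 : ℤ)) := by intro v; simp
  obtain ⟨p₁, hp₁, -, hp₁N, hp₁Q⟩ := stage G (hI 0) h0 1 (fun e v => ¬ (2 : ℤ) ∣ v - s e) (by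
    intro e _ v
    by_cases h : (2 : ℤ) ∣ v - s e
    · exact ⟨1, by omega⟩
    · exact ⟨0, by omega⟩)
  obtain ⟨p₂, hp₂, hp₂d, hp₂N, hp₂Q⟩ := stage G (hI 1) hp₁ 2 (fun e v => ¬ (4 : ℤ) ∣ v - s e) (by
    intro e _ v
    by_cases h : (4 : ℤ) ∣ v - s e
    · exact ⟨1, by omega⟩
    · exact ⟨0, by omega⟩)
  obtain ⟨B, hIB, hB, hBN, hBmax⟩ := exists_maximal_ci G (hI 2) (hIN 2)
  have h1 : ∀ e, ∃ χ : E → ℤ, e ∈ B → (Good G χ ∧ χ e ≠ 0 ∧ (∀ x ∈ N, χ x = 0) ∧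
      ∀ x ∈ B, x ≠ e → χ x = 0) := by
    intro e
    by_cases he : e ∈ B
    · obtain ⟨χ, h⟩ := hB e he
      exact ⟨χ, fun _ => h⟩
    · exact ⟨fun _ => 0, fun h => absurd h he⟩
  choose χ hχ using h1
  set W' := R.filter fun e => e ∉ N ∧ e ∉ I 0 ∧ e ∉ I 1 ∧ e ∉ B with hW'
  have hW'W : W' ⊆ W := by
    intro e he
    rw [hW', mem_filter] at he
    rcases hcov e he.1 he.2.1 with h | ⟨i, hi⟩
    · exact h
    · exfalso
      fin_cases i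
      · exact he.2.2.1 hi
      · exact he.2.2.2.1 hi
      · exact he.2.2.2.2 (hIB hi)
  obtain ⟨x, hx1, hx2⟩ := averaging (m := 6) (by norm_num) χ
    (fun e y => (24 : ℤ) ∣ p₂ e + 4 * y - s e) (by
      intro e y y' h h'
      push_cast
      omega) B (fun e he => (hχ e he).2.1) (fun e he e' he' hne => (hχ e he).2.2.2 e' he' hne)
    (fun e he => (hχ e he).1.val) W' (fun w hw => by
      rw [hW', mem_filter] at hw
      exact cover_of_maximal G hBmax hbr hχ hw.2.2.2.2 hw.2.1) (fun _ => 0)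
  simp only [zero_add] at hx1 hx2
  set p₃ : E → ℤ := fun w => p₂ w + 4 * ∑ e ∈ B, x e * χ e w with hp₃
  have hp₃flow : IsFlow G p₃ :=
    IsFlow.add G hp₂ ((isFlow_sum G B x χ (fun e he => (hχ e he).1.flow)).zmul G 4)
  obtain ⟨ψ, hψ, hψd, hψs⟩ := small_lift (m := 24) (by norm_num) _ p₃ hp₃flow rfl
  have hp₃N : ∀ e ∈ N, p₃ e = 0 := by
    intro e he
    have : ∑ e' ∈ B, x e' * χ e' e = 0 :=
      sum_eq_zero fun e' he' => by rw [(hχ e' he').2.2.1 e he, mul_zero]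
    simp only [hp₃, this, mul_zero, add_zero, hp₂N e he, hp₁N e he]
  refine ⟨ψ, hψ, fun e => by exact_mod_cast hψs e, fun e he => ?_, ?_⟩
  · have h2 := hψd e
    rw [hp₃N e he, sub_zero] at h2
    exact Int.eq_zero_of_abs_lt_dvd h2 (hψs e)
  · have hkey : ∀ e, (24 : ℤ) ∣ ψ e - s e → (24 : ℤ) ∣ p₃ e - s e := by
      intro e h
      have h2 := hψd e
      push_cast at h2
      omega
    have h2 := hx2 (R.filter fun e => e ∉ N ∧ (24 : ℤ) ∣ ψ e - s e) (by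
      intro e he
      rw [mem_filter] at he
      have h3 := hkey e he.2.2
      rw [hW', mem_filter]
      refine ⟨he.1, he.2.1, fun h0 => ?_, fun h1 => ?_, fun hB' => ?_⟩
      · have h4 := hp₁Q e h0
        have h5 := hp₂d e
        have h6 : (2 : ℤ) ∣ p₃ e - p₂ e := ⟨2 * ∑ e' ∈ B, x e' * χ e' e, by rw [hp₃]; ring⟩
        omega
      · have h4 := hp₂Q e h1
        have h6 : (4 : ℤ) ∣ p₃ e - p₂ e := ⟨∑ e' ∈ B, x e' * χ e' e, by rw [hp₃]; ring⟩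
        omega
      · exact hx1 e hB' h3) (by
      intro e he
      rw [mem_filter] at he
      exact hkey e he.2.2)
    have h3 := card_le_card hW'W
    omega

/-- A small flow avoiding one residue class modulo `8` on all of `R \ N` up to `2 |N ∩ R|`
edges. -/
lemma avoid_two (G : Multigraph V E) {R N : Finset E} (hR : CutFree G R)
    (hN : rk G N ≤ (N ∩ R).card) (s : E → ℤ) :
    ∃ ψ : E → ℤ, IsFlow G ψ ∧ (∀ e, |ψ e| < 8) ∧ (∀ e ∈ N, ψ e = 0) ∧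
      (R.filter fun e => e ∉ N ∧ (8 : ℤ) ∣ ψ e - s e).card ≤ 2 * (N ∩ R).card := by
  classical
  obtain ⟨I, W, hI, hIN, hcov, hW⟩ := exists_three G hR hN
  have h0 : IsFlow G (fun _ : E => (0 : ℤ)) := by intro v; simp
  obtain ⟨p₁, hp₁, -, hp₁N, hp₁Q⟩ := stage G (hI 0) h0 1 (fun e v => ¬ (2 : ℤ) ∣ v - s e) (by
    intro e _ v
    by_cases h : (2 : ℤ) ∣ v - s e
    · exact ⟨1, by omega⟩
    · exact ⟨0, by omega⟩)
  obtain ⟨p₂, hp₂, hp₂d, hp₂N, hp₂Q⟩ := stage G (hI 1) hp₁ 2 (fun e v => ¬ (4 : ℤ) ∣ v - s e) (by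
    intro e _ v
    by_cases h : (4 : ℤ) ∣ v - s e
    · exact ⟨1, by omega⟩
    · exact ⟨0, by omega⟩)
  obtain ⟨p₃, hp₃, hp₃d, hp₃N, hp₃Q⟩ := stage G (hI 2) hp₂ 4 (fun e v => ¬ (8 : ℤ) ∣ v - s e) (by
    intro e _ v
    by_cases h : (8 : ℤ) ∣ v - s e
    · exact ⟨1, by omega⟩
    · exact ⟨0, by omega⟩)
  obtain ⟨ψ, hψ, hψd, hψs⟩ := small_lift (m := 8) (by norm_num) _ p₃ hp₃ rfl
  refine ⟨ψ, hψ, fun e => by exact_mod_cast hψs e, fun e he => ?_, ?_⟩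
  · have h2 := hψd e
    rw [hp₃N e he, hp₂N e he, hp₁N e he, sub_zero] at h2
    exact Int.eq_zero_of_abs_lt_dvd h2 (hψs e)
  · refine (card_le_card ?_).trans hW
    intro e he
    rw [mem_filter] at he
    rcases hcov e he.1 he.2.1 with h | ⟨i, hi⟩
    · exact h
    · exfalso
      have h2 := hψd e
      have h3 := hp₃d e
      have h4 := hp₂d e
      have h5 := he.2.2
      push_cast at h2
      fin_cases i
      · have h6 := hp₁Q e hi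
        omega
      · have h6 := hp₂Q e hi
        omega
      · have h6 := hp₃Q e hi
        omega

/-- A small flow avoiding two residue classes modulo `27` on all of `R`. -/
lemma avoid_three (G : Multigraph V E) {R : Finset E} (hR : CutFree G R) (s t : E → ℤ) :
    ∃ ψ : E → ℤ, IsFlow G ψ ∧ (∀ e, |ψ e| < 27) ∧
      ∀ e ∈ R, ¬ (27 : ℤ) ∣ ψ e - s e ∧ ¬ (27 : ℤ) ∣ ψ e - t e := by
  classical
  obtain ⟨I, W, hI, hIN, hcov, hW⟩ := exists_three G (N := ∅) hR (by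
    rw [(isRank_rk G).empty]; simp)
  have hWe : W = ∅ := by
    rw [← card_eq_zero]
    simpa using hW
  have h0 : IsFlow G (fun _ : E => (0 : ℤ)) := by intro v; simp
  obtain ⟨p₁, hp₁, -, -, hp₁Q⟩ := stage G (hI 0) h0 1
    (fun e v => ¬ (3 : ℤ) ∣ v - s e ∧ ¬ (3 : ℤ) ∣ v - t e) (by
    intro e _ v
    by_cases h : ¬ (3 : ℤ) ∣ v - s e ∧ ¬ (3 : ℤ) ∣ v - t e
    · exact ⟨0, by simpa using h⟩
    · by_cases h' : ¬ (3 : ℤ) ∣ v + 1 - s e ∧ ¬ (3 : ℤ) ∣ v + 1 - t e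
      · exact ⟨1, by simpa using h'⟩
      · exact ⟨2, by omega⟩)
  obtain ⟨p₂, hp₂, hp₂d, -, hp₂Q⟩ := stage G (hI 1) hp₁ 3
    (fun e v => ¬ (9 : ℤ) ∣ v - s e ∧ ¬ (9 : ℤ) ∣ v - t e) (by
    intro e _ v
    by_cases h : ¬ (9 : ℤ) ∣ v - s e ∧ ¬ (9 : ℤ) ∣ v - t e
    · exact ⟨0, by simpa using h⟩
    · by_cases h' : ¬ (9 : ℤ) ∣ v + 3 - s e ∧ ¬ (9 : ℤ) ∣ v + 3 - t e
      · exact ⟨1, by simpa using h'⟩
      · exact ⟨2, by omega⟩)
  obtain ⟨p₃, hp₃, hp₃d, -, hp₃Q⟩ := stage G (hI 2) hp₂ 9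
    (fun e v => ¬ (27 : ℤ) ∣ v - s e ∧ ¬ (27 : ℤ) ∣ v - t e) (by
    intro e _ v
    by_cases h : ¬ (27 : ℤ) ∣ v - s e ∧ ¬ (27 : ℤ) ∣ v - t e
    · exact ⟨0, by simpa using h⟩
    · by_cases h' : ¬ (27 : ℤ) ∣ v + 9 - s e ∧ ¬ (27 : ℤ) ∣ v + 9 - t e
      · exact ⟨1, by simpa using h'⟩
      · exact ⟨2, by omega⟩)
  obtain ⟨ψ, hψ, hψd, hψs⟩ := small_lift (m := 27) (by norm_num) _ p₃ hp₃ rfl
  refine ⟨ψ, hψ, fun e => by exact_mod_cast hψs e, fun e he => ?_⟩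
  have h2 := hψd e
  have h3 := hp₃d e
  have h4 := hp₂d e
  push_cast at h2
  rcases hcov e he (notMem_empty e) with h | ⟨i, hi⟩
  · rw [hWe] at h; exact absurd h (notMem_empty e)
  · fin_cases i
    · have h6 := hp₁Q e hi
      omega
    · have h6 := hp₂Q e hi
      omega
    · have h6 := hp₃Q e hi
      omega

end Pool.Agent.FlowRec
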