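import Mathlib

/-!
# Integer versus cyclic-group flow reconfiguration (MP_3da9df_co)

`F(G, A)` : nowhere-zero `A`-flows of a loopless multigraph `G`, two flows adjacent when the support
of their difference is the edge set of a cycle.  `F(G, k)` : the same for nowhere-zero `k`-flows.
We show that reduction modulo `k` induces an injection on connected components when `k ≤ 5`
(all graphs), and for larger `k` under a bound on the length of the cycles of `G`.
-/

namespace Pool.Agent.FlowRec

open Finset

/-- A loopless multigraph together with a reference orientation: `src e` and `tgt e` are the tail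
and the head of the arc `e`. -/
structure Multigraph (V E : Type) where
  src : E → V
  tgt : E → V
  loopless : ∀ e, src e ≠ tgt e

variable {V E : Type}

/-- `C` is the edge set of a cycle: a cyclic sequence of `n + 2 ≥ 2` different vertices `v i` and
different edges `e i`, where `e i` joins `v i` and `v (i + 1)` (indices modulo `n + 2`). -/
def IsCycleEdgeSet (G : Multigraph V E) (C : Set E) : Prop :=
  ∃ (n : ℕ) (v : Fin (n + 2) → V) (e : Fin (n + 2) → E),
    Function.Injective v ∧ Function.Injective e ∧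
    (∀ i, (G.src (e i) = v i ∧ G.tgt (e i) = v (i + 1)) ∨
      (G.src (e i) = v (i + 1) ∧ G.tgt (e i) = v i)) ∧
    C = Set.range e

lemma not_isCycleEdgeSet_empty (G : Multigraph V E) {C : Set E} (hC : C = ∅) :
    ¬ IsCycleEdgeSet G C := by
  rintro ⟨n, v, e, -, -, -, h⟩
  have : e 0 ∈ C := by rw [h]; exact ⟨0, rfl⟩
  rw [hC] at this
  exact this

/-- `f` is an `A`-flow: at every vertex, outflow equals inflow. -/
def IsFlow [DecidableEq V] [Fintype E] (G : Multigraph V E) {A : Type} [AddCommGroup A]
    (f : E → A) : Prop :=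
  ∀ v : V, ∑ e with G.src e = v, f e = ∑ e with G.tgt e = v, f e

/-- Nowhere-zero `A`-flows. -/
def GroupFlow [DecidableEq V] [Fintype E] (G : Multigraph V E) (A : Type) [AddCommGroup A] :
    Type :=
  {f : E → A // IsFlow G f ∧ ∀ e, f e ≠ 0}

/-- Nowhere-zero `k`-flows: integer flows with `0 < |f e| < k`. -/
def IntFlow [DecidableEq V] [Fintype E] (G : Multigraph V E) (k : ℕ) : Type :=
  {f : E → ℤ // IsFlow G f ∧ (∀ e, f e ≠ 0) ∧ ∀ e, |f e| < k}

/-- The reconfiguration graph `F(G, A)`. -/
def groupFlowGraph [DecidableEq V] [Fintype E] (G : Multigraph V E) (A : Type) [AddCommGroup A] :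
    SimpleGraph (GroupFlow G A) where
  Adj f g := IsCycleEdgeSet G {e | f.1 e - g.1 e ≠ 0}
  symm := ⟨fun f g h => by
    have : {e | g.1 e - f.1 e ≠ 0} = {e | f.1 e - g.1 e ≠ 0} := by
      ext e; simp only [Set.mem_ofPred_eq, sub_ne_zero]; exact ne_comm
    rw [this]; exact h⟩
  loopless := ⟨fun f h => not_isCycleEdgeSet_empty G (by ext e; simp) h⟩

/-- The reconfiguration graph `F(G, k)`. -/
def intFlowGraph [DecidableEq V] [Fintype E] (G : Multigraph V E) (k : ℕ) :
    SimpleGraph (IntFlow G k) where
  Adj f g := IsCycleEdgeSet G {e | f.1 e - g.1 e ≠ 0}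
  symm := ⟨fun f g h => by
    have : {e | g.1 e - f.1 e ≠ 0} = {e | f.1 e - g.1 e ≠ 0} := by
      ext e; simp only [Set.mem_ofPred_eq, sub_ne_zero]; exact ne_comm
    rw [this]; exact h⟩
  loopless := ⟨fun f h => not_isCycleEdgeSet_empty G (by ext e; simp) h⟩

/-- Reduction modulo `k` of a nowhere-zero `k`-flow is a nowhere-zero `ℤ/k`-flow. -/
def reduce [DecidableEq V] [Fintype E] (G : Multigraph V E) (k : ℕ) (g : IntFlow G k) :
    GroupFlow G (ZMod k) :=
  ⟨fun e => (g.1 e : ZMod k), by
    refine ⟨fun v => ?_, fun e h => ?_⟩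
    · have := congrArg (fun z : ℤ => (z : ZMod k)) (g.2.1 v)
      push_cast at this
      exact this
    · rw [ZMod.intCast_zmod_eq_zero_iff_dvd] at h
      exact g.2.2.1 e (Int.eq_zero_of_abs_lt_dvd h (g.2.2.2 e))⟩

/-! ### Incidence coefficients -/

section Inc
variable [DecidableEq V] [Fintype E] (G : Multigraph V E)

/-- incidence coefficient -/
def inc (u : V) (e : E) : ℤ := (if G.src e = u then 1 else 0) - (if G.tgt e = u then 1 else 0)

lemma isFlow_iff {A : Type} [AddCommGroup A] (f : E → A) :
    IsFlow G f ↔ ∀ u : V, ∑ e, inc G u e • f e = 0 := by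
  unfold IsFlow
  refine forall_congr' fun u => ?_
  have : ∑ e, inc G u e • f e
      = ∑ e with G.src e = u, f e - ∑ e with G.tgt e = u, f e := by
    rw [sum_filter, sum_filter, ← sum_sub_distrib]
    refine sum_congr rfl fun e _ => ?_
    unfold inc
    rw [sub_smul]
    congr 1 <;> split_ifs <;> simp
  rw [this, sub_eq_zero]

/-- cut coefficient -/
def cut (S : Finset V) (e : E) : ℤ :=
  (if G.src e ∈ S then 1 else 0) - (if G.tgt e ∈ S then 1 else 0)

omit [Fintype E] in
lemma cut_eq_sum (S : Finset V) (e : E) : cut G S e = ∑ u ∈ S, inc G u e := by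
  unfold cut inc
  rw [sum_sub_distrib]
  congr 1 <;> simp

lemma flow_cut {A : Type} [AddCommGroup A] {f : E → A} (hf : IsFlow G f) (S : Finset V) :
    ∑ e, cut G S e • f e = 0 := by
  rw [isFlow_iff] at hf
  calc ∑ e, cut G S e • f e = ∑ e, ∑ u ∈ S, inc G u e • f e := by
        refine sum_congr rfl fun e _ => ?_
        rw [cut_eq_sum, sum_smul]
    _ = ∑ u ∈ S, ∑ e, inc G u e • f e := sum_comm
    _ = 0 := by simp [hf]

lemma IsFlow.add {A : Type} [AddCommGroup A] {f g : E → A} (hf : IsFlow G f) (hg : IsFlow G g) :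
    IsFlow G (fun e => f e + g e) := by
  intro v; simp only [sum_add_distrib, hf v, hg v]

lemma IsFlow.sub {A : Type} [AddCommGroup A] {f g : E → A} (hf : IsFlow G f) (hg : IsFlow G g) :
    IsFlow G (fun e => f e - g e) := by
  intro v; simp only [sum_sub_distrib, hf v, hg v]

lemma IsFlow.zmul {f : E → ℤ} (hf : IsFlow G f) (c : ℤ) : IsFlow G (fun e => c * f e) := by
  intro v; simp only [← mul_sum, hf v]

lemma IsFlow.neg {f : E → ℤ} (hf : IsFlow G f) : IsFlow G (fun e => - f e) := by
  intro v; simp only [sum_neg_distrib, hf v]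

end Inc

/-! ### Oriented cycles -/

section Cyc
variable [DecidableEq V] [Fintype E] {G : Multigraph V E}

omit [Fintype E] in
/-- key computation for a cyclic sequence with signs -/
lemma cyc_inc {n : ℕ} {v : Fin (n + 2) → V} {e : Fin (n + 2) → E} {χ : E → ℤ}
    (h : ∀ i, (G.src (e i) = v i ∧ G.tgt (e i) = v (i + 1) ∧ χ (e i) = 1) ∨
      (G.src (e i) = v (i + 1) ∧ G.tgt (e i) = v i ∧ χ (e i) = -1)) (u : V) (i : Fin (n + 2)) :
    inc G u (e i) = ((if v i = u then 1 else 0) - (if v (i + 1) = u then 1 else 0)) * χ (e i) := by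
  unfold inc
  rcases h i with ⟨h1, h2, h3⟩ | ⟨h1, h2, h3⟩
  · rw [h1, h2, h3]; ring
  · rw [h1, h2, h3]; ring

lemma cyc_sum {n : ℕ} {v : Fin (n + 2) → V} {e : Fin (n + 2) → E} {χ : E → ℤ}
    (he : Function.Injective e)
    (h : ∀ i, (G.src (e i) = v i ∧ G.tgt (e i) = v (i + 1) ∧ χ (e i) = 1) ∨
      (G.src (e i) = v (i + 1) ∧ G.tgt (e i) = v i ∧ χ (e i) = -1))
    {A : Type} [AddCommGroup A] (d : E → A) (hd : ∀ x, d x ≠ 0 → x ∈ Set.range e) (u : V) :
    ∑ x, inc G u x • d x
      = ∑ i, (((if v i = u then (1 : ℤ) else 0) - (if v (i + 1) = u then 1 else 0)) •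
          (χ (e i) • d (e i))) := by
  classical
  have h1 : ∑ x, inc G u x • d x = ∑ x ∈ univ.image e, inc G u x • d x := by
    symm
    apply sum_subset (subset_univ _)
    intro x _ hx
    have : d x = 0 := by
      by_contra hne
      obtain ⟨i, hi⟩ := hd x hne
      exact hx (mem_image.2 ⟨i, mem_univ _, hi⟩)
    rw [this, smul_zero]
  rw [h1, sum_image (fun a _ b _ hab => he hab)]
  refine sum_congr rfl fun i _ => ?_
  rw [cyc_inc h u i, mul_smul]

omit [DecidableEq V] [Fintype E] in
lemma exists_signs {n : ℕ} {v : Fin (n + 2) → V} {e : Fin (n + 2) → E}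
    (he : Function.Injective e)
    (h : ∀ i, (G.src (e i) = v i ∧ G.tgt (e i) = v (i + 1)) ∨
      (G.src (e i) = v (i + 1) ∧ G.tgt (e i) = v i)) :
    ∃ χ : E → ℤ, (∀ i, (G.src (e i) = v i ∧ G.tgt (e i) = v (i + 1) ∧ χ (e i) = 1) ∨
      (G.src (e i) = v (i + 1) ∧ G.tgt (e i) = v i ∧ χ (e i) = -1)) ∧
      (∀ x, x ∉ Set.range e → χ x = 0) := by
  classical
  refine ⟨fun x => if hx : ∃ i, e i = x then
    (if G.src x = v hx.choose ∧ G.tgt x = v (hx.choose + 1) then 1 else -1) else 0, ?_, ?_⟩
  · intro i
    have hx : ∃ j, e j = e i := ⟨i, rfl⟩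
    have hc : hx.choose = i := he hx.choose_spec
    by_cases hi : G.src (e i) = v i ∧ G.tgt (e i) = v (i + 1)
    · left
      refine ⟨hi.1, hi.2, ?_⟩
      simp only [dif_pos hx, hc, if_pos hi]
    · right
      have h2 : G.src (e i) = v (i + 1) ∧ G.tgt (e i) = v i := by
        rcases h i with h1 | h1
        · exact absurd h1 hi
        · exact h1
      refine ⟨h2.1, h2.2, ?_⟩
      simp only [dif_pos hx, hc, if_neg hi]
  · intro x hx
    have : ¬ ∃ i, e i = x := hx
    simp only [dif_neg this]

/-- An oriented cycle, as an integer flow with values in `{0, 1, -1}`. -/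
structure Good (G : Multigraph V E) (χ : E → ℤ) : Prop where
  flow : IsFlow G χ
  val : ∀ e, χ e = 0 ∨ χ e = 1 ∨ χ e = -1
  cyc : IsCycleEdgeSet G {e | χ e ≠ 0}

lemma good_of_signs {n : ℕ} {v : Fin (n + 2) → V} {e : Fin (n + 2) → E} {χ : E → ℤ}
    (hv : Function.Injective v) (he : Function.Injective e)
    (h : ∀ i, (G.src (e i) = v i ∧ G.tgt (e i) = v (i + 1) ∧ χ (e i) = 1) ∨
      (G.src (e i) = v (i + 1) ∧ G.tgt (e i) = v i ∧ χ (e i) = -1))
    (h0 : ∀ x, x ∉ Set.range e → χ x = 0) : Good G χ ∧ {x | χ x ≠ 0} = Set.range e := by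
  have hsupp : {x | χ x ≠ 0} = Set.range e := by
    ext x
    simp only [Set.mem_ofPred_eq]
    constructor
    · intro hx
      by_contra hne
      exact hx (h0 x hne)
    · rintro ⟨i, rfl⟩
      rcases h i with ⟨_, _, h3⟩ | ⟨_, _, h3⟩ <;> rw [h3] <;> norm_num
  refine ⟨⟨?_, ?_, ?_⟩, hsupp⟩
  · rw [isFlow_iff]
    intro u
    rw [cyc_sum he h χ (fun x hx => by rw [← hsupp]; exact hx) u]
    have h1 : ∀ i, χ (e i) • χ (e i) = 1 := by
      intro i
      rcases h i with ⟨_, _, h3⟩ | ⟨_, _, h3⟩ <;> rw [h3] <;> norm_num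
    simp only [h1, smul_eq_mul, mul_one, sum_sub_distrib]
    rw [sub_eq_zero]
    exact (Fintype.sum_equiv (Equiv.addRight (1 : Fin (n + 2)))
      (fun i => if v (i + 1) = u then (1 : ℤ) else 0) (fun i => if v i = u then (1 : ℤ) else 0)
      (fun i => rfl)).symm
  · intro x
    by_cases hx : x ∈ Set.range e
    · obtain ⟨i, rfl⟩ := hx
      rcases h i with ⟨_, _, h3⟩ | ⟨_, _, h3⟩
      · right; left; exact h3
      · right; right; exact h3
    · left; exact h0 x hx
  · rw [hsupp]
    refine ⟨n, v, e, hv, he, fun i => ?_, rfl⟩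
    rcases h i with ⟨h1, h2, _⟩ | ⟨h1, h2, _⟩
    · left; exact ⟨h1, h2⟩
    · right; exact ⟨h1, h2⟩

lemma Good.neg {χ : E → ℤ} (h : Good G χ) : Good G (fun e => - χ e) := by
  refine ⟨h.flow.neg, fun e => ?_, ?_⟩
  · rcases h.val e with h1 | h1 | h1 <;> simp [h1]
  · have : {e | - χ e ≠ 0} = {e | χ e ≠ 0} := by ext e; simp
    rw [this]; exact h.cyc

/-- Every cycle carries an oriented cycle, and every flow supported in the cycle is a multiple
of it. -/
lemma exists_good_of_cycle {C : Set E} (hC : IsCycleEdgeSet G C) :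
    ∃ χ : E → ℤ, Good G χ ∧ {x | χ x ≠ 0} = C ∧
      ∀ (A : Type) [AddCommGroup A] (d : E → A), IsFlow G d → (∀ x, d x ≠ 0 → x ∈ C) →
        ∃ c : A, ∀ x, d x = χ x • c := by
  obtain ⟨n, v, e, hv, he, h, rfl⟩ := hC
  obtain ⟨χ, hχ, h0⟩ := exists_signs he h
  obtain ⟨hg, hs⟩ := good_of_signs hv he hχ h0
  refine ⟨χ, hg, hs, ?_⟩
  intro A _ d hd hdC
  rw [isFlow_iff] at hd
  set D : Fin (n + 2) → A := fun i => χ (e i) • d (e i) with hD
  have hstep : ∀ j : Fin (n + 2), D (j + 1) = D j := by
    intro j
    have h1 := hd (v (j + 1))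
    rw [cyc_sum he hχ d hdC (v (j + 1))] at h1
    simp only [hv.eq_iff, sub_smul, sum_sub_distrib, add_left_inj] at h1
    simp only [ite_smul, one_smul, zero_smul, sum_ite_eq', mem_univ, if_true] at h1
    rw [sub_eq_zero] at h1
    exact h1
  have hconst : ∀ (m : ℕ) (hm : m < n + 2), D ⟨m, hm⟩ = D 0 := by
    intro m
    induction m with
    | zero => intro _; rfl
    | succ m ih =>
      intro hm
      have h5 := hstep ⟨m, by omega⟩
      rw [← ih (by omega), ← h5]
      congr 1
      apply Fin.ext
      rw [Fin.val_add_one_of_lt]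
      rw [Fin.lt_def]
      simp only [Fin.val_last]
      omega
  refine ⟨D 0, fun x => ?_⟩
  by_cases hx : x ∈ Set.range e
  · obtain ⟨i, rfl⟩ := hx
    have h2 : D 0 = D i := (hconst i.1 i.2).symm
    rw [h2]
    show d (e i) = χ (e i) • (χ (e i) • d (e i))
    rw [← mul_smul]
    rcases hχ i with ⟨_, _, h3⟩ | ⟨_, _, h3⟩ <;> rw [h3] <;> simp
  · have h3 : d x = 0 := by
      by_contra hne
      exact hx (hdC x hne)
    rw [h3, h0 x hx, zero_smul]

end Cyc

/-! ### Cycle or cut -/

section CycleOrCut
variable [Fintype V] [DecidableEq V] [Fintype E] {G : Multigraph V E}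

/-- Either an oriented cycle through `e₀`, conformal to `z`, all of whose other edges are allowed,
or a cut crossed inwards by `e₀` and by no allowed edge outwards. -/
lemma cycle_or_cut (z : E → ℤ) (Al : E → Prop) (e₀ : E) (h0 : z e₀ ≠ 0) :
    (∃ χ : E → ℤ, Good G χ ∧ χ e₀ ≠ 0 ∧
      ∀ e, χ e ≠ 0 → (0 < χ e * z e) ∧ (e = e₀ ∨ Al e)) ∨
    (∃ S : Finset V, cut G S e₀ * z e₀ < 0 ∧ ∀ e, Al e → ¬ (0 < cut G S e * z e)) := by
  classical
  -- tail and head in the direction in which `z` is positive
  set tl : E → V := fun e => if 0 < z e then G.src e else G.tgt e with htl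
  set hd : E → V := fun e => if 0 < z e then G.tgt e else G.src e with hhd
  have hcut : ∀ (S : Finset V) (e : E), z e ≠ 0 →
      cut G S e * z e = ((if tl e ∈ S then (1 : ℤ) else 0) - (if hd e ∈ S then 1 else 0)) * |z e| := by
    intro S e he
    unfold cut
    simp only [htl, hhd]
    rcases lt_or_gt_of_ne he with h | h
    · have h' : ¬ 0 < z e := by omega
      rw [if_neg h', if_neg h', abs_of_neg h]; ring
    · rw [if_pos h, if_pos h, abs_of_pos h]
  have hne : ∀ e, tl e ≠ hd e := by
    intro e
    simp only [htl, hhd]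
    split_ifs
    · exact G.loopless e
    · exact (G.loopless e).symm
  let Step : V → V → Prop := fun u w => ∃ e, Al e ∧ z e ≠ 0 ∧ tl e = u ∧ hd e = w
  let P : ℕ → Prop := fun m => ∃ p : ℕ → V, p 0 = hd e₀ ∧ p m = tl e₀ ∧
    ∀ i < m, Step (p i) (p (i + 1))
  by_cases hP : ∃ m, P m
  · left
    -- a shortest path
    have hmin := fun m (h : m < Nat.find hP) => Nat.find_min hP h
    obtain ⟨p, hp0, hpm, hstep⟩ := Nat.find_spec hP
    set m := Nat.find hP with hm
    have hinj : ∀ i j, i < j → j ≤ m → p i ≠ p j := by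
      intro i j hij hjm heq
      apply hmin (m - (j - i)) (by omega)
      refine ⟨fun t => if t ≤ i then p t else p (t + (j - i)), ?_, ?_, ?_⟩
      · simp only [Nat.zero_le, if_true]; exact hp0
      · by_cases h1 : m - (j - i) ≤ i
        · have h2 : m - (j - i) = i := by omega
          have h3 : j = m := by omega
          simp only [h2, le_refl, if_true]
          rw [heq, h3]; exact hpm
        · simp only [if_neg h1]
          have h2 : m - (j - i) + (j - i) = m := by omega
          rw [h2]; exact hpm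
      · intro t ht
        by_cases h1 : t + 1 ≤ i
        · have h2 : t ≤ i := by omega
          simp only [if_pos h1, if_pos h2]
          exact hstep t (by omega)
        · by_cases h2 : t ≤ i
          · have h3 : t = i := by omega
            simp only [if_neg h1, if_pos h2]
            rw [h3, heq]
            have h4 : i + 1 + (j - i) = j + 1 := by omega
            rw [h4]
            exact hstep j (by omega)
          · simp only [if_neg h1, if_neg h2]
            have h4 : t + 1 + (j - i) = (t + (j - i)) + 1 := by omega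
            rw [h4]
            exact hstep _ (by omega)
    have hm1 : 1 ≤ m := by
      rcases Nat.eq_zero_or_pos m with h | h
      · exfalso
        rw [h] at hpm
        exact hne e₀ (by rw [← hpm, ← hp0])
      · exact h
    obtain ⟨n, hn⟩ : ∃ n, m = n + 1 := ⟨m - 1, by omega⟩
    have hch : ∀ i : ℕ, ∃ e, (i < m → Al e ∧ z e ≠ 0 ∧ tl e = p i ∧ hd e = p (i + 1)) := by
      intro i
      by_cases hi : i < m
      · obtain ⟨e, he⟩ := hstep i hi
        exact ⟨e, fun _ => he⟩
      · exact ⟨e₀, fun h => absurd h hi⟩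
    choose ε hε using hch
    let v : Fin (n + 2) → V := fun i => p i.1
    let e : Fin (n + 2) → E := fun i => if i.1 = m then e₀ else ε i.1
    have hv : Function.Injective v := by
      intro i j hij
      apply Fin.ext
      by_contra hne'
      rcases lt_or_gt_of_ne hne' with h | h
      · exact hinj i.1 j.1 h (by have := j.2; omega) hij
      · exact hinj j.1 i.1 h (by have := i.2; omega) hij.symm
    have hz : ∀ i, z (e i) ≠ 0 := by
      intro i
      simp only [e]
      split_ifs with h
      · exact h0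
      · exact (hε i.1 (by have := i.2; omega)).2.1
    have htl' : ∀ i, tl (e i) = v i := by
      intro i
      simp only [e, v]
      split_ifs with h
      · rw [h]; exact hpm.symm
      · exact (hε i.1 (by have := i.2; omega)).2.2.1
    have hhd' : ∀ i, hd (e i) = v (i + 1) := by
      intro i
      simp only [e, v]
      split_ifs with h
      · have : i + 1 = 0 := by
          have h1 : i = Fin.last (n + 1) := by
            apply Fin.ext; simp only [Fin.val_last]; omega
          rw [h1]; exact Fin.last_add_one (n + 1)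
        rw [this]; exact hp0.symm
      · have hlt : i < Fin.last (n + 1) := by
          rw [Fin.lt_def]; simp only [Fin.val_last]; have := i.2; omega
        rw [Fin.val_add_one_of_lt hlt]
        exact (hε i.1 (by have := i.2; omega)).2.2.2
    have he : Function.Injective e := by
      intro i j hij
      apply hv
      rw [← htl' i, ← htl' j, hij]
    have hjoin : ∀ i, (G.src (e i) = v i ∧ G.tgt (e i) = v (i + 1)) ∨
        (G.src (e i) = v (i + 1) ∧ G.tgt (e i) = v i) := by
      intro i
      have h1 := htl' i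
      have h2 := hhd' i
      simp only [htl, hhd] at h1 h2
      split_ifs at h1 h2
      · left; exact ⟨h1, h2⟩
      · right; exact ⟨h2, h1⟩
    obtain ⟨χ, hχ, hχ0⟩ := exists_signs he hjoin
    obtain ⟨hgood, hsupp⟩ := good_of_signs hv he hχ hχ0
    refine ⟨χ, hgood, ?_, ?_⟩
    · have : e₀ ∈ Set.range e := ⟨Fin.last (n + 1), by
        simp only [e, Fin.val_last, hn, if_true]⟩
      rw [← hsupp] at this
      exact this
    · intro x hx
      have hx' : x ∈ Set.range e := by rw [← hsupp]; exact hx
      obtain ⟨i, rfl⟩ := hx'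
      refine ⟨?_, ?_⟩
      · have h1 := htl' i
        have h2 := hhd' i
        have hvne : v i ≠ v (i + 1) := by
          rw [← h1, ← h2]; exact hne _
        simp only [htl, hhd] at h1 h2
        rcases hχ i with ⟨a1, a2, a3⟩ | ⟨a1, a2, a3⟩
        · rw [a3, one_mul]
          by_contra hneg
          rw [if_neg hneg, a2] at h1
          exact hvne h1.symm
        · rw [a3]
          by_contra hneg
          have hpos : 0 < z (e i) := by
            have := hz i
            omega
          rw [if_pos hpos, a1] at h1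
          exact hvne h1.symm
      · by_cases h : i.1 = m
        · left; simp only [e, if_pos h]
        · right
          simp only [e, if_neg h]
          exact (hε i.1 (by have := i.2; omega)).1
  · right
    let R : V → Prop := fun w => ∃ m, ∃ p : ℕ → V, p 0 = hd e₀ ∧ p m = w ∧
      ∀ i < m, Step (p i) (p (i + 1))
    refine ⟨univ.filter R, ?_, ?_⟩
    · rw [hcut _ _ h0]
      have h1 : tl e₀ ∉ univ.filter R := by
        rw [mem_filter]
        rintro ⟨-, m, p, hp0, hpm, hst⟩
        exact hP ⟨m, p, hp0, hpm, hst⟩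
      have h2 : hd e₀ ∈ univ.filter R := by
        rw [mem_filter]
        exact ⟨mem_univ _, 0, fun _ => hd e₀, rfl, rfl, fun i hi => absurd hi (by omega)⟩
      rw [if_neg h1, if_pos h2]
      have := abs_pos.2 h0
      omega
    · intro e hAl hpos
      have hz : z e ≠ 0 := by
        intro h; rw [h, mul_zero] at hpos; exact lt_irrefl _ hpos
      rw [hcut _ _ hz] at hpos
      have habs := abs_pos.2 hz
      have h1 : tl e ∈ univ.filter R := by
        by_contra h
        rw [if_neg h] at hpos
        split_ifs at hpos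
        · nlinarith
        · simp at hpos
      have h2 : hd e ∉ univ.filter R := by
        intro h
        rw [if_pos h1, if_pos h] at hpos
        simp at hpos
      apply h2
      rw [mem_filter] at h1 ⊢
      obtain ⟨-, m, p, hp0, hpm, hst⟩ := h1
      refine ⟨mem_univ _, m + 1, fun t => if t ≤ m then p t else hd e, ?_, ?_, ?_⟩
      · simp only [Nat.zero_le, if_true]; exact hp0
      · simp
      · intro i hi
        by_cases h : i + 1 ≤ m
        · have h' : i ≤ m := by omega
          simp only [if_pos h, if_pos h']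
          exact hst i (by omega)
        · have h' : i = m := by omega
          simp only [if_neg h]
          rw [h']
          simp only [le_refl, if_true, hpm]
          exact ⟨e, hAl, hz, rfl, rfl⟩

end CycleOrCut

/-! ### Fibres -/

section Fibres
variable [Fintype V] [DecidableEq V] [Fintype E] {G : Multigraph V E}

omit [Fintype V] [Fintype E] in
lemma cut_val (S : Finset V) (e : E) : cut G S e = 0 ∨ cut G S e = 1 ∨ cut G S e = -1 := by
  unfold cut; split_ifs <;> simp

omit [Fintype V] in
lemma supp_isCycle_of_smul {χ : E → ℤ} (hχ : Good G χ) {c : ℤ} (hc : c ≠ 0) {g g' : E → ℤ}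
    (h : ∀ e, g' e = g e + c * χ e) : IsCycleEdgeSet G {e | g e - g' e ≠ 0} := by
  have : {e | g e - g' e ≠ 0} = {e | χ e ≠ 0} := by
    ext e
    simp only [Set.mem_ofPred_eq, h e]
    constructor
    · intro h1 h2; apply h1; rw [h2]; ring
    · intro h1 h2
      have : c * χ e = 0 := by linarith
      rcases mul_eq_zero.1 this with h3 | h3
      · exact hc h3
      · exact h1 h3
  rw [this]; exact hχ.cyc

/-- Two nowhere-zero `k`-flows congruent modulo `k` lie in one component of `F(G, k)`. -/
lemma fibre_reachable {k : ℕ} : ∀ (n : ℕ) (g g' : IntFlow G k),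
    (∀ e, (k : ℤ) ∣ g'.1 e - g.1 e) → (univ.filter fun e => g.1 e ≠ g'.1 e).card = n →
    (intFlowGraph G k).Reachable g g' := by
  classical
  intro n
  induction n using Nat.strong_induction_on with
  | _ n ih =>
    intro g g' hcong hcard
    by_cases hall : ∀ e, g.1 e = g'.1 e
    · have : g = g' := Subtype.ext (funext hall)
      rw [this]
    · push Not at hall
      obtain ⟨e₀, he₀⟩ := hall
      have hk : (0 : ℤ) < k := by
        have := g.2.2.2 e₀
        have := abs_nonneg (g.1 e₀)
        omega
      choose z hz using hcong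
      have hz3 : ∀ e, z e = 0 ∨ z e = 1 ∨ z e = -1 := by
        intro e
        have h1 := abs_lt.1 (g.2.2.2 e)
        have h2 := abs_lt.1 (g'.2.2.2 e)
        have h3 := hz e
        have h4 : z e < 2 := by nlinarith
        have h5 : -2 < z e := by nlinarith
        omega
      have hzflow : IsFlow G z := by
        intro v
        have h1 : ∑ e with G.src e = v, (k : ℤ) * z e = ∑ e with G.tgt e = v, (k : ℤ) * z e := by
          have := (IsFlow.sub G g'.2.1 g.2.1) v
          simp only [hz] at this
          exact this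
        rw [← mul_sum, ← mul_sum] at h1
        exact mul_left_cancel₀ hk.ne' h1
      have hz0 : z e₀ ≠ 0 := by
        intro h
        have := hz e₀
        rw [h, mul_zero] at this
        exact he₀ (by linarith)
      rcases cycle_or_cut (G := G) z (fun _ => True) e₀ hz0 with ⟨χ, hgood, hχ0, hχ⟩ | ⟨S, hS, hS'⟩
      · have hχz : ∀ e, χ e ≠ 0 → χ e = z e := by
          intro e he
          have h1 := (hχ e he).1
          rcases hgood.val e with h2 | h2 | h2
          · exact absurd h2 he
          · rcases hz3 e with h3 | h3 | h3 <;> rw [h2, h3] at h1 ⊢ <;> norm_num at h1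
          · rcases hz3 e with h3 | h3 | h3 <;> rw [h2, h3] at h1 ⊢ <;> norm_num at h1
        have hval : ∀ e, g.1 e + k * χ e = g.1 e ∨ (χ e ≠ 0 ∧ g.1 e + k * χ e = g'.1 e) := by
          intro e
          by_cases h : χ e = 0
          · left; rw [h]; ring
          · right
            refine ⟨h, ?_⟩
            rw [hχz e h]
            have := hz e
            linarith
        have hval2 : ∀ e, g.1 e + k * χ e ≠ 0 ∧ |g.1 e + k * χ e| < k := by
          intro e
          rcases hval e with h | ⟨_, h⟩
          · rw [h]; exact ⟨g.2.2.1 e, g.2.2.2 e⟩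
          · rw [h]; exact ⟨g'.2.2.1 e, g'.2.2.2 e⟩
        let g₁ : IntFlow G k := ⟨fun e => g.1 e + k * χ e,
          IsFlow.add G g.2.1 (hgood.flow.zmul G (k : ℤ)), fun e => (hval2 e).1,
          fun e => (hval2 e).2⟩
        have hadj : (intFlowGraph G k).Adj g g₁ :=
          supp_isCycle_of_smul hgood hk.ne' (fun e => rfl)
        refine hadj.reachable.trans ?_
        refine ih _ ?_ g₁ g' ?_ rfl
        · rw [← hcard]
          apply card_lt_card
          refine ⟨?_, ?_⟩
          · intro e
            simp only [mem_filter, mem_univ, true_and]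
            intro h1 h2
            rcases hval e with h | ⟨_, h⟩
            · exact h1 (by show g.1 e + k * χ e = _; rw [h]; exact h2)
            · exact h1 h
          · intro hsub
            have h1 : e₀ ∈ univ.filter fun e => g.1 e ≠ g'.1 e := by
              simp only [mem_filter, mem_univ, true_and]; exact he₀
            have h2 := hsub h1
            simp only [mem_filter, mem_univ, true_and] at h2
            apply h2
            show g.1 e₀ + k * χ e₀ = _
            rw [hχz e₀ hχ0]
            have := hz e₀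
            linarith
        · intro e
          show (k : ℤ) ∣ g'.1 e - (g.1 e + k * χ e)
          have : g'.1 e - (g.1 e + k * χ e) = k * (z e - χ e) := by
            have := hz e
            linear_combination this
          rw [this]; exact dvd_mul_right _ _
      · exfalso
        have h1 := flow_cut G hzflow S
        have h2 : ∑ e, cut G S e • z e < 0 := by
          have : ∑ e, cut G S e • z e < ∑ e : E, (0 : ℤ) := by
            apply sum_lt_sum
            · intro e _
              have := hS' e trivial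
              simp only [smul_eq_mul]
              omega
            · exact ⟨e₀, mem_univ _, by simpa using hS⟩
          simpa using this
        omega

end Fibres

/-! ### Lifting an edge -/

section Lift
variable [Fintype V] [DecidableEq V] [Fintype E] {G : Multigraph V E}

/-- Counting in a blocking cut. -/
lemma arith_aux {k c d u t : ℤ} (hc : 1 ≤ c) (hd : 0 ≤ d) (hu : 0 ≤ u) (ht : 0 ≤ t)
    (hut : d + 1 ≤ u + t) (h : (k - c + 1) + u + (c + 1) * t ≤ (c - 1) * d) :
    ∃ m : ℕ, k ≤ (c - 2) * m ∧ 2 * (m : ℤ) ≤ d + 1 + u := by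
  by_cases hcase : d + 1 ≤ u
  · refine ⟨(d + 1).toNat, ?_, ?_⟩
    · rw [Int.toNat_of_nonneg (by omega)]
      nlinarith
    · rw [Int.toNat_of_nonneg (by omega)]
      omega
  · refine ⟨u.toNat, ?_, ?_⟩
    · rw [Int.toNat_of_nonneg hu]
      nlinarith
    · rw [Int.toNat_of_nonneg hu]
      omega

/-- The set of the edges of the oriented cycle whose residue is larger than `k - c`. -/
noncomputable def high (k : ℕ) (c : ℤ) (χ g : E → ℤ) : Finset E :=
  open Classical in univ.filter fun e => χ e ≠ 0 ∧ (k : ℤ) - c < (χ e * g e) % k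

omit [Fintype V] in
/-- A blocking cut forces many high edges. -/
lemma blocking_cut {k : ℕ} {c : ℤ} (hc1 : 1 ≤ c) (hck : c + 1 ≤ k) {χ : E → ℤ}
    (hχ : Good G χ) (g : IntFlow G k) (e₀ : E) (he₀ : (k : ℤ) ≤ χ e₀ * g.1 e₀ + c)
    (hnec : ∀ e, χ e ≠ 0 → χ e * g.1 e ≠ -c) (hnekc : ∀ e, χ e ≠ 0 → χ e * g.1 e ≠ k - c)
    (habsχ : ∀ e, χ e ≠ 0 → |χ e * g.1 e| = |g.1 e|)
    (S : Finset V) (hS : cut G S e₀ * g.1 e₀ < 0)
    (hS' : ∀ e, ¬ (χ e ≠ 0 ∧ -c < χ e * g.1 e ∧ χ e * g.1 e < 0) → ¬ 0 < cut G S e * g.1 e) :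
    ∃ m : ℕ, (k : ℤ) ≤ (c - 2) * m ∧ 2 * m ≤ (high k c χ g.1).card := by
  classical
  have hk : (0 : ℤ) < k := by omega
  have hg0 : ∀ e, g.1 e ≠ 0 := g.2.2.1
  have hgk : ∀ e, |g.1 e| < k := g.2.2.2
  have hχe₀ : χ e₀ ≠ 0 := by
    intro h; rw [h] at he₀; omega
  have hflow : ∑ e, cut G S e * g.1 e = 0 := by
    have := flow_cut G g.2.1 S
    simpa only [smul_eq_mul] using this
  have hχflow : ∑ e, cut G S e * χ e = 0 := by
    have := flow_cut G hχ.flow S
    simpa only [smul_eq_mul] using this
  set Dn : Finset E := univ.filter fun e => 0 < cut G S e * g.1 e with hDn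
  set Pp : Finset E := univ.filter fun e => cut G S e * χ e = 1 with hPp
  set Mm : Finset E := univ.filter fun e => cut G S e * χ e = -1 with hMm
  set PH : Finset E := Pp.filter fun e => -c < χ e * g.1 e with hPH
  set PL : Finset E := Pp.filter fun e => ¬ (-c < χ e * g.1 e) with hPL
  -- facts about the four kinds of edges
  have fD : ∀ e ∈ Dn, χ e ≠ 0 ∧ -c < χ e * g.1 e ∧ χ e * g.1 e < 0 ∧ cut G S e * χ e = -1 ∧
      cut G S e * g.1 e ≤ c - 1 := by
    intro e he
    rw [hDn, mem_filter] at he
    have h1 : χ e ≠ 0 ∧ -c < χ e * g.1 e ∧ χ e * g.1 e < 0 := by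
      by_contra h
      exact hS' e h he.2
    refine ⟨h1.1, h1.2.1, h1.2.2, ?_, ?_⟩
    · rcases cut_val (G := G) S e with a | a | a <;> rcases hχ.val e with b | b | b <;>
        rw [a] at he ⊢ <;> rw [b] at h1 ⊢ <;> omega
    · rcases cut_val (G := G) S e with a | a | a <;> rcases hχ.val e with b | b | b <;>
        rw [a] at he ⊢ <;> rw [b] at h1 <;> omega
  have f0 : cut G S e₀ * χ e₀ = -1 ∧ cut G S e₀ * g.1 e₀ ≤ -(k - c + 1) ∧
      (k : ℤ) - c + 1 ≤ χ e₀ * g.1 e₀ := by
    have h1 := hnekc e₀ hχe₀
    rcases cut_val (G := G) S e₀ with a | a | a <;> rcases hχ.val e₀ with b | b | b <;>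
        rw [a] at hS ⊢ <;> rw [b] at h1 he₀ ⊢ <;> omega
  have e0D : e₀ ∉ Dn := by
    rw [hDn, mem_filter]
    rintro ⟨-, h⟩
    omega
  have e0P : e₀ ∉ Pp := by
    rw [hPp, mem_filter]
    rintro ⟨-, h⟩
    omega
  have fP : ∀ e ∈ Pp, e ∉ Dn ∧ χ e ≠ 0 ∧ χ e * g.1 e < 0 ∧
      cut G S e * g.1 e = χ e * g.1 e := by
    intro e he
    have he' := he
    rw [hPp, mem_filter] at he
    have hnd : e ∉ Dn := by
      intro h
      have := (fD e h).2.2.2.1
      omega
    have hnd' : ¬ 0 < cut G S e * g.1 e := by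
      intro h
      exact hnd (by rw [hDn, mem_filter]; exact ⟨mem_univ _, h⟩)
    have hge := hg0 e
    refine ⟨hnd, ?_⟩
    rcases cut_val (G := G) S e with a | a | a <;> rcases hχ.val e with b | b | b <;>
        rw [a] at he hnd' ⊢ <;> rw [b] at he ⊢ <;> omega
  have hcards : (Pp.card : ℤ) = Mm.card := by
    have h1 : ∑ e, cut G S e * χ e
        = ∑ e, ((if cut G S e * χ e = 1 then (1 : ℤ) else 0)
          - (if cut G S e * χ e = -1 then 1 else 0)) := by
      refine sum_congr rfl fun e _ => ?_
      rcases cut_val (G := G) S e with a | a | a <;> rcases hχ.val e with b | b | b <;>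
        rw [a, b] <;> norm_num
    rw [h1, sum_sub_distrib] at hχflow
    rw [hPp, hMm, card_filter, card_filter]
    push_cast
    linarith
  have hDM : Dn.card + 1 ≤ Mm.card := by
    rw [← card_insert_of_notMem e0D]
    apply card_le_card
    intro e he
    rw [mem_insert] at he
    rw [hMm, mem_filter]
    refine ⟨mem_univ _, ?_⟩
    rcases he with he | he
    · rw [he]; exact f0.1
    · exact (fD e he).2.2.2.1
  have hPcard : PH.card + PL.card = Pp.card := by
    rw [hPH, hPL]; exact card_filter_add_card_filter_not _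
  -- the flow inequality
  have hineq : ∀ e, cut G S e * g.1 e ≤ (if e ∈ Dn then c - 1 else 0)
      + (if e = e₀ then -((k : ℤ) - c + 1) else 0) + (if e ∈ PH then -1 else 0)
      + (if e ∈ PL then -(c + 1) else 0) := by
    intro e
    by_cases h1 : e ∈ Dn
    · have h2 : e ≠ e₀ := fun h => e0D (h ▸ h1)
      have h3 : e ∉ Pp := fun h => (fP e h).1 h1
      have h4 : e ∉ PH := fun h => h3 (mem_of_mem_filter _ h)
      have h5 : e ∉ PL := fun h => h3 (mem_of_mem_filter _ h)
      rw [if_pos h1, if_neg h2, if_neg h4, if_neg h5]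
      have := (fD e h1).2.2.2.2
      omega
    · by_cases h2 : e = e₀
      · have h4 : e ∉ PH := fun h => e0P (h2 ▸ mem_of_mem_filter _ h)
        have h5 : e ∉ PL := fun h => e0P (h2 ▸ mem_of_mem_filter _ h)
        rw [if_neg h1, if_pos h2, if_neg h4, if_neg h5, h2]
        have := f0.2.1
        omega
      · by_cases h3 : e ∈ Pp
        · have h6 := fP e h3
          by_cases h7 : -c < χ e * g.1 e
          · have h4 : e ∈ PH := by rw [hPH, mem_filter]; exact ⟨h3, h7⟩
            have h5 : e ∉ PL := by rw [hPL, mem_filter]; rintro ⟨_, h⟩; exact h h7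
            rw [if_neg h1, if_neg h2, if_pos h4, if_neg h5, h6.2.2.2]
            have := h6.2.2.1
            omega
          · have h4 : e ∉ PH := by rw [hPH, mem_filter]; rintro ⟨_, h⟩; exact h7 h
            have h5 : e ∈ PL := by rw [hPL, mem_filter]; exact ⟨h3, h7⟩
            rw [if_neg h1, if_neg h2, if_neg h4, if_pos h5, h6.2.2.2]
            have := hnec e h6.2.1
            omega
        · have h4 : e ∉ PH := fun h => h3 (mem_of_mem_filter _ h)
          have h5 : e ∉ PL := fun h => h3 (mem_of_mem_filter _ h)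
          rw [if_neg h1, if_neg h2, if_neg h4, if_neg h5]
          have : ¬ 0 < cut G S e * g.1 e := by
            intro h
            exact h1 (by rw [hDn, mem_filter]; exact ⟨mem_univ _, h⟩)
          omega
  have hsum := sum_le_sum (fun e (_ : e ∈ (univ : Finset E)) => hineq e)
  rw [hflow] at hsum
  simp only [sum_add_distrib, sum_ite_mem, univ_inter, sum_const, sum_ite_eq',
    mem_univ, if_true, nsmul_eq_mul] at hsum
  obtain ⟨m, hm1, hm2⟩ := arith_aux (k := (k : ℤ)) (c := c) (d := Dn.card) (u := PH.card)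
    (t := PL.card) hc1 (Int.natCast_nonneg _) (Int.natCast_nonneg _) (Int.natCast_nonneg _)
    (by
      have : (PH.card : ℤ) + PL.card = Pp.card := by exact_mod_cast hPcard
      have h2 : (Dn.card : ℤ) + 1 ≤ Mm.card := by exact_mod_cast hDM
      omega)
    (by linarith)
  refine ⟨m, hm1, ?_⟩
  have hdisj : Disjoint (insert e₀ Dn) PH := by
    rw [Finset.disjoint_left]
    intro e he hP
    have h3 : e ∈ Pp := mem_of_mem_filter _ hP
    rw [mem_insert] at he
    rcases he with he | he
    · exact e0P (he ▸ h3)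
    · exact (fP e h3).1 he
  have hsub : (insert e₀ Dn) ∪ PH ⊆ high k c χ g.1 := by
    intro e he
    rw [mem_union, mem_insert] at he
    unfold high
    rw [mem_filter]
    refine ⟨mem_univ _, ?_⟩
    have hneg : ∀ x : ℤ, -c < x → x < 0 → (k : ℤ) - c < x % k := by
      intro x h1 h2
      have h3 : x % k = x + k := by
        rw [← Int.add_emod_right, Int.emod_eq_of_lt (by omega) (by omega)]
      omega
    rcases he with (he | he) | he
    · rw [he]
      refine ⟨hχe₀, ?_⟩
      have h1 := f0.2.2
      have h2 := habsχ e₀ hχe₀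
      have h3 := hgk e₀
      rw [← h2] at h3
      have h4 := (abs_lt.1 h3).2
      rw [Int.emod_eq_of_lt (by omega) h4]
      omega
    · have h1 := fD e he
      exact ⟨h1.1, hneg _ h1.2.1 h1.2.2.1⟩
    · have h1 := fP e (mem_of_mem_filter _ he)
      rw [hPH, mem_filter] at he
      exact ⟨h1.2.1, hneg _ he.2 h1.2.2.1⟩
  have hc1' := card_le_card hsub
  rw [card_union_of_disjoint hdisj, card_insert_of_notMem e0D] at hc1'
  have : (2 * m : ℤ) ≤ ((Dn.card + 1 + PH.card : ℕ) : ℤ) := by push_cast; exact hm2
  omega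

lemma lift_or_count {k : ℕ} {c : ℤ} (hc1 : 1 ≤ c) (hck : c + 1 ≤ k) {χ : E → ℤ}
    (hχ : Good G χ) : ∀ (n : ℕ) (g : IntFlow G k), (∀ e, ¬ ((k : ℤ) ∣ g.1 e + c * χ e)) →
    (univ.filter fun e => (k : ℤ) ≤ χ e * g.1 e + c).card = n →
    (∃ g₁ : IntFlow G k, (∀ e, (k : ℤ) ∣ g₁.1 e - g.1 e) ∧ ∀ e, χ e * g₁.1 e + c < k) ∨
    (∃ m : ℕ, (k : ℤ) ≤ (c - 2) * m ∧ 2 * m ≤ (high k c χ g.1).card) := by
  classical
  intro n
  induction n using Nat.strong_induction_on with
  | _ n ih =>
    intro g hnz hcard
    by_cases hall : ∀ e, χ e * g.1 e + c < k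
    · left
      exact ⟨g, fun e => by simp, hall⟩
    · push Not at hall
      obtain ⟨e₀, he₀⟩ := hall
      have hk : (0 : ℤ) < k := by omega
      have hχsq : ∀ e, χ e ≠ 0 → χ e * χ e = 1 := by
        intro e he
        rcases hχ.val e with h | h | h
        · exact absurd h he
        · rw [h]; norm_num
        · rw [h]; norm_num
      have hχe₀ : χ e₀ ≠ 0 := by
        intro h; rw [h] at he₀; omega
      have hg0 : ∀ e, g.1 e ≠ 0 := g.2.2.1
      have hgk : ∀ e, |g.1 e| < k := g.2.2.2
      -- the product is not one of the two excluded values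
      have hnec : ∀ e, χ e ≠ 0 → χ e * g.1 e ≠ -c := by
        intro e he h
        apply hnz e
        have : g.1 e + c * χ e = 0 := by
          have h1 := hχsq e he
          have : χ e * (g.1 e + c * χ e) = 0 := by
            calc χ e * (g.1 e + c * χ e) = χ e * g.1 e + c * (χ e * χ e) := by ring
              _ = 0 := by rw [h, h1]; ring
          rcases mul_eq_zero.1 this with h2 | h2
          · exact absurd h2 he
          · exact h2
        rw [this]; exact dvd_zero _
      have hnekc : ∀ e, χ e ≠ 0 → χ e * g.1 e ≠ k - c := by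
        intro e he h
        apply hnz e
        have h1 := hχsq e he
        refine ⟨χ e, ?_⟩
        calc g.1 e + c * χ e = χ e * χ e * g.1 e + c * χ e := by rw [h1]; ring
          _ = χ e * (χ e * g.1 e + c) := by ring
          _ = k * χ e := by rw [h]; ring
      have habsχ : ∀ e, χ e ≠ 0 → |χ e * g.1 e| = |g.1 e| := by
        intro e he
        rw [abs_mul]
        rcases hχ.val e with h | h | h
        · exact absurd h he
        · rw [h]; simp
        · rw [h]; simp
      rcases cycle_or_cut (G := G) g.1 (fun e => ¬ (χ e ≠ 0 ∧ -c < χ e * g.1 e ∧ χ e * g.1 e < 0))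
        e₀ (hg0 e₀) with ⟨ψ, hgood, hψ0, hψ⟩ | ⟨S, hS, hS'⟩
      · -- flip the directed cycle
        have hψval : ∀ e, ψ e ≠ 0 → (ψ e = 1 ∧ 0 < g.1 e) ∨ (ψ e = -1 ∧ g.1 e < 0) := by
          intro e he
          have h1 := (hψ e he).1
          rcases hgood.val e with h2 | h2 | h2
          · exact absurd h2 he
          · left; rw [h2] at h1; exact ⟨h2, by omega⟩
          · right; rw [h2] at h1; exact ⟨h2, by omega⟩
        have hval : ∀ e, (g.1 e + -k * ψ e ≠ 0 ∧ |g.1 e + -k * ψ e| < k) := by
          intro e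
          by_cases h : ψ e = 0
          · rw [h, mul_zero, add_zero]; exact ⟨hg0 e, hgk e⟩
          · have h3 := abs_lt.1 (hgk e)
            rcases hψval e h with ⟨h1, h2⟩ | ⟨h1, h2⟩
            · rw [h1]
              refine ⟨by omega, ?_⟩
              rw [abs_lt]; constructor <;> omega
            · rw [h1]
              refine ⟨by omega, ?_⟩
              rw [abs_lt]; constructor <;> omega
        let g₁ : IntFlow G k := ⟨fun e => g.1 e + -k * ψ e,
          IsFlow.add G g.2.1 (hgood.flow.zmul G (-k : ℤ)), fun e => (hval e).1,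
          fun e => (hval e).2⟩
        have hg₁ : ∀ e, g₁.1 e = g.1 e + -k * ψ e := fun e => rfl
        have hdiv : ∀ e, (k : ℤ) ∣ g₁.1 e - g.1 e := by
          intro e
          rw [hg₁]
          exact ⟨-ψ e, by ring⟩
        have hres : ∀ e, (χ e * g₁.1 e) % k = (χ e * g.1 e) % k := by
          intro e
          rw [hg₁]
          have : χ e * (g.1 e + -k * ψ e) = χ e * g.1 e + k * (-(χ e * ψ e)) := by ring
          rw [this, Int.add_mul_emod_self_left]
        have hhigh : high k c χ g₁.1 = high k c χ g.1 := by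
          unfold high
          simp only [hres]
        have hrec := ih (univ.filter fun e => (k : ℤ) ≤ χ e * g₁.1 e + c).card ?_ g₁ ?_ rfl
        · rcases hrec with ⟨g₂, h1, h2⟩ | h
          · left
            refine ⟨g₂, fun e => ?_, h2⟩
            have := dvd_add (h1 e) (hdiv e)
            simpa using this
          · right
            rw [hhigh] at h
            exact h
        · rw [← hcard]
          apply card_lt_card
          refine ⟨?_, ?_⟩
          · intro e
            simp only [mem_filter, mem_univ, true_and]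
            intro h1
            by_contra h2
            by_cases hψe : ψ e = 0
            · rw [hg₁, hψe, mul_zero, add_zero] at h1; omega
            · have hχe : χ e ≠ 0 := by
                intro h; rw [h] at h1; omega
              -- then e was a low negative edge, hence not allowed
              have h3 := (hψ e hψe).2
              rw [hg₁] at h1
              have h4 := hnec e hχe
              have h5 := abs_lt.1 (hgk e)
              have key : -c < χ e * g.1 e ∧ χ e * g.1 e < 0 := by
                rcases hψval e hψe with ⟨a1, a2⟩ | ⟨a1, a2⟩ <;>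
                rcases hχ.val e with b | b | b
                · exact absurd b hχe
                · rw [a1, b] at h1; rw [b] at h4 ⊢; omega
                · rw [a1, b] at h1; rw [b] at h4 ⊢; omega
                · exact absurd b hχe
                · rw [a1, b] at h1; rw [b] at h4 ⊢; omega
                · rw [a1, b] at h1; rw [b] at h4 ⊢; omega
              rcases h3 with h3 | h3
              · rw [h3] at key; omega
              · exact h3 ⟨hχe, key⟩
          · intro hsub
            have h1 : e₀ ∈ univ.filter fun e => (k : ℤ) ≤ χ e * g.1 e + c := by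
              simp only [mem_filter, mem_univ, true_and]; exact he₀
            have h2 := hsub h1
            simp only [mem_filter, mem_univ, true_and] at h2
            rw [hg₁] at h2
            have h5 := abs_lt.1 (hgk e₀)
            rcases hψval e₀ hψ0 with ⟨a1, a2⟩ | ⟨a1, a2⟩ <;>
            rcases hχ.val e₀ with b | b | b
            · exact absurd b hχe₀
            · rw [a1, b] at h2; rw [b] at he₀; omega
            · rw [a1, b] at h2; rw [b] at he₀; omega
            · exact absurd b hχe₀
            · rw [a1, b] at h2; rw [b] at he₀; omega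
            · rw [a1, b] at h2; rw [b] at he₀; omega
        · intro e h
          apply hnz e
          rw [hg₁] at h
          have := dvd_add h (⟨ψ e, rfl⟩ : (k : ℤ) ∣ k * ψ e)
          have h2 : g.1 e + -k * ψ e + c * χ e + k * ψ e = g.1 e + c * χ e := by ring
          rwa [h2] at this
      · -- a blocking cut
        right
        exact blocking_cut hc1 hck hχ g e₀ he₀ hnec hnekc habsχ S hS hS'

omit [Fintype V] in
/-- Adding `c` along the oriented cycle. -/
lemma finish_lift {k : ℕ} {c : ℤ} (hc1 : 1 ≤ c) {χ : E → ℤ}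
    (hχ : Good G χ) (g g₁ : IntFlow G k) (hnz : ∀ e, ¬ ((k : ℤ) ∣ g.1 e + c * χ e))
    (h₁ : ∀ e, (k : ℤ) ∣ g₁.1 e - g.1 e) (h₂ : ∀ e, χ e * g₁.1 e + c < k) :
    ∃ g₂ : IntFlow G k, (∀ e, g₂.1 e = g₁.1 e + c * χ e) ∧ (intFlowGraph G k).Adj g₁ g₂ := by
  have hval : ∀ e, g₁.1 e + c * χ e ≠ 0 ∧ |g₁.1 e + c * χ e| < k := by
    intro e
    have h3 := abs_lt.1 (g₁.2.2.2 e)
    have h4 := h₂ e
    refine ⟨?_, ?_⟩
    · intro h
      apply hnz e
      have := dvd_sub (show (k : ℤ) ∣ g₁.1 e + c * χ e by rw [h]; exact dvd_zero _) (h₁ e)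
      have h5 : g₁.1 e + c * χ e - (g₁.1 e - g.1 e) = g.1 e + c * χ e := by ring
      rwa [h5] at this
    · rw [abs_lt]
      rcases hχ.val e with b | b | b <;> rw [b] at h4 ⊢ <;> constructor <;> omega
  refine ⟨⟨fun e => g₁.1 e + c * χ e, IsFlow.add G g₁.2.1 (hχ.flow.zmul G c),
    fun e => (hval e).1, fun e => (hval e).2⟩, fun e => rfl, ?_⟩
  exact supp_isCycle_of_smul hχ (by omega) (fun e => rfl)

/-- Every edge of `F(G, ℤ/k)` lifts when the cycles of `G` are short enough for `k`. -/
lemma lift_edge {k L : ℕ} (hk : 2 ≤ k)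
    (hL : ∀ C, IsCycleEdgeSet G C → C.ncard ≤ L)
    (harith : ∀ (c : ℤ) (m m' : ℕ), 1 ≤ c → c + 1 ≤ k → (k : ℤ) ≤ (c - 2) * m →
      (k : ℤ) ≤ (k - c - 2) * m' → L < 2 * m + 2 * m')
    (g : IntFlow G k) (f' : GroupFlow G (ZMod k))
    (hadj : (groupFlowGraph G (ZMod k)).Adj (reduce G k g) f') :
    ∃ g₁ g₂ : IntFlow G k, (∀ e, (k : ℤ) ∣ g₁.1 e - g.1 e) ∧ reduce G k g₂ = f' ∧
      (intFlowGraph G k).Adj g₁ g₂ := by
  classical
  have : NeZero k := ⟨by omega⟩
  have hC : IsCycleEdgeSet G {e | (g.1 e : ZMod k) - f'.1 e ≠ 0} := hadj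
  obtain ⟨χ, hχ, hsupp, hmult⟩ := exists_good_of_cycle hC
  obtain ⟨c₀, hc₀⟩ := hmult (ZMod k) (fun e => f'.1 e - (g.1 e : ZMod k))
    (IsFlow.sub G f'.2.1 (reduce G k g).2.1) (by
      intro x hx
      simp only [Set.mem_ofPred_eq]
      intro h
      apply hx
      rw [← neg_sub, h, neg_zero])
  have hf' : ∀ e, f'.1 e = ((g.1 e + (c₀.val : ℤ) * χ e : ℤ) : ZMod k) := by
    intro e
    have h1 := hc₀ e
    push_cast
    rw [ZMod.natCast_zmod_val]
    rw [zsmul_eq_mul] at h1
    linear_combination h1
  have hc₀ne : c₀ ≠ 0 := by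
    intro h
    apply not_isCycleEdgeSet_empty G _ hC
    ext e
    simp only [Set.mem_ofPred_eq, Set.mem_empty_iff_false, iff_false, not_not]
    have h1 := hc₀ e
    rw [h, smul_zero] at h1
    rw [← neg_sub, h1, neg_zero]
  set c : ℤ := (c₀.val : ℤ) with hc
  have hc1 : 1 ≤ c := by
    have : c₀.val ≠ 0 := by
      intro h; exact hc₀ne ((ZMod.val_eq_zero c₀).1 h)
    omega
  have hck : c + 1 ≤ k := by
    have := ZMod.val_lt c₀
    omega
  have hnz : ∀ e, ¬ ((k : ℤ) ∣ g.1 e + c * χ e) := by
    intro e h
    apply f'.2.2 e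
    rw [hf' e, ZMod.intCast_zmod_eq_zero_iff_dvd]
    exact h
  rcases lift_or_count hc1 hck hχ _ g hnz rfl with ⟨g₁, h1, h2⟩ | ⟨m, hm1, hm2⟩
  · obtain ⟨g₂, h3, h4⟩ := finish_lift hc1 hχ g g₁ hnz h1 h2
    refine ⟨g₁, g₂, h1, ?_, h4⟩
    apply Subtype.ext
    funext e
    show ((g₂.1 e : ℤ) : ZMod k) = f'.1 e
    rw [h3 e, hf' e, ZMod.intCast_eq_intCast_iff_dvd_sub]
    obtain ⟨q, hq⟩ := h1 e
    exact ⟨-q, by linear_combination -hq⟩
  · have hχ' := hχ.neg
    have hnz' : ∀ e, ¬ ((k : ℤ) ∣ g.1 e + (k - c) * (- χ e)) := by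
      intro e h
      apply hnz e
      have := dvd_add h (⟨χ e, rfl⟩ : (k : ℤ) ∣ k * χ e)
      have h2 : g.1 e + (k - c) * (- χ e) + k * χ e = g.1 e + c * χ e := by ring
      rwa [h2] at this
    rcases lift_or_count (c := k - c) (by omega) (by omega) hχ' _ g hnz' rfl with
      ⟨g₁, h1, h2⟩ | ⟨m', hm1', hm2'⟩
    · obtain ⟨g₂, h3, h4⟩ := finish_lift (c := k - c) (by omega) hχ' g g₁ hnz' h1 h2
      refine ⟨g₁, g₂, h1, ?_, h4⟩
      apply Subtype.ext
      funext e
      show ((g₂.1 e : ℤ) : ZMod k) = f'.1 e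
      rw [h3 e, hf' e, ZMod.intCast_eq_intCast_iff_dvd_sub]
      obtain ⟨q, hq⟩ := h1 e
      exact ⟨-q + χ e, by linear_combination -hq⟩
    · exfalso
      have hlt := harith c m m' hc1 hck hm1 hm1'
      have hdisj : Disjoint (high k c χ g.1) (high k (k - c) (fun e => - χ e) g.1) := by
        rw [Finset.disjoint_left]
        intro e h1 h2
        unfold high at h1 h2
        rw [mem_filter] at h1 h2
        have hpos : (0 : ℤ) < k := by omega
        have h3 : (- χ e * g.1 e) % k = k - (χ e * g.1 e) % k := by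
          have hne : (χ e * g.1 e) % k ≠ 0 := by
            intro h
            have := h1.2.2
            omega
          have hlt' := Int.emod_lt_of_pos (χ e * g.1 e) hpos
          have hge := Int.emod_nonneg (χ e * g.1 e) hpos.ne'
          have h4 : (- χ e * g.1 e) = (k - (χ e * g.1 e) % k) + k * (-((χ e * g.1 e) / k) - 1) := by
            have := Int.emod_add_mul_ediv (χ e * g.1 e) k
            linear_combination this
          rw [h4, Int.add_mul_emod_self_left, Int.emod_eq_of_lt (by omega) (by omega)]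
        have h5 := h1.2.2
        have h6 := h2.2.2
        rw [h3] at h6
        omega
      have hsub : high k c χ g.1 ∪ high k (k - c) (fun e => - χ e) g.1
          ⊆ univ.filter fun e => χ e ≠ 0 := by
        intro e he
        rw [mem_union] at he
        unfold high at he
        rw [mem_filter, mem_filter] at he
        rw [mem_filter]
        refine ⟨mem_univ _, ?_⟩
        rcases he with he | he
        · exact he.2.1
        · intro h; exact he.2.1 (by show - χ e = 0; rw [h, neg_zero])
      have h7 := card_le_card hsub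
      rw [card_union_of_disjoint hdisj] at h7
      have h8 := hL _ hχ.cyc
      have h9 : {e | χ e ≠ 0}.ncard = (univ.filter fun e => χ e ≠ 0).card := by
        rw [← Set.ncard_coe_finset]
        congr 1
        ext e
        simp
      omega

omit [Fintype V] in
/-- Edges of `F(G, k)` reduce to edges (or points) of `F(G, ℤ/k)`. -/
lemma reduce_adj {k : ℕ} (g g' : IntFlow G k) (h : (intFlowGraph G k).Adj g g') :
    reduce G k g = reduce G k g' ∨ (groupFlowGraph G (ZMod k)).Adj (reduce G k g) (reduce G k g') := by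
  have hC : IsCycleEdgeSet G {e | g.1 e - g'.1 e ≠ 0} := h
  obtain ⟨χ, hχ, hsupp, hmult⟩ := exists_good_of_cycle hC
  obtain ⟨c, hc⟩ := hmult ℤ (fun e => g.1 e - g'.1 e) (IsFlow.sub G g.2.1 g'.2.1) (fun x hx => hx)
  by_cases hk : (c : ZMod k) = 0
  · left
    apply Subtype.ext
    funext e
    show ((g.1 e : ℤ) : ZMod k) = ((g'.1 e : ℤ) : ZMod k)
    have h1 := hc e
    have h2 := congrArg (fun z : ℤ => (z : ZMod k)) h1
    simp only [smul_eq_mul] at h2
    push_cast at h2
    rw [hk, mul_zero] at h2
    exact sub_eq_zero.1 h2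
  · right
    show IsCycleEdgeSet G {e | ((g.1 e : ℤ) : ZMod k) - ((g'.1 e : ℤ) : ZMod k) ≠ 0}
    have : {e | ((g.1 e : ℤ) : ZMod k) - ((g'.1 e : ℤ) : ZMod k) ≠ 0} = {e | χ e ≠ 0} := by
      ext e
      simp only [Set.mem_ofPred_eq]
      have h1 := hc e
      have h2 := congrArg (fun z : ℤ => (z : ZMod k)) h1
      simp only [smul_eq_mul] at h2
      push_cast at h2
      rw [h2]
      constructor
      · intro h3 h4; apply h3; rw [h4]; simp
      · intro h3
        rcases hχ.val e with b | b | b
        · exact absurd b h3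
        · rw [b]; simpa using hk
        · rw [b]; simpa using hk
    rw [this]; exact hχ.cyc

/-- The correspondence of components, under the arithmetic condition. -/
theorem components {k L : ℕ} (hk : 2 ≤ k)
    (hL : ∀ C, IsCycleEdgeSet G C → C.ncard ≤ L)
    (harith : ∀ (c : ℤ) (m m' : ℕ), 1 ≤ c → c + 1 ≤ k → (k : ℤ) ≤ (c - 2) * m →
      (k : ℤ) ≤ (k - c - 2) * m' → L < 2 * m + 2 * m') (g g' : IntFlow G k) :
    (intFlowGraph G k).Reachable g g' ↔
      (groupFlowGraph G (ZMod k)).Reachable (reduce G k g) (reduce G k g') := by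
  constructor
  · rintro ⟨w⟩
    induction w with
    | nil => exact SimpleGraph.Reachable.refl _
    | cons h _ ih =>
      rcases reduce_adj _ _ h with h1 | h1
      · rw [h1]; exact ih
      · exact h1.reachable.trans ih
  · rintro ⟨w⟩
    have key : ∀ (f f' : GroupFlow G (ZMod k)) (_ : (groupFlowGraph G (ZMod k)).Walk f f')
        (g g' : IntFlow G k), reduce G k g = f → reduce G k g' = f' →
        (intFlowGraph G k).Reachable g g' := by
      intro f f' w
      induction w with
      | nil =>
        intro g g' h1 h2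
        refine fibre_reachable _ g g' ?_ rfl
        intro e
        have h3 : ((g.1 e : ℤ) : ZMod k) = ((g'.1 e : ℤ) : ZMod k) := by
          have := congrArg (fun x : GroupFlow G (ZMod k) => x.1 e) (h1.trans h2.symm)
          exact this
        exact (ZMod.intCast_eq_intCast_iff_dvd_sub _ _ _).1 h3
      | cons hadj _ ih =>
        intro g g' h1 h2
        rw [← h1] at hadj
        obtain ⟨g₁, g₂, h3, h4, h5⟩ := lift_edge hk hL harith g _ hadj
        exact ((fibre_reachable _ g g₁ h3 rfl).trans h5.reachable).trans (ih g₂ g' h4 h2)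
    exact key _ _ w g g' rfl rfl

end Lift

lemma cycle_ncard_le_card [Fintype V] (G : Multigraph V E) {C : Set E}
    (h : IsCycleEdgeSet G C) : C.ncard ≤ Fintype.card V := by
  obtain ⟨n, v, e, hv, he, -, rfl⟩ := h
  have h1 : (Set.range e).ncard = n + 2 := by
    rw [← Set.image_univ, Set.ncard_image_of_injective _ he, Set.ncard_univ, Nat.card_eq_fintype_card,
      Fintype.card_fin]
  have h2 := Fintype.card_le_of_injective v hv
  rw [Fintype.card_fin] at h2
  omega

/-- Reduction modulo `k` identifies the components of `F(G, k)` with components of `F(G, ℤ/k)`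
(two nowhere-zero `k`-flows are connected in `F(G, k)` if and only if their residues are connected
in `F(G, ℤ/k)`), and the implication asked for in Q1 holds for `G` and `k`. -/
def LiftsTo (G : Multigraph V E) [DecidableEq V] [Fintype E] (k : ℕ) : Prop :=
  (∀ g g' : IntFlow G k, (intFlowGraph G k).Reachable g g' ↔
    (groupFlowGraph G (ZMod k)).Reachable (reduce G k g) (reduce G k g')) ∧
  ((groupFlowGraph G (ZMod k)).Preconnected → (intFlowGraph G k).Preconnected)

section Main
variable [Fintype V] [DecidableEq V] [Fintype E]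

omit [Fintype V] in
lemma liftsTo_of_main {G : Multigraph V E} {k : ℕ}
    (main : ∀ g g' : IntFlow G k, (intFlowGraph G k).Reachable g g' ↔
      (groupFlowGraph G (ZMod k)).Reachable (reduce G k g) (reduce G k g')) : LiftsTo G k :=
  ⟨main, fun hpre g g' => (main g g').2 (hpre _ _)⟩

lemma pos_aux {k c : ℤ} {m m' : ℕ} (h1 : 1 ≤ c) (h2 : c + 1 ≤ k) (h3 : k ≤ (c - 2) * m)
    (h4 : k ≤ (k - c - 2) * m') : 0 < c - 2 ∧ 0 < k - c - 2 := by
  constructor
  · by_contra h
    have : (c - 2) * (m : ℤ) ≤ 0 := mul_nonpos_of_nonpos_of_nonneg (by omega) (by omega)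
    omega
  · by_contra h
    have : (k - c - 2) * (m' : ℤ) ≤ 0 := mul_nonpos_of_nonpos_of_nonneg (by omega) (by omega)
    omega

lemma liftsTo_small {G : Multigraph V E} {k : ℕ} (hk2 : 2 ≤ k) (hk5 : k ≤ 5) : LiftsTo G k := by
  classical
  refine liftsTo_of_main (components (G := G) (k := k) (L := Fintype.card E) hk2
    (fun C _ => by
      rw [← Nat.card_eq_fintype_card, ← Set.ncard_univ]
      exact Set.ncard_le_ncard (Set.subset_univ _) (Set.toFinite _))
    (fun c m m' h1 h2 h3 h4 => by
      have := pos_aux h1 h2 h3 h4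
      omega))

lemma liftsTo_short {G : Multigraph V E} {k L : ℕ} (hk2 : 2 ≤ k)
    (hL : ∀ C, IsCycleEdgeSet G C → C.ncard ≤ L)
    (hcond : ∀ c m m' : ℕ, 3 ≤ c → c + 3 ≤ k → k ≤ (c - 2) * m → k ≤ (k - c - 2) * m' →
      L < 2 * m + 2 * m') : LiftsTo G k := by
  refine liftsTo_of_main (components (G := G) (k := k) (L := L) hk2 hL
    (fun c m m' h1 h2 h3 h4 => ?_))
  obtain ⟨h7, h8⟩ := pos_aux h1 h2 h3 h4
  refine hcond c.toNat m m' (by omega) (by omega) ?_ ?_
  · zify
    rw [Nat.cast_sub (by omega)]
    push_cast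
    rw [Int.toNat_of_nonneg (by omega)]
    exact h3
  · zify
    rw [Nat.cast_sub (by omega), Nat.cast_sub (by omega)]
    push_cast
    rw [Int.toNat_of_nonneg (by omega)]
    exact h4

lemma liftsTo_nine {G : Multigraph V E} {k : ℕ} (hk2 : 2 ≤ k)
    (hL : ∀ C, IsCycleEdgeSet G C → C.ncard ≤ 9) : LiftsTo G k := by
  refine liftsTo_of_main (components (G := G) (k := k) (L := 9) hk2 hL
    (fun c m m' h1 h2 h3 h4 => ?_))
  obtain ⟨h7, h8⟩ := pos_aux h1 h2 h3 h4
  have hm : 2 ≤ m := by
    by_contra h
    have : (m : ℤ) ≤ 1 := by omega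
    nlinarith
  have hm' : 2 ≤ m' := by
    by_contra h
    have : (m' : ℤ) ≤ 1 := by omega
    nlinarith
  by_contra hlt
  have e1 : m = 2 := by omega
  have e2 : m' = 2 := by omega
  rw [e1] at h3
  rw [e2] at h4
  push_cast at h3 h4
  omega

lemma liftsTo_six {G : Multigraph V E}
    (hL : ∀ C, IsCycleEdgeSet G C → C.ncard ≤ 23) : LiftsTo G 6 := by
  refine liftsTo_of_main (components (G := G) (k := 6) (L := 23) (by omega) hL
    (fun c m m' h1 h2 h3 h4 => ?_))
  obtain ⟨h7, h8⟩ := pos_aux h1 h2 h3 h4
  have hc3 : c = 3 := by push_cast at h8 h2; omega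
  subst hc3
  push_cast at h3 h4
  omega

end Main

end Pool.Agent.FlowRec
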