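import Pool.Agent.FlowRec.Divisor

/-!
# Moving between residue flows inside `F(G, k)`
-/

namespace Pool.Agent.FlowRec

open Finset

variable {V E : Type} [Fintype V] [DecidableEq V] [Fintype E] {G : Multigraph V E}

/-- Every lift of `p` (modulo `k`) is connected in `F(G, k)` to some lift of `q`. -/
def Conn (G : Multigraph V E) (k : ℕ) (p q : E → ℤ) : Prop :=
  ∀ g : IntFlow G k, (∀ e, (k : ℤ) ∣ g.1 e - p e) →
    ∃ g' : IntFlow G k, (∀ e, (k : ℤ) ∣ g'.1 e - q e) ∧ (intFlowGraph G k).Reachable g g'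

omit [Fintype V] in
lemma Conn.trans {k : ℕ} {p q r : E → ℤ} (h : Conn G k p q) (h' : Conn G k q r) :
    Conn G k p r := by
  intro g hg
  obtain ⟨g₁, h1, h2⟩ := h g hg
  obtain ⟨g₂, h3, h4⟩ := h' g₁ h1
  exact ⟨g₂, h3, h2.trans h4⟩

omit [Fintype V] in
lemma Conn.of_dvd {k : ℕ} {p q : E → ℤ} (h : ∀ e, (k : ℤ) ∣ q e - p e) : Conn G k p q := by
  intro g hg
  refine ⟨g, fun e => ?_, SimpleGraph.Reachable.refl _⟩
  have := dvd_sub (hg e) (h e)
  have h1 : g.1 e - p e - (q e - p e) = g.1 e - q e := by ring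
  rwa [h1] at this

/-- Unit steps always lift. -/
lemma Conn.unit {k : ℕ} (hk : 2 ≤ k) {χ : E → ℤ} (hχ : Good G χ) {p : E → ℤ}
    (hnz : ∀ e, ¬ (k : ℤ) ∣ p e + χ e) : Conn G k p (fun e => p e + χ e) := by
  intro g hg
  have hnz' : ∀ e, ¬ ((k : ℤ) ∣ g.1 e + 1 * χ e) := by
    intro e h
    apply hnz e
    have h1 := dvd_sub h (hg e)
    have h2 : g.1 e + 1 * χ e - (g.1 e - p e) = p e + χ e := by ring
    rwa [h2] at h1
  rcases lift_or_count (c := 1) le_rfl (by omega) hχ _ g hnz' rfl with ⟨g₁, h1, h2⟩ | ⟨m, hm, -⟩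
  · obtain ⟨g₂, h3, h4⟩ := finish_lift (c := 1) le_rfl hχ g g₁ hnz' h1 h2
    refine ⟨g₂, fun e => ?_, (fibre_reachable _ g g₁ h1 rfl).trans h4.reachable⟩
    rw [h3 e]
    have h5 := dvd_add (h1 e) (hg e)
    have h6 : g₁.1 e - g.1 e + (g.1 e - p e) = g₁.1 e + 1 * χ e - (p e + χ e) := by ring
    rwa [h6] at h5
  · exfalso
    omega

/-- Small displacements which do not meet `0` on the way. -/
lemma Conn.small {k : ℕ} (hk : 2 ≤ k) : ∀ (n : ℕ) (p φ : E → ℤ), IsFlow G φ →
    (∑ e, (φ e).natAbs) = n →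
    (∀ e (j : ℤ), ((0 ≤ j ∧ j ≤ φ e) ∨ (φ e ≤ j ∧ j ≤ 0)) → ¬ (k : ℤ) ∣ p e + j) →
    Conn G k p (fun e => p e + φ e) := by
  intro n
  induction n using Nat.strong_induction_on with
  | _ n ih =>
    intro p φ hφ hn hclear
    by_cases hall : ∀ e, φ e = 0
    · exact Conn.of_dvd (fun e => by simp [hall e])
    · push Not at hall
      obtain ⟨e₀, he₀⟩ := hall
      obtain ⟨χ, hχ, hχ0, hconf⟩ := flow_cycle hφ he₀
      have hval : ∀ e, χ e = 0 ∨ (χ e = 1 ∧ 0 < φ e) ∨ (χ e = -1 ∧ φ e < 0) := by
        intro e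
        by_cases h : χ e = 0
        · left; exact h
        · right
          have h1 := hconf e h
          rcases hχ.val e with h2 | h2 | h2
          · exact absurd h2 h
          · left; rw [h2] at h1; exact ⟨h2, by omega⟩
          · right; rw [h2] at h1; exact ⟨h2, by omega⟩
      have h1 : Conn G k p (fun e => p e + χ e) := by
        apply Conn.unit hk hχ
        intro e
        apply hclear e
        rcases hval e with h | ⟨h, h'⟩ | ⟨h, h'⟩ <;> omega
      have hlt : (∑ e, (φ e - χ e).natAbs) < n := by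
        rw [← hn]
        apply sum_lt_sum
        · intro e _
          rcases hval e with h | ⟨h, h'⟩ | ⟨h, h'⟩ <;> omega
        · refine ⟨e₀, mem_univ _, ?_⟩
          rcases hval e₀ with h | ⟨h, h'⟩ | ⟨h, h'⟩
          · exact absurd h hχ0
          · omega
          · omega
      have h2 := ih _ hlt (fun e => p e + χ e) (fun e => φ e - χ e)
        (IsFlow.sub G hφ hχ.flow) rfl (by
          intro e j hj
          have h3 := hclear e (j + χ e) (by
            rcases hval e with h | ⟨h, h'⟩ | ⟨h, h'⟩ <;> omega)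
          have h4 : p e + (j + χ e) = p e + χ e + j := by ring
          rwa [h4] at h3)
      have h3 := h1.trans h2
      have h4 : (fun e => p e + χ e + (φ e - χ e)) = fun e => p e + φ e := by
        funext e; ring
      rwa [h4] at h3

/-- Displacements by multiples of a divisor `c` of `k`, supported off the multiples of `c`. -/
lemma Conn.div {k q c : ℕ} (hq : 1 ≤ q) (hc : 1 ≤ c) (hk : k = q * c) :
    ∀ (n : ℕ) (p ψ : E → ℤ), IsFlow G ψ → (∑ e, (ψ e).natAbs) = n →
    (∀ e, ψ e ≠ 0 → ¬ (c : ℤ) ∣ p e) → Conn G k p (fun e => p e + c * ψ e) := by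
  intro n
  induction n using Nat.strong_induction_on with
  | _ n ih =>
    intro p ψ hψ hn hclear
    by_cases hall : ∀ e, ψ e = 0
    · exact Conn.of_dvd (fun e => by simp [hall e])
    · push Not at hall
      obtain ⟨e₀, he₀⟩ := hall
      obtain ⟨χ, hχ, hχ0, hconf⟩ := flow_cycle hψ he₀
      have hval : ∀ e, χ e = 0 ∨ (χ e = 1 ∧ 0 < ψ e) ∨ (χ e = -1 ∧ ψ e < 0) := by
        intro e
        by_cases h : χ e = 0
        · left; exact h
        · right
          have h1 := hconf e h
          rcases hχ.val e with h2 | h2 | h2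
          · exact absurd h2 h
          · left; rw [h2] at h1; exact ⟨h2, by omega⟩
          · right; rw [h2] at h1; exact ⟨h2, by omega⟩
      have hck : (c : ℤ) ∣ k := by rw [hk]; push_cast; exact Dvd.intro_left _ rfl
      have h1 : Conn G k p (fun e => p e + c * χ e) := by
        intro g hg
        obtain ⟨g', h2, h3⟩ := divisor_bypass hq hc hk g hχ (by
          intro e he h
          apply hclear e
          · rcases hval e with h' | ⟨h', h''⟩ | ⟨h', h''⟩ <;> omega
          · have h4 := dvd_sub h (hck.trans (hg e))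
            have h5 : g.1 e - (g.1 e - p e) = p e := by ring
            rwa [h5] at h4) 1
        refine ⟨g', fun e => ?_, h3⟩
        have h4 := dvd_add (h2 e) (hg e)
        have h5 : g'.1 e - (g.1 e + 1 * c * χ e) + (g.1 e - p e) = g'.1 e - (p e + c * χ e) := by
          ring
        rwa [h5] at h4
      have hlt : (∑ e, (ψ e - χ e).natAbs) < n := by
        rw [← hn]
        apply sum_lt_sum
        · intro e _
          rcases hval e with h | ⟨h, h'⟩ | ⟨h, h'⟩ <;> omega
        · refine ⟨e₀, mem_univ _, ?_⟩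
          rcases hval e₀ with h | ⟨h, h'⟩ | ⟨h, h'⟩
          · exact absurd h hχ0
          · omega
          · omega
      have h2 := ih _ hlt (fun e => p e + c * χ e) (fun e => ψ e - χ e)
        (IsFlow.sub G hψ hχ.flow) rfl (by
          intro e he h
          apply hclear e
          · rcases hval e with h' | ⟨h', h''⟩ | ⟨h', h''⟩ <;> omega
          · have h3 := dvd_sub h (Dvd.intro (χ e) rfl : (c : ℤ) ∣ c * χ e)
            have h4 : p e + c * χ e - c * χ e = p e := by ring
            rwa [h4] at h3)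
      have h3 := h1.trans h2
      have h4 : (fun e => p e + c * χ e + c * (ψ e - χ e)) = fun e => p e + c * ψ e := by
        funext e; ring
      rwa [h4] at h3

end Pool.Agent.FlowRec
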