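import Pool.Agent.FlowRec.AvoidFlows
import Pool.Agent.FlowRec.Steps

/-!
# Composite moduli
-/

namespace Pool.Agent.FlowRec

open Finset

variable {V E : Type} [Fintype V] [DecidableEq V] [Fintype E] [DecidableEq E]

/-! ### Lifting group flows -/

lemma no_cycle_of_maximal (G : Multigraph V E) {B : Finset E} (hB : CI G ∅ B)
    (hmax : ∀ w, w ∉ B → w ∉ (∅ : Finset E) → ¬ CI G ∅ (insert w B)) {χ : E → ℤ}
    (hχ : Good G χ) (h0 : ∀ x ∈ B, χ x = 0) {w : E} (hw : χ w ≠ 0) : False := by
  have hwB : w ∉ B := fun h => hw (h0 w h)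
  apply hmax w hwB (notMem_empty w)
  intro e he
  rcases mem_insert.1 he with h | h
  · rw [h]
    refine ⟨χ, hχ, hw, fun x hx => absurd hx (notMem_empty x), fun x hx hxw => ?_⟩
    rcases mem_insert.1 hx with h' | h'
    · exact absurd h' hxw
    · exact h0 x h'
  · obtain ⟨η, h1, h2, -, h4⟩ := hB e h
    have hflow : IsFlow G (fun x => η x - (η w * χ w) * χ x) :=
      IsFlow.sub G h1.flow (hχ.flow.zmul G _)
    have hne : (fun x => η x - (η w * χ w) * χ x) e ≠ 0 := by
      show η e - (η w * χ w) * χ e ≠ 0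
      rw [h0 e h, mul_zero, sub_zero]
      exact h2
    obtain ⟨κ, hκ, hκe, hκc⟩ := flow_cycle hflow hne
    have hκ0 : ∀ x, η x - (η w * χ w) * χ x = 0 → κ x = 0 := by
      intro x hx
      by_contra h
      have h5 : 0 < κ x * (η x - (η w * χ w) * χ x) := hκc x h
      rw [hx, mul_zero] at h5
      exact lt_irrefl _ h5
    refine ⟨κ, hκ, hκe, fun x hx => absurd hx (notMem_empty x), fun x hx hxe => ?_⟩
    apply hκ0
    rcases mem_insert.1 hx with h' | h'
    · rw [h']
      have h5 : χ w * χ w = 1 := by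
        rcases hχ.val w with h | h | h
        · exact absurd h hw
        · rw [h]; norm_num
        · rw [h]; norm_num
      have h6 : η w - (η w * χ w) * χ w = η w - η w * (χ w * χ w) := by ring
      rw [h6, h5, mul_one, sub_self]
    · rw [h4 x h' hxe, h0 x h', mul_zero, sub_zero]

/-- Every `ℤ/k`-flow is the reduction of an integer flow. -/
lemma lift_group (G : Multigraph V E) {k : ℕ} [NeZero k] {f : E → ZMod k} (hf : IsFlow G f) :
    ∃ p : E → ℤ, IsFlow G p ∧ ∀ e, (p e : ZMod k) = f e := by
  classical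
  obtain ⟨B, -, hB, -, hmax⟩ := exists_maximal_ci G (N := ∅) (I := ∅)
    (fun e he => absurd he (notMem_empty e)) (fun e he => absurd he (notMem_empty e))
  have h1 : ∀ e, ∃ χ : E → ℤ, e ∈ B → (Good G χ ∧ χ e ≠ 0 ∧ ∀ x ∈ B, x ≠ e → χ x = 0) := by
    intro e
    by_cases he : e ∈ B
    · obtain ⟨χ, h1, h2, -, h4⟩ := hB e he
      exact ⟨χ, fun _ => ⟨h1, h2, h4⟩⟩
    · exact ⟨fun _ => 0, fun h => absurd h he⟩
  choose χ hχ using h1
  set p : E → ℤ := fun w => ∑ e ∈ B, (((f e).val : ℤ) * χ e e) * χ e w with hp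
  have hpflow : IsFlow G p := isFlow_sum G B _ χ (fun e he => (hχ e he).1.flow)
  refine ⟨p, hpflow, fun w => ?_⟩
  have hpz : IsFlow G (fun e => (p e : ZMod k)) := by
    intro v
    have := congrArg (fun z : ℤ => (z : ZMod k)) (hpflow v)
    push_cast at this
    exact this
  have hd : IsFlow G (fun e => f e - (p e : ZMod k)) := IsFlow.sub G hf hpz
  have hpB : ∀ w ∈ B, (p w : ZMod k) = f w := by
    intro w hw
    have : p w = (f w).val := by
      simp only [hp]
      rw [sum_eq_single w]
      · have h3 : χ w w * χ w w = 1 := by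
          rcases (hχ w hw).1.val w with h | h | h
          · exact absurd h (hχ w hw).2.1
          · rw [h]; norm_num
          · rw [h]; norm_num
        rw [mul_assoc, h3, mul_one]
      · intro e he hne
        rw [(hχ e he).2.2 w hw hne.symm, mul_zero]
      · intro h; exact absurd hw h
    rw [this]
    push_cast
    rw [ZMod.natCast_zmod_val]
  by_cases hw : w ∈ B
  · exact hpB w hw
  · rcases cycle_or_cut_undirected (G := G) (fun x => x ∉ B) w with
      ⟨η, h1, h2, h3⟩ | ⟨S, h1, h2⟩
    · exfalso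
      refine no_cycle_of_maximal G hB hmax h1 (fun x hx => ?_) h2
      by_contra h
      rcases h3 x h with h4 | h4
      · rw [h4] at hx; exact hw hx
      · exact h4 hx
    · have h3 := flow_cut G hd S
      rw [sum_eq_single w] at h3
      · have hval : cut G S w = 0 ∨ cut G S w = 1 ∨ cut G S w = -1 := by
          unfold cut
          split_ifs <;> simp
        rcases hval with h | h | h
        · exact absurd h h1
        · rw [h, one_smul] at h3
          exact (sub_eq_zero.1 h3).symm
        · rw [h, neg_smul, one_smul, neg_eq_zero] at h3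
          exact (sub_eq_zero.1 h3).symm
      · intro x _ hxw
        by_cases hxB : x ∈ B
        · rw [hpB x hxB, sub_self, smul_zero]
        · rw [h2 x hxB hxw, zero_smul]
      · intro h; exact absurd (mem_univ w) h

/-- Connectivity of `F(G, k)` passes to `F(G, ℤ/k)`. -/
lemma group_preconnected (G : Multigraph V E) {k : ℕ} (hk : 1 ≤ k)
    (h : (intFlowGraph G k).Preconnected) : (groupFlowGraph G (ZMod k)).Preconnected := by
  have : NeZero k := ⟨by omega⟩
  have hlift : ∀ f : GroupFlow G (ZMod k), ∃ g : IntFlow G k, reduce G k g = f := by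
    intro f
    obtain ⟨p, hp, hpf⟩ := lift_group G f.2.1
    obtain ⟨r, hr, hrd, hrs⟩ := small_lift hk _ p hp rfl
    have hrf : ∀ e, (r e : ZMod k) = f.1 e := by
      intro e
      rw [← hpf e]
      exact ((ZMod.intCast_eq_intCast_iff_dvd_sub _ _ _).2 (hrd e)).symm
    refine ⟨⟨r, hr, fun e he => f.2.2 e ?_, hrs⟩, ?_⟩
    · rw [← hrf e, he]; simp
    · apply Subtype.ext
      funext e
      exact hrf e
  intro f f'
  obtain ⟨g, rfl⟩ := hlift f
  obtain ⟨g', rfl⟩ := hlift f'
  obtain ⟨w⟩ := h g g'
  induction w with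
  | nil => exact SimpleGraph.Reachable.refl _
  | cons hadj _ ih =>
    rcases reduce_adj _ _ hadj with h1 | h1
    · rw [h1]; exact ih
    · exact h1.reachable.trans ih

/-! ### The main argument -/

/-- Getting rid of the multiples of `d`. -/
lemma clear_multiples (G : Multigraph V E) {R : Finset E} (hR : CutFree G R)
    (hser : ∀ e, e ∉ R → ∃ e' ∈ R, e ≠ e' ∧ Ser G e e') {k d d' : ℕ} (hk : k = d' * d)
    (hd : 15 ≤ d) (hd' : 47 ≤ d') : ∀ (n : ℕ) (p : E → ℤ), IsFlow G p →
    (∀ e, ¬ (k : ℤ) ∣ p e) → (R.filter fun e => (d : ℤ) ∣ p e).card = n →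
    ∃ q : E → ℤ, IsFlow G q ∧ Conn G k p q ∧ ∀ e, ¬ (d : ℤ) ∣ q e := by
  classical
  have hdk : (d : ℤ) ∣ k := ⟨d', by rw [hk]; push_cast; ring⟩
  have hkd : (k : ℤ) = d' * d := by rw [hk]; push_cast; ring
  have hk2 : 2 ≤ k := by rw [hk]; nlinarith
  intro n
  induction n using Nat.strong_induction_on with
  | _ n ih =>
    intro p hp hpk hn
    rcases Nat.eq_zero_or_pos n with hn0 | hnpos
    · rw [hn0, card_eq_zero, filter_eq_empty_iff] at hn
      refine ⟨p, hp, Conn.of_dvd (fun e => by simp), fun e h => ?_⟩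
      by_cases he : e ∈ R
      · exact hn he h
      · obtain ⟨e', he', hne, hs⟩ := hser e he
        apply hn he'
        rcases hs.flow_eq hne hp with h1 | h1
        · rw [h1] at h; exact h
        · rw [h1, dvd_neg] at h; exact h
    · -- phase A
      set N := univ.filter fun e => (d : ℤ) ∣ p e with hN
      have hNR : (N ∩ R).card = n := by
        rw [← hn]
        congr 1
        ext e
        simp only [hN, mem_inter, mem_filter, mem_univ, true_and]
        tauto
      have hrkN : rk G N ≤ (N ∩ R).card := by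
        apply rk_le_of_series
        intro e he heR
        obtain ⟨e', he', hne, hs⟩ := hser e heR
        refine ⟨e', ?_, he', hne, hs⟩
        rw [hN, mem_filter] at he ⊢
        refine ⟨mem_univ _, ?_⟩
        rcases hs.flow_eq hne hp with h1 | h1
        · rw [h1] at he; exact he.2
        · rw [h1, dvd_neg] at he; exact he.2
      have hbr : ∀ w, w ∉ N → ∃ χ : E → ℤ, Good G χ ∧ χ w ≠ 0 ∧ ∀ x ∈ N, χ x = 0 := by
        intro w hw
        rcases cycle_or_cut_undirected (G := G) (fun x => x ∉ N) w with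
          ⟨χ, h1, h2, h3⟩ | ⟨S, h1, h2⟩
        · refine ⟨χ, h1, h2, fun x hx => ?_⟩
          by_contra h
          rcases h3 x h with h4 | h4
          · rw [h4] at hx; exact hw hx
          · exact h4 hx
        · exfalso
          have h3 := flow_cut G hp S
          rw [← add_sum_erase univ _ (mem_univ w)] at h3
          have h4 : (d : ℤ) ∣ ∑ x ∈ univ.erase w, cut G S x • p x := by
            apply dvd_sum
            intro x hx
            by_cases hxN : x ∈ N
            · rw [hN, mem_filter] at hxN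
              rw [smul_eq_mul]
              exact Dvd.dvd.mul_left hxN.2 _
            · rw [h2 x hxN (mem_erase.1 hx).1, zero_smul]
              exact dvd_zero _
          apply hw
          rw [hN, mem_filter]
          refine ⟨mem_univ _, ?_⟩
          have h5 : (d : ℤ) ∣ cut G S w • p w := by
            have h6 := dvd_neg.2 h4
            have h7 : cut G S w • p w = - ∑ x ∈ univ.erase w, cut G S x • p x := by
              linear_combination h3
            rw [h7]; exact h6
          have hval : cut G S w = 0 ∨ cut G S w = 1 ∨ cut G S w = -1 := by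
            unfold cut
            split_ifs <;> simp
          rcases hval with h | h | h
          · exact absurd h h1
          · rw [h, one_smul] at h5; exact h5
          · rw [h, neg_smul, one_smul, dvd_neg] at h5; exact h5
      let win : ℤ → Prop := fun v => ∃ j : ℤ, |j| ≤ 7 ∧ (k : ℤ) ∣ v - j
      have hwin_neg : ∀ v, win (-v) → win v := by
        rintro v ⟨j, h1, h2⟩
        refine ⟨-j, by rwa [abs_neg], ?_⟩
        have h3 := dvd_neg.2 h2
        have h4 : -(-v - j) = v - -j := by ring
        rwa [h4] at h3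
      have hs : ∀ e, ∃ s : ℤ, ∀ y : ℤ, |y| < 24 → win (p e + d * y) → y = s := by
        intro e
        by_cases h : ∃ y : ℤ, |y| < 24 ∧ win (p e + d * y)
        · obtain ⟨y₀, h1, j₀, h2, h3⟩ := h
          refine ⟨y₀, fun y h4 h5 => ?_⟩
          obtain ⟨j, h6, h7⟩ := h5
          have h8 := dvd_sub h7 h3
          have h9 : p e + d * y - j - (p e + d * y₀ - j₀) = d * (y - y₀) - (j - j₀) := by ring
          rw [h9] at h8
          have h10 : (d : ℤ) ∣ j - j₀ := by
            have h11 := dvd_sub (Dvd.intro (y - y₀) rfl : (d : ℤ) ∣ d * (y - y₀)) (hdk.trans h8)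
            have h12 : (d : ℤ) * (y - y₀) - (d * (y - y₀) - (j - j₀)) = j - j₀ := by ring
            rwa [h12] at h11
          have h11 : j - j₀ = 0 := by
            apply Int.eq_zero_of_abs_lt_dvd h10
            have h13 := abs_le.1 h2
            have h14 := abs_le.1 h6
            rw [abs_lt]; constructor <;> omega
          rw [h11, sub_zero, hkd, mul_comm (d : ℤ) (y - y₀)] at h8
          have h12 : (d' : ℤ) ∣ y - y₀ := Int.dvd_of_mul_dvd_mul_right (by omega) h8
          have h13 : y - y₀ = 0 := by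
            apply Int.eq_zero_of_abs_lt_dvd h12
            have h15 := abs_lt.1 h1
            have h14 := abs_lt.1 h4
            rw [abs_lt]; constructor <;> omega
          omega
        · push Not at h
          exact ⟨0, fun y h1 h2 => absurd h2 (h y h1)⟩
      choose s hs using hs
      obtain ⟨ψ, hψ, hψs, hψN, hψc⟩ := avoid_avg G hR hrkN hbr s
      set q₁ : E → ℤ := fun e => p e + d * ψ e with hq₁
      have hq₁flow : IsFlow G q₁ := IsFlow.add G hp (hψ.zmul G (d : ℤ))
      have hconn₁ : Conn G k p q₁ := by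
        refine Conn.div (q := d') (by omega) (by omega) hk _ p ψ hψ rfl (fun e he h => ?_)
        apply he
        apply hψN
        rw [hN, mem_filter]
        exact ⟨mem_univ _, h⟩
      have hq₁k : ∀ e, ¬ (k : ℤ) ∣ q₁ e := by
        intro e h
        by_cases he : e ∈ N
        · apply hpk e
          rw [hq₁] at h
          simp only [hψN e he, mul_zero, add_zero] at h
          exact h
        · apply he
          rw [hN, mem_filter]
          refine ⟨mem_univ _, ?_⟩
          have h1 := dvd_sub (hdk.trans h) (Dvd.intro (ψ e) rfl : (d : ℤ) ∣ d * ψ e)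
          have h2 : q₁ e - d * ψ e = p e := by rw [hq₁]; ring
          rwa [h2] at h1
      have hwin_d : ∀ v : ℤ, ¬ (k : ℤ) ∣ v → win v → ¬ (d : ℤ) ∣ v := by
        rintro v hv ⟨j, h1, h2⟩ h3
        have h4 := dvd_sub h3 (hdk.trans h2)
        have h5 : v - (v - j) = j := by ring
        rw [h5] at h4
        have h6 : j = 0 := by
          apply Int.eq_zero_of_abs_lt_dvd h4
          omega
        rw [h6, sub_zero] at h2
        exact hv h2
      set Z := univ.filter fun e => win (q₁ e) with hZ
      have hZR : 5 * (Z ∩ R).card ≤ 2 * n := by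
        rw [← hNR]
        refine le_trans (Nat.mul_le_mul_left 5 (card_le_card ?_)) hψc
        intro e he
        rw [mem_inter, hZ, mem_filter] at he
        rw [mem_filter]
        have heN : e ∉ N := by
          intro heN
          have h1 := hwin_d _ (hq₁k e) he.1.2
          apply h1
          rw [hq₁]
          simp only [hψN e heN, mul_zero, add_zero]
          rw [hN, mem_filter] at heN
          exact heN.2
        refine ⟨he.2, heN, ?_⟩
        rw [hs e (ψ e) (hψs e) he.1.2, sub_self]
        exact dvd_zero _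
      have hrkZ : rk G Z ≤ (Z ∩ R).card := by
        apply rk_le_of_series
        intro e he heR
        obtain ⟨e', he', hne, hse⟩ := hser e heR
        refine ⟨e', ?_, he', hne, hse⟩
        rw [hZ, mem_filter] at he ⊢
        refine ⟨mem_univ _, ?_⟩
        rcases hse.flow_eq hne hq₁flow with h1 | h1
        · rw [h1] at he; exact he.2
        · rw [h1] at he; exact hwin_neg _ he.2
      -- phase B
      have ht : ∀ e, ∃ t : ℤ, ∀ y : ℤ, |y| < 8 → (d : ℤ) ∣ q₁ e + y → y = t := by
        intro e
        by_cases h : ∃ y : ℤ, |y| < 8 ∧ (d : ℤ) ∣ q₁ e + y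
        · obtain ⟨y₀, h1, h2⟩ := h
          refine ⟨y₀, fun y h3 h4 => ?_⟩
          have h5 := dvd_sub h4 h2
          have h6 : q₁ e + y - (q₁ e + y₀) = y - y₀ := by ring
          rw [h6] at h5
          have h7 : y - y₀ = 0 := by
            apply Int.eq_zero_of_abs_lt_dvd h5
            have h15 := abs_lt.1 h1
            have h14 := abs_lt.1 h3
            rw [abs_lt]; constructor <;> omega
          omega
        · push Not at h
          exact ⟨0, fun y h1 h2 => absurd h2 (h y h1)⟩
      choose t ht using ht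
      obtain ⟨φ, hφ, hφs, hφZ, hφc⟩ := avoid_two G hR hrkZ t
      set q₂ : E → ℤ := fun e => q₁ e + φ e with hq₂
      have hq₂flow : IsFlow G q₂ := IsFlow.add G hq₁flow hφ
      have hclear : ∀ e (j : ℤ), ((0 ≤ j ∧ j ≤ φ e) ∨ (φ e ≤ j ∧ j ≤ 0)) →
          ¬ (k : ℤ) ∣ q₁ e + j := by
        intro e j hj h
        by_cases he : e ∈ Z
        · have h1 := hφZ e he
          have h2 : j = 0 := by omega
          rw [h2, add_zero] at h
          exact hq₁k e h
        · apply he
          rw [hZ, mem_filter]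
          refine ⟨mem_univ _, -j, ?_, ?_⟩
          · have h1 := abs_lt.1 (hφs e)
            rw [abs_neg, abs_le]; constructor <;> omega
          · rwa [sub_neg_eq_add]
      have hconn₂ : Conn G k q₁ q₂ := Conn.small hk2 _ q₁ φ hφ rfl hclear
      have hq₂k : ∀ e, ¬ (k : ℤ) ∣ q₂ e := by
        intro e
        apply hclear e
        rcases le_total 0 (φ e) with h | h
        · left; exact ⟨h, le_refl _⟩
        · right; exact ⟨le_refl _, h⟩
      have hcard : (R.filter fun e => (d : ℤ) ∣ q₂ e).card ≤ 2 * (Z ∩ R).card := by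
        refine (card_le_card ?_).trans hφc
        intro e he
        rw [mem_filter] at he ⊢
        have heZ : e ∉ Z := by
          intro heZ
          have h1 : win (q₁ e) := by
            rw [hZ, mem_filter] at heZ
            exact heZ.2
          apply hwin_d _ (hq₁k e) h1
          have h2 := he.2
          rw [hq₂] at h2
          simp only [hφZ e heZ, add_zero] at h2
          exact h2
        refine ⟨he.1, heZ, ?_⟩
        rw [ht e (φ e) (hφs e) he.2, sub_self]
        exact dvd_zero _
      obtain ⟨q, h1, h2, h3⟩ := ih _ (by omega) q₂ hq₂flow hq₂k rfl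
      exact ⟨q, h1, (hconn₁.trans hconn₂).trans h2, h3⟩

/-- Two residue flows without multiples of `d` are connected. -/
lemma conn_of_no_multiples (G : Multigraph V E) {R : Finset E} (hR : CutFree G R)
    (hser : ∀ e, e ∉ R → ∃ e' ∈ R, e ≠ e' ∧ Ser G e e') {k d d' : ℕ} (hk : k = d' * d)
    (hd : 2 ≤ d) (hd' : 53 ≤ d') {p h : E → ℤ} (hp : IsFlow G p) (hh : IsFlow G h)
    (hpd : ∀ e, ¬ (d : ℤ) ∣ p e) (hhd : ∀ e, ¬ (d : ℤ) ∣ h e) : Conn G k p h := by
  classical
  have hdk : (d : ℤ) ∣ k := ⟨d', by rw [hk]; push_cast; ring⟩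
  have hkd : (k : ℤ) = d' * d := by rw [hk]; push_cast; ring
  have hk2 : 2 ≤ k := by rw [hk]; nlinarith
  have huniq : ∀ a : ℤ, ∃ s : ℤ, ∀ y : ℤ, |y| < 27 → (d' : ℤ) ∣ a + y → y = s := by
    intro a
    by_cases h : ∃ y : ℤ, |y| < 27 ∧ (d' : ℤ) ∣ a + y
    · obtain ⟨y₀, h1, h2⟩ := h
      refine ⟨y₀, fun y h3 h4 => ?_⟩
      have h5 := dvd_sub h4 h2
      have h6 : a + y - (a + y₀) = y - y₀ := by ring
      rw [h6] at h5
      have h7 : y - y₀ = 0 := by
        apply Int.eq_zero_of_abs_lt_dvd h5
        have h15 := abs_lt.1 h1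
        have h14 := abs_lt.1 h3
        rw [abs_lt]; constructor <;> omega
      omega
    · push Not at h
      exact ⟨0, fun y h1 h2 => absurd h2 (h y h1)⟩
  choose σ hσ using huniq
  obtain ⟨ψ, hψ, hψs, hψR⟩ := avoid_three G hR (fun e => σ (p e / d)) (fun e => σ (p e / d + 1))
  set q₁ : E → ℤ := fun e => p e + d * ψ e with hq₁
  have hq₁flow : IsFlow G q₁ := IsFlow.add G hp (hψ.zmul G (d : ℤ))
  have hconn₁ : Conn G k p q₁ :=
    Conn.div (q := d') (by omega) (by omega) hk _ p ψ hψ rfl (fun e _ => hpd e)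
  have hfatR : ∀ e ∈ R, ∀ j : ℤ, |j| < d → ¬ (k : ℤ) ∣ q₁ e - j := by
    intro e he j hj hdvd
    have h1 := hψR e he
    have hd0 : (0 : ℤ) < d := by omega
    set ρ := p e % d with hρ
    have hρ1 : 0 ≤ ρ := Int.emod_nonneg _ hd0.ne'
    have hρ2 : ρ < d := Int.emod_lt_of_pos _ hd0
    have hρ3 : p e = ρ + d * (p e / d) := (Int.emod_add_mul_ediv (p e) d).symm
    have h2 : (d : ℤ) ∣ ρ - j := by
      have h3 := hdk.trans hdvd
      have h4 := dvd_sub h3 (Dvd.intro (p e / d + ψ e) rfl : (d : ℤ) ∣ d * (p e / d + ψ e))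
      have h5 : q₁ e - j - d * (p e / d + ψ e) = ρ - j := by
        rw [hq₁]; linear_combination hρ3
      rwa [h5] at h4
    have hj' := abs_lt.1 hj
    obtain ⟨u, hu⟩ := h2
    have hu0 : u = 0 ∨ u = 1 := by
      have h3 : u < 2 := by
        by_contra h
        have : (d : ℤ) * 2 ≤ d * u := mul_le_mul_of_nonneg_left (not_lt.1 h) hd0.le
        omega
      have h4 : -1 < u := by
        by_contra h
        have : (d : ℤ) * u ≤ d * (-1) := mul_le_mul_of_nonneg_left (not_lt.1 h) hd0.le
        omega
      omega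
    have h6 : q₁ e - j = (p e / d + ψ e + u) * d := by
      rw [hq₁]; linear_combination hρ3 + hu
    rw [h6, hkd] at hdvd
    have h7 : (d' : ℤ) ∣ p e / d + ψ e + u := Int.dvd_of_mul_dvd_mul_right (by omega) hdvd
    rcases hu0 with h8 | h8
    · rw [h8, add_zero] at h7
      have h9 := hσ (p e / d) (ψ e) (hψs e) h7
      apply h1.1
      rw [h9, sub_self]; exact dvd_zero _
    · rw [h8] at h7
      have h9 := hσ (p e / d + 1) (ψ e) (hψs e) (by
        have h10 : p e / d + 1 + ψ e = p e / d + ψ e + 1 := by ring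
        rwa [h10])
      apply h1.2
      rw [h9, sub_self]; exact dvd_zero _
  have hfat : ∀ e, ∀ j : ℤ, |j| < d → ¬ (k : ℤ) ∣ q₁ e - j := by
    intro e j hj hdvd
    by_cases he : e ∈ R
    · exact hfatR e he j hj hdvd
    · obtain ⟨e', he', hne, hs⟩ := hser e he
      rcases hs.flow_eq hne hq₁flow with h1 | h1
      · rw [h1] at hdvd
        exact hfatR e' he' j hj hdvd
      · rw [h1] at hdvd
        apply hfatR e' he' (-j) (by rwa [abs_neg])
        have h2 := dvd_neg.2 hdvd
        have h3 : -(-q₁ e' - j) = q₁ e' - -j := by ring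
        rwa [h3] at h2
  obtain ⟨φ, hφ, hφd, hφs⟩ := small_lift (m := d) (by omega) _ (fun e => h e - q₁ e)
    (IsFlow.sub G hh hq₁flow) rfl
  set q₂ : E → ℤ := fun e => q₁ e + φ e with hq₂
  have hq₂flow : IsFlow G q₂ := IsFlow.add G hq₁flow hφ
  have hconn₂ : Conn G k q₁ q₂ := by
    refine Conn.small hk2 _ q₁ φ hφ rfl (fun e j hj hdvd => ?_)
    apply hfat e (-j)
    · have h1 := abs_lt.1 (hφs e)
      rw [abs_neg, abs_lt]; constructor <;> omega
    · rwa [sub_neg_eq_add]
  have hq₂h : ∀ e, (d : ℤ) ∣ h e - q₂ e := by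
    intro e
    have h1 := dvd_neg.2 (hφd e)
    have h2 : -(φ e - (h e - q₁ e)) = h e - q₂ e := by rw [hq₂]; ring
    rwa [h2] at h1
  choose θ hθ using hq₂h
  have hθflow : IsFlow G θ := by
    intro v
    have h1 : ∑ e with G.src e = v, (d : ℤ) * θ e = ∑ e with G.tgt e = v, (d : ℤ) * θ e := by
      have := (IsFlow.sub G hh hq₂flow) v
      simp only [hθ] at this
      exact this
    rw [← mul_sum, ← mul_sum] at h1
    exact mul_left_cancel₀ (by positivity) h1
  have hconn₃ : Conn G k q₂ (fun e => q₂ e + d * θ e) := by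
    refine Conn.div (q := d') (by omega) (by omega) hk _ q₂ θ hθflow rfl (fun e _ hdvd => ?_)
    apply hhd e
    have h1 := dvd_add (Dvd.intro (θ e) rfl : (d : ℤ) ∣ d * θ e) hdvd
    have h2 : (d : ℤ) * θ e + q₂ e = h e := by rw [← hθ e]; ring
    rwa [h2] at h1
  have h4 : (fun e => q₂ e + d * θ e) = h := by
    funext e
    rw [← hθ e]; ring
  rw [h4] at hconn₃
  exact (hconn₁.trans hconn₂).trans hconn₃

omit [DecidableEq E] in
/-- **Main theorem.** -/
theorem preconnected_of_mul (G : Multigraph V E) {k d d' : ℕ} (hk : k = d' * d)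
    (hd : 15 ≤ d) (hd' : 53 ≤ d') : (intFlowGraph G k).Preconnected := by
  classical
  have hk2 : 2 ≤ k := by rw [hk]; nlinarith
  intro g g'
  have hno : ∀ (S : Finset V) (e : E), cut G S e ≠ 0 → ∃ e', e' ≠ e ∧ cut G S e' ≠ 0 := by
    intro S e he
    by_contra hcon
    push Not at hcon
    have h1 := flow_cut G g.2.1 S
    rw [sum_eq_single e] at h1
    · rw [smul_eq_mul] at h1
      rcases mul_eq_zero.1 h1 with h | h
      · exact he h
      · exact g.2.2.1 e h
    · intro x _ hx
      rw [hcon x hx, zero_smul]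
    · intro h; exact absurd (mem_univ e) h
  obtain ⟨R, hR, hser⟩ := exists_cutFree G hno
  have hkz : ∀ (g : IntFlow G k) e, ¬ (k : ℤ) ∣ g.1 e := fun g e h =>
    g.2.2.1 e (Int.eq_zero_of_abs_lt_dvd h (g.2.2.2 e))
  obtain ⟨q, hq1, hq2, hq3⟩ := clear_multiples G hR hser hk hd (by omega) _ g.1 g.2.1 (hkz g) rfl
  obtain ⟨q', hq1', hq2', hq3'⟩ :=
    clear_multiples G hR hser hk hd (by omega) _ g'.1 g'.2.1 (hkz g') rfl
  have hqq := conn_of_no_multiples G hR hser hk (by omega) hd' hq1 hq1' hq3 hq3'
  obtain ⟨g₁, h1, h2⟩ := (hq2.trans hqq) g (fun e => by simp)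
  obtain ⟨g₂, h3, h4⟩ := hq2' g' (fun e => by simp)
  have h5 : (intFlowGraph G k).Reachable g₁ g₂ := by
    refine fibre_reachable _ g₁ g₂ (fun e => ?_) rfl
    have h6 := dvd_sub (h3 e) (h1 e)
    have h7 : g₂.1 e - q' e - (g₁.1 e - q' e) = g₂.1 e - g₁.1 e := by ring
    rwa [h7] at h6
  exact (h2.trans h5).trans h4.symm

end Pool.Agent.FlowRec
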