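import Pool.Agent.FlowRec.Basic

/-!
# Steps by a divisor of the modulus (MP_3da9df_co)

If `k = q * c`, a step `t * c` along a cycle none of whose flow values is divisible by `c` can be
replaced by a path which lifts to `F(G, k)`.
-/

namespace Pool.Agent.FlowRec

open Finset

variable {V E : Type} [Fintype V] [DecidableEq V] [Fintype E] {G : Multigraph V E}

/-- A flow which does not vanish on `e₀` has a conformal oriented cycle through `e₀`. -/
lemma flow_cycle {z : E → ℤ} (hz : IsFlow G z) {e₀ : E} (h0 : z e₀ ≠ 0) :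
    ∃ χ : E → ℤ, Good G χ ∧ χ e₀ ≠ 0 ∧ ∀ e, χ e ≠ 0 → 0 < χ e * z e := by
  rcases cycle_or_cut (G := G) z (fun _ => True) e₀ h0 with ⟨χ, h1, h2, h3⟩ | ⟨S, hS, hS'⟩
  · exact ⟨χ, h1, h2, fun e he => (h3 e he).1⟩
  · exfalso
    have h1 := flow_cut G hz S
    have h2 : ∑ e, cut G S e • z e < 0 := by
      have : ∑ e, cut G S e • z e < ∑ e : E, (0 : ℤ) := by
        apply sum_lt_sum
        · intro e _
          have := hS' e trivial
          simp only [smul_eq_mul]
          omega
        · exact ⟨e₀, mem_univ _, by simpa using hS⟩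
      simpa using this
    omega

/-- Every integer flow is a sum of conformal oriented cycles. -/
lemma flow_decomp : ∀ (n : ℕ) (z : E → ℤ), IsFlow G z → (∑ e, (z e).natAbs) = n →
    ∃ L : List (E → ℤ), (∀ χ ∈ L, Good G χ ∧ ∀ e, χ e ≠ 0 → 0 < χ e * z e) ∧
      ∀ e, (L.map (fun χ => χ e)).sum = z e := by
  intro n
  induction n using Nat.strong_induction_on with
  | _ n ih =>
    intro z hz hn
    by_cases hall : ∀ e, z e = 0
    · exact ⟨[], by simp, by simp [hall]⟩
    · push Not at hall
      obtain ⟨e₀, he₀⟩ := hall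
      obtain ⟨χ, hχ, hχ0, hconf⟩ := flow_cycle hz he₀
      have hval : ∀ e, χ e = 0 ∨ (χ e = 1 ∧ 0 < z e) ∨ (χ e = -1 ∧ z e < 0) := by
        intro e
        by_cases h : χ e = 0
        · left; exact h
        · right
          have h1 := hconf e h
          rcases hχ.val e with h2 | h2 | h2
          · exact absurd h2 h
          · left; rw [h2] at h1; exact ⟨h2, by omega⟩
          · right; rw [h2] at h1; exact ⟨h2, by omega⟩
      have hlt : (∑ e, (z e - χ e).natAbs) < n := by
        rw [← hn]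
        apply sum_lt_sum
        · intro e _
          rcases hval e with h | ⟨h, h'⟩ | ⟨h, h'⟩ <;> omega
        · refine ⟨e₀, mem_univ _, ?_⟩
          rcases hval e₀ with h | ⟨h, h'⟩ | ⟨h, h'⟩
          · exact absurd h hχ0
          · omega
          · omega
      obtain ⟨L, hL, hLs⟩ := ih _ hlt (fun e => z e - χ e) (IsFlow.sub G hz hχ.flow) rfl
      refine ⟨χ :: L, ?_, ?_⟩
      · intro ψ hψ
        rw [List.mem_cons] at hψ
        rcases hψ with h | h
        · rw [h]; exact ⟨hχ, hconf⟩
        · obtain ⟨h1, h2⟩ := hL ψ h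
          refine ⟨h1, fun e he => ?_⟩
          have h3 := h2 e he
          rcases h1.val e with h4 | h4 | h4
          · exact absurd h4 he
          · rw [h4] at h3 ⊢
            rcases hval e with h | ⟨h, h'⟩ | ⟨h, h'⟩ <;> omega
          · rw [h4] at h3 ⊢
            rcases hval e with h | ⟨h, h'⟩ | ⟨h, h'⟩ <;> omega
      · intro e
        rw [List.map_cons, List.sum_cons, hLs e]
        ring

/-- Every integer flow is congruent modulo `m` to a flow with values in `(-m, m)`. -/
lemma small_lift {m : ℕ} (hm : 1 ≤ m) : ∀ (n : ℕ) (p : E → ℤ), IsFlow G p →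
    (∑ e, (p e).natAbs / m) = n →
    ∃ r : E → ℤ, IsFlow G r ∧ (∀ e, (m : ℤ) ∣ r e - p e) ∧ ∀ e, |r e| < m := by
  intro n
  induction n using Nat.strong_induction_on with
  | _ n ih =>
    intro p hp hn
    by_cases hall : ∀ e, |p e| < m
    · exact ⟨p, hp, by simp, hall⟩
    · push Not at hall
      obtain ⟨e₀, he₀⟩ := hall
      have hp0 : p e₀ ≠ 0 := by
        intro h; rw [h] at he₀; simp at he₀; omega
      obtain ⟨χ, hχ, hχ0, hconf⟩ := flow_cycle hp hp0
      have hval : ∀ e, χ e = 0 ∨ (χ e = 1 ∧ 0 < p e) ∨ (χ e = -1 ∧ p e < 0) := by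
        intro e
        by_cases h : χ e = 0
        · left; exact h
        · right
          have h1 := hconf e h
          rcases hχ.val e with h2 | h2 | h2
          · exact absurd h2 h
          · left; rw [h2] at h1; exact ⟨h2, by omega⟩
          · right; rw [h2] at h1; exact ⟨h2, by omega⟩
      have key : ∀ e, (p e - m * χ e).natAbs / m ≤ (p e).natAbs / m ∧
          (m ≤ (p e).natAbs → χ e ≠ 0 → (p e - m * χ e).natAbs / m < (p e).natAbs / m) := by
        intro e
        by_cases h : χ e = 0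
        · rw [h, mul_zero, sub_zero]
          exact ⟨le_refl _, fun _ h2 => absurd rfl h2⟩
        · by_cases hb : m ≤ (p e).natAbs
          · have h1 : (p e - m * χ e).natAbs = (p e).natAbs - m := by
              rcases hval e with h' | ⟨h', h''⟩ | ⟨h', h''⟩
              · exact absurd h' h
              · rw [h']; omega
              · rw [h']; omega
            have h2 : (p e).natAbs / m = ((p e).natAbs - m) / m + 1 := by
              rw [Nat.div_eq_sub_div (by omega) hb]
            rw [h1, h2]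
            exact ⟨by omega, fun _ _ => by omega⟩
          · have h1 : (p e - m * χ e).natAbs < m := by
              rcases hval e with h' | ⟨h', h''⟩ | ⟨h', h''⟩
              · exact absurd h' h
              · rw [h']; omega
              · rw [h']; omega
            rw [Nat.div_eq_of_lt h1]
            exact ⟨Nat.zero_le _, fun h3 => absurd h3 hb⟩
      have hlt : (∑ e, (p e - m * χ e).natAbs / m) < n := by
        rw [← hn]
        apply sum_lt_sum
        · intro e _
          exact (key e).1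
        · refine ⟨e₀, mem_univ _, (key e₀).2 ?_ hχ0⟩
          have := Int.natCast_natAbs (p e₀)
          omega
      obtain ⟨r, hr, hrd, hrm⟩ := ih _ hlt (fun e => p e - m * χ e)
        (IsFlow.sub G hp (hχ.flow.zmul G (m : ℤ))) rfl
      refine ⟨r, hr, fun e => ?_, hrm⟩
      obtain ⟨y, hy⟩ := hrd e
      exact ⟨y - χ e, by linear_combination hy⟩

/-- One step along an `r`-directed cycle lifts. -/
lemma divisor_step {k q c : ℕ} (hq : 1 ≤ q) (hk : k = q * c) {r : E → ℤ}
    (hr : IsFlow G r) (hrc : ∀ e, |r e| < c) {p : E → ℤ} (hp : IsFlow G p)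
    (hpr : ∀ e, (c : ℤ) ∣ p e - r e) (hpk : ∀ e, ¬ (k : ℤ) ∣ p e) {χ : E → ℤ} (hχ : Good G χ)
    (hconf : ∀ e, χ e ≠ 0 → 0 < χ e * r e) :
    ∃ g₁ g₂ : IntFlow G k, (∀ e, (k : ℤ) ∣ g₁.1 e - p e) ∧
      (∀ e, (k : ℤ) ∣ g₂.1 e - (p e - c * χ e)) ∧ (intFlowGraph G k).Adj g₁ g₂ := by
  have hc : 1 ≤ c ∨ IsEmpty E := by
    by_cases h : IsEmpty E
    · right; exact h
    · left
      rw [not_isEmpty_iff] at h
      obtain ⟨e⟩ := h
      have := hrc e
      have := abs_nonneg (r e)
      omega
  have hc' : 1 ≤ c := by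
    rcases hc with h | h
    · exact h
    · exfalso
      obtain ⟨n, v, e, -⟩ := hχ.cyc
      exact h.elim (e 0)
  choose s hs using hpr
  have hsflow : IsFlow G s := by
    intro v
    have h1 : ∑ e with G.src e = v, (c : ℤ) * s e = ∑ e with G.tgt e = v, (c : ℤ) * s e := by
      have := (IsFlow.sub G hp hr) v
      simp only [hs] at this
      exact this
    rw [← mul_sum, ← mul_sum] at h1
    exact mul_left_cancel₀ (by positivity) h1
  obtain ⟨κ, hκ, hκd, hκq⟩ := small_lift hq _ s hsflow rfl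
  have hkc : (k : ℤ) = q * c := by rw [hk]; push_cast; ring
  have hcong : ∀ e, (k : ℤ) ∣ (r e + c * κ e) - p e := by
    intro e
    obtain ⟨y, hy⟩ := hκd e
    refine ⟨y, ?_⟩
    rw [hkc]
    linear_combination (c : ℤ) * hy - hs e
  have hnc : ∀ e, χ e ≠ 0 → ¬ (c : ℤ) ∣ r e := by
    intro e he h
    have h1 := Int.eq_zero_of_abs_lt_dvd h (hrc e)
    have h2 := hconf e he
    rw [h1, mul_zero] at h2
    exact lt_irrefl _ h2
  have hc0 : (0 : ℤ) < c := by exact_mod_cast hc'
  have hval1 : ∀ e, r e + c * κ e ≠ 0 ∧ |r e + c * κ e| < k := by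
    intro e
    refine ⟨?_, ?_⟩
    · intro h
      have h1 := hcong e
      rw [h, zero_sub, dvd_neg] at h1
      exact hpk e h1
    · have h1 := abs_lt.1 (hrc e)
      have h2 := abs_lt.1 (hκq e)
      have h3 : κ e ≤ q - 1 := by omega
      have h4 : -(q - 1) ≤ κ e := by omega
      have h5 : (c : ℤ) * κ e ≤ c * (q - 1) := mul_le_mul_of_nonneg_left h3 hc0.le
      have h6 : (c : ℤ) * (-(q - 1)) ≤ c * κ e := mul_le_mul_of_nonneg_left h4 hc0.le
      rw [hkc, abs_lt]
      constructor <;> nlinarith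
  have hval2 : ∀ e, (r e + c * κ e) - c * χ e ≠ 0 ∧ |(r e + c * κ e) - c * χ e| < k := by
    intro e
    by_cases hχe : χ e = 0
    · rw [hχe, mul_zero, sub_zero]; exact hval1 e
    · refine ⟨?_, ?_⟩
      · intro h
        apply hnc e hχe
        exact ⟨χ e - κ e, by linear_combination h⟩
      · have h1 := abs_lt.1 (hrc e)
        have h2 := abs_lt.1 (hκq e)
        have h3 : κ e ≤ q - 1 := by omega
        have h4 : -(q - 1) ≤ κ e := by omega
        have h5 : (c : ℤ) * κ e ≤ c * (q - 1) := mul_le_mul_of_nonneg_left h3 hc0.le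
        have h6 : (c : ℤ) * (-(q - 1)) ≤ c * κ e := mul_le_mul_of_nonneg_left h4 hc0.le
        have h7 := hconf e hχe
        rw [hkc, abs_lt]
        rcases hχ.val e with b | b | b
        · exact absurd b hχe
        · rw [b] at h7 ⊢
          constructor <;> nlinarith
        · rw [b] at h7 ⊢
          constructor <;> nlinarith
  refine ⟨⟨fun e => r e + c * κ e, IsFlow.add G hr (hκ.zmul G (c : ℤ)), fun e => (hval1 e).1,
    fun e => (hval1 e).2⟩, ⟨fun e => (r e + c * κ e) - c * χ e,
    IsFlow.sub G (IsFlow.add G hr (hκ.zmul G (c : ℤ))) (hχ.flow.zmul G (c : ℤ)),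
    fun e => (hval2 e).1, fun e => (hval2 e).2⟩, hcong, ?_, ?_⟩
  · intro e
    obtain ⟨y, hy⟩ := hcong e
    exact ⟨y, by linear_combination hy⟩
  · exact supp_isCycle_of_smul hχ (c := -(c : ℤ)) (by omega) (fun e => by ring)

/-- A sum of `r`-directed cycles can be walked through. -/
lemma divisor_path {k q c : ℕ} (hq : 1 ≤ q) (hk : k = q * c) {r : E → ℤ}
    (hr : IsFlow G r) (hrc : ∀ e, |r e| < c) : ∀ (L : List (E → ℤ)),
    (∀ χ ∈ L, Good G χ ∧ ∀ e, χ e ≠ 0 → 0 < χ e * r e) → ∀ (g : IntFlow G k) (p : E → ℤ),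
    IsFlow G p → (∀ e, (c : ℤ) ∣ p e - r e) → (∀ e, ¬ (k : ℤ) ∣ p e) →
    (∀ e, (k : ℤ) ∣ g.1 e - p e) →
    ∃ g' : IntFlow G k, (∀ e, (k : ℤ) ∣ g'.1 e - (p e - c * (L.map (fun χ => χ e)).sum)) ∧
      (intFlowGraph G k).Reachable g g' := by
  intro L
  induction L with
  | nil =>
    intro _ g p _ _ _ hg
    exact ⟨g, by simpa using hg, SimpleGraph.Reachable.refl _⟩
  | cons χ L ih =>
    intro hL g p hp hpr hpk hg
    obtain ⟨hχ, hconf⟩ := hL χ List.mem_cons_self
    obtain ⟨g₁, g₂, h1, h2, h3⟩ := divisor_step hq hk hr hrc hp hpr hpk hχ hconf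
    have hpk' : ∀ e, ¬ (k : ℤ) ∣ p e - c * χ e := by
      intro e h
      have h4 := dvd_add (h2 e) h
      have h5 : g₂.1 e - (p e - c * χ e) + (p e - c * χ e) = g₂.1 e := by ring
      rw [h5] at h4
      exact g₂.2.2.1 e (Int.eq_zero_of_abs_lt_dvd h4 (g₂.2.2.2 e))
    obtain ⟨g', h6, h7⟩ := ih (fun ψ hψ => hL ψ (List.mem_cons_of_mem _ hψ)) g₂
      (fun e => p e - c * χ e) (IsFlow.sub G hp (hχ.flow.zmul G (c : ℤ)))
      (fun e => by
        obtain ⟨y, hy⟩ := hpr e
        exact ⟨y - χ e, by linear_combination hy⟩) hpk' h2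
    refine ⟨g', fun e => ?_, ?_⟩
    · obtain ⟨y, hy⟩ := h6 e
      rw [List.map_cons, List.sum_cons]
      exact ⟨y, by linear_combination hy⟩
    · have h8 : (intFlowGraph G k).Reachable g g₁ := by
        refine fibre_reachable _ g g₁ ?_ rfl
        intro e
        have := dvd_sub (h1 e) (hg e)
        have h9 : g₁.1 e - p e - (g.1 e - p e) = g₁.1 e - g.1 e := by ring
        rwa [h9] at this
      exact (h8.trans h3.reachable).trans h7

/-- **Divisor bypass.** If `k = q * c` and no flow value along the cycle is divisible by `c`, then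
`t * c` can be added along the cycle (modulo `k`) inside a component of `F(G, k)`. -/
lemma divisor_bypass {k q c : ℕ} (hq : 1 ≤ q) (hc : 1 ≤ c) (hk : k = q * c) (g : IntFlow G k)
    {χ : E → ℤ} (hχ : Good G χ) (hnc : ∀ e, χ e ≠ 0 → ¬ (c : ℤ) ∣ g.1 e) (t : ℤ) :
    ∃ g' : IntFlow G k, (∀ e, (k : ℤ) ∣ g'.1 e - (g.1 e + t * c * χ e)) ∧
      (intFlowGraph G k).Reachable g g' := by
  obtain ⟨r, hr, hrd, hrc⟩ := small_lift hc _ g.1 g.2.1 rfl
  have hkc : (k : ℤ) = q * c := by rw [hk]; push_cast; ring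
  have hr0 : ∀ e, χ e ≠ 0 → r e ≠ 0 := by
    intro e he h
    apply hnc e he
    have := hrd e
    rw [h, zero_sub, dvd_neg] at this
    exact this
  set M : ℤ := q * (|t| + 1) with hM
  have hMt : |t| < M := by
    have h1 : (1 : ℤ) ≤ q := by exact_mod_cast hq
    have h2 := abs_nonneg t
    nlinarith
  have hzflow : IsFlow G (fun e => M * r e - t * χ e) :=
    IsFlow.sub G (hr.zmul G M) (hχ.flow.zmul G t)
  have hzr : ∀ e, r e ≠ 0 → 0 < (M * r e - t * χ e) * r e := by
    intro e he
    have h3 := neg_abs_le t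
    have h4 := le_abs_self t
    have h5 : (M * r e - t * χ e) * r e = M * (r e * r e) - t * χ e * r e := by ring
    rw [h5]
    have h6 : |r e| ≤ r e * r e := by
      rw [← abs_mul_abs_self (r e)]
      have := abs_pos.2 he
      nlinarith
    have h7 : t * χ e * r e ≤ |t| * |r e| := by
      calc t * χ e * r e ≤ |t * χ e * r e| := le_abs_self _
        _ = |t| * |χ e| * |r e| := by rw [abs_mul, abs_mul]
        _ ≤ |t| * 1 * |r e| := by
          apply mul_le_mul_of_nonneg_right _ (abs_nonneg _)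
          apply mul_le_mul_of_nonneg_left _ (abs_nonneg _)
          rcases hχ.val e with b | b | b <;> rw [b] <;> norm_num
        _ = |t| * |r e| := by ring
    have h8 := abs_pos.2 he
    nlinarith [abs_nonneg t]
  obtain ⟨L, hL, hLs⟩ := flow_decomp _ _ hzflow rfl
  obtain ⟨g', h1, h2⟩ := divisor_path hq hk hr hrc L (by
    intro ψ hψ
    obtain ⟨h1, h2⟩ := hL ψ hψ
    refine ⟨h1, fun e he => ?_⟩
    have h3 := h2 e he
    by_cases h4 : r e = 0
    · exfalso
      have h5 : χ e = 0 := by
        by_contra h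
        exact hr0 e h h4
      rw [h4, h5] at h3
      simp at h3
    · have h5 := hzr e h4
      by_contra hneg
      have h6 : ψ e * r e ≤ 0 := not_lt.1 hneg
      have h7 : 0 < (ψ e * (M * r e - t * χ e)) * ((M * r e - t * χ e) * r e) := mul_pos h3 h5
      have h8 : (ψ e * (M * r e - t * χ e)) * ((M * r e - t * χ e) * r e)
          = (ψ e * r e) * ((M * r e - t * χ e) * (M * r e - t * χ e)) := by ring
      rw [h8] at h7
      have h9 := mul_self_nonneg (M * r e - t * χ e)
      nlinarith) g g.1 g.2.1 (fun e => by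
        have := hrd e
        rw [← neg_sub, dvd_neg] at this
        exact this) (fun e h => g.2.2.1 e (Int.eq_zero_of_abs_lt_dvd h (g.2.2.2 e)))
      (fun e => by simp)
  refine ⟨g', fun e => ?_, h2⟩
  have h3 := h1 e
  rw [hLs e] at h3
  obtain ⟨y, hy⟩ := h3
  refine ⟨y - (|t| + 1) * r e, ?_⟩
  linear_combination hy + (|t| + 1) * r e * hkc - c * r e * hM

end Pool.Agent.FlowRec
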