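import Pool.Agent.FlowRec.Partition
import Pool.Agent.FlowRec.Divisor

/-!
# The cut matroid of a graph
-/

namespace Pool.Agent.FlowRec

open Finset Module

variable {V E : Type} [Fintype V] [DecidableEq V] [Fintype E] [DecidableEq E]

/-- functions supported in `X` -/
def suppIn (X : Finset E) : Submodule ℚ (E → ℚ) where
  carrier := {x | ∀ e, e ∉ X → x e = 0}
  zero_mem' := fun e _ => rfl
  add_mem' := fun {x y} hx hy e he => by
    simp only [Pi.add_apply, hx e he, hy e he, add_zero]
  smul_mem' := fun c x hx e he => by
    simp only [Pi.smul_apply, hx e he, smul_zero]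

/-- tensions (potential differences) supported in `X` -/
def tens (G : Multigraph V E) (X : Finset E) : Submodule ℚ (E → ℚ) where
  carrier := {x | (∃ π : V → ℚ, ∀ e, x e = π (G.src e) - π (G.tgt e)) ∧ ∀ e, e ∉ X → x e = 0}
  zero_mem' := ⟨⟨fun _ => 0, fun e => by simp⟩, fun e _ => rfl⟩
  add_mem' := fun {x y} hx hy => by
    obtain ⟨⟨π, hπ⟩, h1⟩ := hx
    obtain ⟨⟨τ, hτ⟩, h2⟩ := hy
    refine ⟨⟨fun v => π v + τ v, fun e => ?_⟩, fun e he => ?_⟩
    · simp only [Pi.add_apply, hπ, hτ]; ring
    · simp only [Pi.add_apply, h1 e he, h2 e he, add_zero]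
  smul_mem' := fun c x hx => by
    obtain ⟨⟨π, hπ⟩, h1⟩ := hx
    refine ⟨⟨fun v => c * π v, fun e => ?_⟩, fun e he => ?_⟩
    · simp only [Pi.smul_apply, hπ, smul_eq_mul]; ring
    · simp only [Pi.smul_apply, h1 e he, smul_zero]

/-- extension by zero -/
def extZero (X : Finset E) : ({e // e ∈ X} → ℚ) →ₗ[ℚ] (E → ℚ) where
  toFun x e := if h : e ∈ X then x ⟨e, h⟩ else 0
  map_add' x y := by
    funext e
    by_cases h : e ∈ X <;> simp [h]
  map_smul' c x := by
    funext e
    by_cases h : e ∈ X <;> simp [h]

lemma finrank_suppIn (X : Finset E) : finrank ℚ (suppIn X) = X.card := by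
  have hinj : Function.Injective (extZero X) := by
    intro x y h
    funext ⟨e, he⟩
    have := congrFun h e
    simpa [extZero, he] using this
  have hrange : LinearMap.range (extZero X) = suppIn X := by
    ext x
    rw [LinearMap.mem_range]
    constructor
    · rintro ⟨y, rfl⟩ e he
      simp [extZero, he]
    · intro hx
      refine ⟨fun e => x e.1, ?_⟩
      funext e
      by_cases h : e ∈ X
      · simp [extZero, h]
      · simp [extZero, h, hx e h]
  rw [← hrange, LinearMap.finrank_range_of_inj hinj, finrank_fintype_fun_eq_card,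
    Fintype.card_coe]

/-- rank function of the cographic matroid -/
noncomputable def rk (G : Multigraph V E) (X : Finset E) : ℤ := X.card - finrank ℚ (tens G X)

lemma tens_mono (G : Multigraph V E) {X Y : Finset E} (h : X ⊆ Y) : tens G X ≤ tens G Y :=
  fun _ hx => ⟨hx.1, fun e he => hx.2 e (fun h' => he (h h'))⟩

lemma isRank_rk (G : Multigraph V E) : IsRank (rk G) := by
  refine ⟨?_, ?_, ?_, ?_⟩
  · have : tens G ∅ = ⊥ := by
      rw [eq_bot_iff]
      intro x hx
      rw [Submodule.mem_bot]
      funext e
      exact hx.2 e (notMem_empty e)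
    unfold rk
    rw [this]
    simp
  · intro X Y h
    have h1 := Submodule.finrank_sup_add_finrank_inf_eq (tens G Y) (suppIn X)
    have h2 : tens G Y ⊓ suppIn X = tens G X := by
      ext x
      constructor
      · rintro ⟨hx1, hx2⟩
        exact ⟨hx1.1, hx2⟩
      · intro hx
        exact ⟨tens_mono G h hx, hx.2⟩
    have h3 : tens G Y ⊔ suppIn X ≤ suppIn Y := by
      apply sup_le
      · exact fun x hx => hx.2
      · exact fun x hx e he => hx e (fun h' => he (h h'))
    have h4 := Submodule.finrank_mono h3
    rw [h2, finrank_suppIn] at h1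
    rw [finrank_suppIn] at h4
    unfold rk
    omega
  · intro X
    unfold rk
    omega
  · intro X Y
    have h1 := Submodule.finrank_sup_add_finrank_inf_eq (tens G X) (tens G Y)
    have h2 : tens G X ⊓ tens G Y ≤ tens G (X ∩ Y) := by
      rintro x ⟨hx, hy⟩
      refine ⟨hx.1, fun e he => ?_⟩
      rw [mem_inter, not_and_or] at he
      rcases he with he | he
      · exact hx.2 e he
      · exact hy.2 e he
    have h3 : tens G X ⊔ tens G Y ≤ tens G (X ∪ Y) :=
      sup_le (tens_mono G subset_union_left) (tens_mono G subset_union_right)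
    have h4 := Submodule.finrank_mono h2
    have h5 := Submodule.finrank_mono h3
    have h6 := card_union_add_card_inter X Y
    unfold rk
    omega

/-- the cut vector of `S` is a tension -/
lemma cut_mem_tens (G : Multigraph V E) (S : Finset V) {X : Finset E}
    (h : ∀ e, cut G S e ≠ 0 → e ∈ X) : (fun e => (cut G S e : ℚ)) ∈ tens G X := by
  refine ⟨⟨fun v => if v ∈ S then 1 else 0, fun e => ?_⟩, fun e he => ?_⟩
  · unfold cut
    push_cast
    rfl
  · have : cut G S e = 0 := by
      by_contra h'
      exact he (h e h')
    simp [this]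

lemma rk_insert_of_cut (G : Multigraph V E) {S : Finset V} {X : Finset E} {e : E} (heX : e ∉ X)
    (he : cut G S e ≠ 0) (h : ∀ x, cut G S x ≠ 0 → x ∈ insert e X) :
    rk G (insert e X) ≤ rk G X := by
  have h1 : tens G X < tens G (insert e X) := by
    refine lt_of_le_of_ne (tens_mono G (subset_insert e X)) ?_
    intro heq
    have h2 := cut_mem_tens G S h
    rw [← heq] at h2
    have h3 := h2.2 e heX
    simp only [Int.cast_eq_zero] at h3
    exact he h3
  have h2 := Submodule.finrank_lt_finrank_of_lt h1
  unfold rk
  rw [card_insert_of_notMem heX]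
  push_cast
  omega

/-- If all nonempty cuts inside `X` have at least three edges, then `X` has rank at least
`|X| / 3`. -/
lemma rk_lower (G : Multigraph V E) (X : Finset E)
    (h : ∀ S : Finset V, (∃ e, cut G S e ≠ 0) → (∀ e, cut G S e ≠ 0 → e ∈ X) →
      3 ≤ (univ.filter fun e => cut G S e ≠ 0).card) : (X.card : ℤ) ≤ 3 * rk G X := by
  classical
  let Γ : SimpleGraph V := SimpleGraph.fromRel fun u w => ∃ e, e ∉ X ∧ G.src e = u ∧ G.tgt e = w
  let comp : V → Γ.ConnectedComponent := Γ.connectedComponentMk
  haveI : Fintype Γ.ConnectedComponent := Fintype.ofFinite _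
  let S : Γ.ConnectedComponent → Finset V := fun c => univ.filter fun v => comp v = c
  have hcompe : ∀ e, e ∉ X → comp (G.src e) = comp (G.tgt e) := by
    intro e he
    apply SimpleGraph.ConnectedComponent.sound
    apply SimpleGraph.Adj.reachable
    rw [SimpleGraph.fromRel_adj]
    exact ⟨G.loopless e, Or.inl ⟨e, he, rfl, rfl⟩⟩
  have hcutX : ∀ c e, cut G (S c) e ≠ 0 → e ∈ X := by
    intro c e hce
    by_contra he
    apply hce
    unfold cut
    simp only [S, mem_filter, mem_univ, true_and, hcompe e he, sub_self]
  let C' : Finset Γ.ConnectedComponent := univ.filter fun c => ∃ e, cut G (S c) e ≠ 0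
  -- the space of tensions is spanned by the cuts of the components
  have hspan : tens G X ≤ Submodule.span ℚ
      ((C'.image fun c => (fun e => (cut G (S c) e : ℚ)) : Finset (E → ℚ)) : Set (E → ℚ)) := by
    rintro x ⟨⟨π, hπ⟩, hx⟩
    have hconst : ∀ u w, Γ.Reachable u w → π u = π w := by
      rintro u w ⟨p⟩
      induction p with
      | nil => rfl
      | cons hadj _ ih =>
        rw [← ih]
        rw [SimpleGraph.fromRel_adj] at hadj
        rcases hadj.2 with ⟨e, he, h1, h2⟩ | ⟨e, he, h1, h2⟩
        · have h3 := hx e he
          rw [hπ e, h1, h2] at h3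
          linarith
        · have h3 := hx e he
          rw [hπ e, h1, h2] at h3
          linarith
    have hout : ∀ v, π (comp v).out = π v := by
      intro v
      apply hconst
      apply SimpleGraph.ConnectedComponent.exact
      exact (comp v).out_eq
    have hrep : x = ∑ c ∈ C', π c.out • (fun e => (cut G (S c) e : ℚ)) := by
      have h1 : ∑ c ∈ C', π c.out • (fun e => (cut G (S c) e : ℚ))
          = ∑ c, π c.out • (fun e => (cut G (S c) e : ℚ)) := by
        apply sum_subset (subset_univ _)
        intro c _ hc
        have h2 : ∀ e, cut G (S c) e = 0 := by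
          intro e
          by_contra h3
          exact hc (mem_filter.2 ⟨mem_univ _, e, h3⟩)
        funext e
        simp [h2 e]
      rw [h1]
      funext e
      rw [Finset.sum_apply]
      have h2 : ∀ c : Γ.ConnectedComponent, (π c.out • fun e => (cut G (S c) e : ℚ)) e
          = (if comp (G.src e) = c then π c.out else 0)
            - (if comp (G.tgt e) = c then π c.out else 0) := by
        intro c
        simp only [Pi.smul_apply, smul_eq_mul, cut, S, mem_filter, mem_univ, true_and]
        push_cast
        split_ifs <;> ring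
      rw [sum_congr rfl (fun c _ => h2 c), sum_sub_distrib, sum_ite_eq, sum_ite_eq,
        if_pos (mem_univ _), if_pos (mem_univ _), hout, hout, hπ]
    rw [hrep]
    apply Submodule.sum_mem
    intro c hc
    apply Submodule.smul_mem
    apply Submodule.subset_span
    rw [mem_coe, mem_image]
    exact ⟨c, hc, rfl⟩
  have h1 : finrank ℚ (tens G X) ≤ C'.card :=
    (Submodule.finrank_mono hspan).trans ((finrank_span_finset_le_card _).trans card_image_le)
  -- double counting
  have h2 : 3 * C'.card ≤ 2 * X.card := by
    have h3 : ∑ c ∈ C', 3 ≤ ∑ c ∈ C', (univ.filter fun e => cut G (S c) e ≠ 0).card := by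
      apply sum_le_sum
      intro c hc
      exact h (S c) (mem_filter.1 hc).2 (hcutX c)
    have h4 : ∑ c ∈ C', (univ.filter fun e => cut G (S c) e ≠ 0).card
        = ∑ e : E, (C'.filter fun c => cut G (S c) e ≠ 0).card := by
      simp only [card_filter]
      exact sum_comm
    have h5 : ∑ e : E, (C'.filter fun c => cut G (S c) e ≠ 0).card ≤ ∑ e ∈ X, 2 := by
      have h6 : ∑ e : E, (C'.filter fun c => cut G (S c) e ≠ 0).card
          = ∑ e ∈ X, (C'.filter fun c => cut G (S c) e ≠ 0).card := by
        symm
        apply sum_subset (subset_univ _)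
        intro e _ he
        rw [card_eq_zero, filter_eq_empty_iff]
        intro c _ hc
        exact he (hcutX c e hc)
      rw [h6]
      apply sum_le_sum
      intro e _
      have h7 : (C'.filter fun c => cut G (S c) e ≠ 0) ⊆ {comp (G.src e), comp (G.tgt e)} := by
        intro c hc
        rw [mem_filter] at hc
        rw [mem_insert, mem_singleton]
        by_contra hcon
        push Not at hcon
        apply hc.2
        unfold cut
        simp only [S, mem_filter, mem_univ, true_and, if_neg (Ne.symm hcon.1),
          if_neg (Ne.symm hcon.2), sub_self]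
      exact (card_le_card h7).trans card_le_two
    rw [h4] at h3
    have h8 := h3.trans h5
    rw [sum_const, sum_const, smul_eq_mul, smul_eq_mul] at h8
    omega
  unfold rk
  omega

end Pool.Agent.FlowRec
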