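import Mathlib

/-!
# The matroid partition theorem for integer-valued rank functions
-/

namespace Pool.Agent.FlowRec

open Finset

/-- Rank functions of matroids (as integer-valued set functions). -/
structure IsRank {E : Type} [DecidableEq E] (r : Finset E → ℤ) : Prop where
  empty : r ∅ = 0
  mono : ∀ X Y, X ⊆ Y → r X ≤ r Y
  le_card : ∀ X, r X ≤ X.card
  submod : ∀ X Y, r (X ∪ Y) + r (X ∩ Y) ≤ r X + r Y

/-- Contraction of a rank function. -/
lemma IsRank.contract {E : Type} [DecidableEq E] {r : Finset E → ℤ} (hr : IsRank r)
    (Z : Finset E) : IsRank (fun X => r (X ∪ Z) - r Z) := by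
  refine ⟨by simp, fun X Y h => ?_, fun X => ?_, fun X Y => ?_⟩
  · have := hr.mono (X ∪ Z) (Y ∪ Z) (union_subset_union h (subset_refl _))
    linarith
  · have h1 := hr.submod X Z
    have h2 := hr.le_card X
    have h3 := hr.mono ∅ (X ∩ Z) (empty_subset _)
    rw [hr.empty] at h3
    linarith
  · have h1 := hr.submod (X ∪ Z) (Y ∪ Z)
    have h2 : X ∪ Z ∪ (Y ∪ Z) = X ∪ Y ∪ Z := by
      ext e; simp only [mem_union]; tauto
    have h3 : (X ∪ Z) ∩ (Y ∪ Z) = X ∩ Y ∪ Z := by
      ext e; simp only [mem_union, mem_inter]; tauto
    rw [h2, h3] at h1
    linarith

/-- Truncation: the rank function of a uniform matroid. -/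
lemma isRank_uniform {E : Type} [DecidableEq E] (t : ℕ) :
    IsRank (fun X : Finset E => ((min X.card t : ℕ) : ℤ)) := by
  refine ⟨by simp, fun X Y h => ?_, fun X => ?_, fun X Y => ?_⟩
  · have := card_le_card h
    omega
  · omega
  · have h1 := card_union_add_card_inter X Y
    have h2 := card_le_card (inter_subset_left (s₁ := X) (s₂ := Y))
    have h3 := card_le_card (inter_subset_right (s₁ := X) (s₂ := Y))
    omega

/-- **Matroid partition.** -/
theorem rank_partition {E ι : Type} [DecidableEq E] [Fintype ι] [DecidableEq ι] [Nonempty ι] :
    ∀ (n : ℕ) (U : Finset E) (r : ι → Finset E → ℤ), U.card = n → (∀ i, IsRank (r i)) →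
      (∀ X, X ⊆ U → (X.card : ℤ) ≤ ∑ i, r i X) →
      ∃ c : E → ι, ∀ i, r i (U.filter fun e => c e = i) = ((U.filter fun e => c e = i).card : ℤ) := by
  intro n
  induction n using Nat.strong_induction_on with
  | _ n ih =>
    intro U r hU hr hX
    rcases U.eq_empty_or_nonempty with hemp | hne
    · refine ⟨fun _ => Classical.arbitrary ι, fun i => ?_⟩
      rw [hemp, filter_empty, (hr i).empty, card_empty, Nat.cast_zero]
    by_cases hA : ∃ X, X ⊆ U ∧ X ≠ ∅ ∧ X ≠ U ∧ (X.card : ℤ) = ∑ i, r i X
    · obtain ⟨X, hXU, hX0, hXne, htight⟩ := hA
      have hlt : X.card < n := by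
        rw [← hU]; exact card_lt_card (Finset.ssubset_iff_subset_ne.2 ⟨hXU, hXne⟩)
      obtain ⟨c₁, hc₁⟩ := ih X.card hlt X r rfl hr (fun Y hY => hX Y (hY.trans hXU))
      have hlt2 : (U \ X).card < n := by
        rw [card_sdiff_of_subset hXU, hU]
        have : 0 < X.card := card_pos.2 (nonempty_iff_ne_empty.2 hX0)
        have := card_le_card hXU
        omega
      obtain ⟨c₂, hc₂⟩ := ih (U \ X).card hlt2 (U \ X) (fun i Y => r i (Y ∪ X) - r i X) rfl
        (fun i => (hr i).contract X) (by
          intro Y hY
          have hdisj : Disjoint Y X := disjoint_of_subset_left hY sdiff_disjoint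
          have h1 := hX (Y ∪ X) (union_subset (hY.trans sdiff_subset) hXU)
          rw [card_union_of_disjoint hdisj] at h1
          rw [sum_sub_distrib]
          push_cast at h1
          linarith)
      refine ⟨fun e => if e ∈ X then c₁ e else c₂ e, fun i => ?_⟩
      set A := X.filter fun e => c₁ e = i with hAdef
      set B := (U \ X).filter fun e => c₂ e = i with hBdef
      have hI : (U.filter fun e => (if e ∈ X then c₁ e else c₂ e) = i) = A ∪ B := by
        ext e
        simp only [hAdef, hBdef, mem_filter, mem_union, mem_sdiff]
        by_cases he : e ∈ X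
        · simp only [if_pos he]
          have := hXU he
          tauto
        · simp only [if_neg he]
          tauto
      have hAX : A ⊆ X := filter_subset _ _
      have hBX : Disjoint B X := disjoint_of_subset_left (filter_subset _ _) sdiff_disjoint
      have hAB : Disjoint A B := (disjoint_of_subset_right hAX hBX).symm
      rw [hI, card_union_of_disjoint hAB]
      have hsumA : ∑ j, ((X.filter fun e => c₁ e = j).card : ℤ) = ∑ j, r j X := by
        rw [← htight]
        have := card_eq_sum_card_fiberwise (s := X) (t := (univ : Finset ι)) (f := c₁)
          (fun _ _ => mem_univ _)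
        rw [this]
        push_cast
        rfl
      have hle : ∀ j ∈ (univ : Finset ι), ((X.filter fun e => c₁ e = j).card : ℤ) ≤ r j X := by
        intro j _
        rw [← hc₁ j]
        exact (hr j).mono _ _ (filter_subset _ _)
      have heq := (sum_eq_sum_iff_of_le hle).1 hsumA i (mem_univ _)
      have h1 := hc₁ i
      have h2 := hc₂ i
      have h3 := (hr i).submod (A ∪ B) X
      have h4 : A ∪ B ∪ X = B ∪ X := by
        ext e
        simp only [mem_union]
        constructor
        · rintro ((h | h) | h)
          · exact Or.inr (hAX h)
          · exact Or.inl h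
          · exact Or.inr h
        · rintro (h | h)
          · exact Or.inl (Or.inr h)
          · exact Or.inr h
      have h5 : (A ∪ B) ∩ X = A := by
        ext e
        simp only [mem_union, mem_inter]
        constructor
        · rintro ⟨h | h, h'⟩
          · exact h
          · exact absurd h' (Finset.disjoint_left.1 hBX h)
        · intro h
          exact ⟨Or.inl h, hAX h⟩
      rw [h4, h5] at h3
      have h6 := (hr i).le_card (A ∪ B)
      rw [card_union_of_disjoint hAB] at h6
      push_cast at h6 ⊢
      rw [← hAdef] at h1 heq
      rw [← hBdef] at h2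
      linarith
    · push Not at hA
      obtain ⟨e, he⟩ := hne
      have h1 := hX {e} (singleton_subset_iff.2 he)
      rw [card_singleton] at h1
      obtain ⟨i₀, hi₀⟩ : ∃ i, 1 ≤ r i {e} := by
        by_contra hcon
        push Not at hcon
        have : ∑ i, r i {e} ≤ ∑ i : ι, (0 : ℤ) := sum_le_sum fun i _ => by
          have := hcon i
          omega
        simp only [sum_const_zero] at this
        push_cast at h1
        omega
      have hi₀' : r i₀ {e} = 1 := by
        have := (hr i₀).le_card {e}
        rw [card_singleton] at this
        push_cast at this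
        omega
      set r' : ι → Finset E → ℤ := fun i => if i = i₀ then (fun X => r i (X ∪ {e}) - r i {e})
        else r i with hr'
      have hr'rank : ∀ i, IsRank (r' i) := by
        intro i
        simp only [hr']
        by_cases h : i = i₀
        · rw [if_pos h]; exact (hr i).contract {e}
        · rw [if_neg h]; exact hr i
      have hr'le : ∀ i X, r i X ≤ r' i X + (if i = i₀ then 1 else 0) := by
        intro i X
        simp only [hr']
        by_cases h : i = i₀
        · rw [if_pos h, if_pos h, h, hi₀']
          have := (hr i₀).mono X (X ∪ {e}) subset_union_left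
          linarith
        · rw [if_neg h, if_neg h]; linarith
      obtain ⟨c', hc'⟩ := ih (U.erase e).card (by
          rw [card_erase_of_mem he, hU]
          have := card_pos.2 ⟨e, he⟩
          omega) (U.erase e) r' rfl hr'rank (by
        intro X hXe
        rcases X.eq_empty_or_nonempty with hXemp | hXne
        · rw [hXemp, card_empty]
          have : ∑ i, r' i ∅ = 0 := sum_eq_zero fun i _ => (hr'rank i).empty
          rw [this]
          simp
        · have hXU : X ⊆ U := hXe.trans (erase_subset _ _)
          have hne' : X ≠ U := by
            intro h
            rw [h] at hXe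
            exact (mem_erase.1 (hXe he)).1 rfl
          have h2 := hA X hXU hXne hne'
          have h3 := hX X hXU
          have h4 : ∑ i, r i X ≤ ∑ i, (r' i X + (if i = i₀ then 1 else 0)) :=
            sum_le_sum fun i _ => hr'le i X
          rw [sum_add_distrib, sum_ite_eq' univ i₀, if_pos (mem_univ _)] at h4
          omega)
      refine ⟨Function.update c' e i₀, fun i => ?_⟩
      by_cases h : i = i₀
      · have hI : (U.filter fun x => Function.update c' e i₀ x = i)
            = ((U.erase e).filter fun x => c' x = i) ∪ {e} := by
          ext x
          simp only [mem_filter, mem_union, mem_singleton, mem_erase]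
          by_cases hx : x = e
          · rw [hx, Function.update_self]
            simp [he, h]
          · rw [Function.update_of_ne hx]
            tauto
        have h2 := hc' i
        simp only [hr', if_pos h] at h2
        rw [hI, card_union_of_disjoint (by
          rw [disjoint_singleton_right]
          simp)]
        rw [card_singleton]
        push_cast
        rw [h, hi₀'] at h2
        rw [h]
        linarith
      · have hI : (U.filter fun x => Function.update c' e i₀ x = i)
            = (U.erase e).filter fun x => c' x = i := by
          ext x
          simp only [mem_filter, mem_erase]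
          by_cases hx : x = e
          · rw [hx, Function.update_self]
            simp [Ne.symm h]
          · rw [Function.update_of_ne hx]
            tauto
        rw [hI]
        have h2 := hc' i
        simp only [hr', if_neg h] at h2
        exact h2

end Pool.Agent.FlowRec
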