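import Pool.Agent.FlowRec.Undirected

/-!
# Series classes and three co-independent sets
-/

namespace Pool.Agent.FlowRec

open Finset

variable {V E : Type} [Fintype V] [DecidableEq V] [Fintype E] [DecidableEq E]

/-- every nonempty cut inside `R` has at least three edges -/
def CutFree (G : Multigraph V E) (R : Finset E) : Prop :=
  ∀ S : Finset V, (∃ e, cut G S e ≠ 0) → (∀ e, cut G S e ≠ 0 → e ∈ R) →
    3 ≤ (univ.filter fun e => cut G S e ≠ 0).card

/-- `e` and `e'` form a cut -/
def Ser (G : Multigraph V E) (e e' : E) : Prop :=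
  ∃ S : Finset V, cut G S e ≠ 0 ∧ cut G S e' ≠ 0 ∧ ∀ x, cut G S x ≠ 0 → x = e ∨ x = e'

lemma exists_cutFree (G : Multigraph V E)
    (hno : ∀ (S : Finset V) (e : E), cut G S e ≠ 0 → ∃ e', e' ≠ e ∧ cut G S e' ≠ 0) :
    ∃ R : Finset E, CutFree G R ∧ ∀ e, e ∉ R → ∃ e' ∈ R, e ≠ e' ∧ Ser G e e' := by
  classical
  have h0 : CutFree G ∅ := by
    intro S ⟨e, he⟩ h
    exact absurd (h e he) (notMem_empty e)
  obtain ⟨R, hR, hmax⟩ := exists_max_image (univ.filter fun R : Finset E => CutFree G R)
    (fun R => R.card) ⟨∅, by simpa using h0⟩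
  rw [mem_filter] at hR
  refine ⟨R, hR.2, fun e he => ?_⟩
  have h1 : ¬ CutFree G (insert e R) := by
    intro h
    have h2 := hmax (insert e R) (by simpa using h)
    rw [card_insert_of_notMem he] at h2
    omega
  unfold CutFree at h1
  push Not at h1
  obtain ⟨S, hS1, hS2, hS3⟩ := h1
  have h2 : cut G S e ≠ 0 := by
    intro h
    have := hR.2 S hS1 (fun x hx => by
      rcases mem_insert.1 (hS2 x hx) with h' | h'
      · exfalso; rw [h'] at hx; exact hx h
      · exact h')
    omega
  obtain ⟨e', he', hc'⟩ := hno S e h2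
  refine ⟨e', ?_, he'.symm, S, h2, hc', fun x hx => ?_⟩
  · rcases mem_insert.1 (hS2 e' hc') with h' | h'
    · exact absurd h' he'
    · exact h'
  · by_contra hcon
    push Not at hcon
    have h3 : ({x, e, e'} : Finset E) ⊆ univ.filter fun e => cut G S e ≠ 0 := by
      intro y hy
      simp only [mem_insert, mem_singleton] at hy
      rw [mem_filter]
      rcases hy with h | h | h
      · rw [h]; exact ⟨mem_univ _, hx⟩
      · rw [h]; exact ⟨mem_univ _, h2⟩
      · rw [h]; exact ⟨mem_univ _, hc'⟩
    have h4 := card_le_card h3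
    rw [card_eq_three.2 ⟨x, e, e', hcon.1, hcon.2, he'.symm, rfl⟩] at h4
    omega

/-- flows have the same absolute value on the two edges of a cut -/
lemma Ser.flow_eq {G : Multigraph V E} {e e' : E} (hne : e ≠ e') (h : Ser G e e') {p : E → ℤ}
    (hp : IsFlow G p) : p e = p e' ∨ p e = - p e' := by
  obtain ⟨S, h1, h2, h3⟩ := h
  have h4 := flow_cut G hp S
  have h5 : ∑ x, cut G S x • p x = cut G S e * p e + cut G S e' * p e' := by
    have h6 : ∑ x, cut G S x • p x = ∑ x ∈ {e, e'}, cut G S x • p x := by
      symm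
      apply sum_subset (subset_univ _)
      intro x _ hx
      have : cut G S x = 0 := by
        by_contra h
        have := h3 x h
        simp only [mem_insert, mem_singleton] at hx
        exact hx this
      rw [this, zero_smul]
    rw [h6, sum_pair hne]
    simp only [smul_eq_mul]
  rw [h5] at h4
  have hval : ∀ x, cut G S x = 0 ∨ cut G S x = 1 ∨ cut G S x = -1 := by
    intro x
    unfold cut
    split_ifs <;> simp
  rcases hval e with a | a | a
  · exact absurd a h1
  · rcases hval e' with b | b | b
    · exact absurd b h2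
    · rw [a, b] at h4; right; linarith
    · rw [a, b] at h4; left; linarith
  · rcases hval e' with b | b | b
    · exact absurd b h2
    · rw [a, b] at h4; left; linarith
    · rw [a, b] at h4; right; linarith

lemma rk_le_of_series (G : Multigraph V E) {R N : Finset E}
    (h : ∀ e ∈ N, e ∉ R → ∃ e' ∈ N, e' ∈ R ∧ e ≠ e' ∧ Ser G e e') :
    rk G N ≤ (N ∩ R).card := by
  classical
  have key : ∀ Y : Finset E, Y ⊆ N \ R → rk G ((N ∩ R) ∪ Y) ≤ (N ∩ R).card := by
    intro Y
    induction Y using Finset.induction_on with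
    | empty =>
      intro _
      rw [union_empty]
      exact (isRank_rk G).le_card _
    | insert e Y heY ih =>
      intro hY
      have he := mem_sdiff.1 (hY (mem_insert_self e Y))
      obtain ⟨e', he'N, he'R, hne, S, h1, h2, h3⟩ := h e he.1 he.2
      have h4 : e ∉ (N ∩ R) ∪ Y := by
        rw [mem_union, mem_inter]
        rintro (h | h)
        · exact he.2 h.2
        · exact heY h
      have h5 : (N ∩ R) ∪ insert e Y = insert e ((N ∩ R) ∪ Y) := by
        rw [union_insert]
      rw [h5]
      refine (rk_insert_of_cut G h4 h1 (fun x hx => ?_)).trans (ih (fun y hy =>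
        hY (mem_insert_of_mem hy)))
      rcases h3 x hx with h | h
      · rw [h]; exact mem_insert_self _ _
      · rw [h]
        exact mem_insert_of_mem (mem_union_left _ (mem_inter.2 ⟨he'N, he'R⟩))
  have := key (N \ R) (subset_refl _)
  have h6 : (N ∩ R) ∪ (N \ R) = N := by
    ext x
    simp only [mem_union, mem_inter, mem_sdiff]
    tauto
  rwa [h6] at this

/-- The edges of `I` have private cycles avoiding `N`. -/
def CI (G : Multigraph V E) (N I : Finset E) : Prop :=
  ∀ e ∈ I, ∃ χ : E → ℤ, Good G χ ∧ χ e ≠ 0 ∧ (∀ x ∈ N, χ x = 0) ∧ ∀ x ∈ I, x ≠ e → χ x = 0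

lemma ci_of_rk (G : Multigraph V E) {N I : Finset E} (hd : ∀ x ∈ I, x ∉ N)
    (h : rk G (I ∪ N) - rk G N = I.card) : CI G N I := by
  classical
  intro e he
  rcases cycle_or_cut_undirected (G := G) (fun x => x ∉ I ∪ N) e with
    ⟨χ, h1, h2, h3⟩ | ⟨S, h1, h2⟩
  · refine ⟨χ, h1, h2, fun x hx => ?_, fun x hx hxe => ?_⟩
    · by_contra hne
      rcases h3 x hne with h4 | h4
      · rw [h4] at hx; exact hd e he hx
      · exact h4 (mem_union_right _ hx)
    · by_contra hne
      rcases h3 x hne with h4 | h4
      · exact hxe h4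
      · exact h4 (mem_union_left _ hx)
  · exfalso
    have h4 : e ∉ I.erase e ∪ N := by
      rw [mem_union]
      rintro (h | h)
      · exact (mem_erase.1 h).1 rfl
      · exact hd e he h
    have h5 : insert e (I.erase e ∪ N) = I ∪ N := by
      rw [← insert_union, insert_erase he]
    have h6 := rk_insert_of_cut G h4 h1 (fun x hx => by
      rw [h5]
      by_contra hx'
      have hxe : x ≠ e := by
        intro h; rw [h] at hx'; exact hx' (mem_union_left _ he)
      exact hx (h2 x hx' hxe))
    rw [h5] at h6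
    have h7 : rk G (I.erase e ∪ N) - rk G N ≤ ((I.erase e).card : ℤ) :=
      ((isRank_rk G).contract N).le_card (I.erase e)
    rw [card_erase_of_mem he] at h7
    have h8 : 0 < I.card := card_pos.2 ⟨e, he⟩
    push_cast [Nat.cast_sub (show 1 ≤ I.card by omega)] at h7
    omega

/-- Three co-independent sets cover all of `R \ N` up to `2 |N ∩ R|` edges. -/
lemma exists_three (G : Multigraph V E) {R N : Finset E} (hR : CutFree G R)
    (hN : rk G N ≤ (N ∩ R).card) :
    ∃ (I : Fin 3 → Finset E) (W : Finset E), (∀ i, CI G N (I i)) ∧ (∀ i, ∀ x ∈ I i, x ∉ N) ∧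
      (∀ x ∈ R, x ∉ N → x ∈ W ∨ ∃ i, x ∈ I i) ∧ W.card ≤ 2 * (N ∩ R).card := by
  classical
  set t : ℕ := 2 * (N ∩ R).card with ht
  let r : Option (Fin 3) → Finset E → ℤ := fun i => match i with
    | none => fun X => ((min X.card t : ℕ) : ℤ)
    | some _ => fun X => rk G (X ∪ N) - rk G N
  have hr : ∀ i, IsRank (r i) := by
    intro i
    match i with
    | none => exact isRank_uniform t
    | some j => exact (isRank_rk G).contract N
  obtain ⟨c, hc⟩ := rank_partition _ (R \ N) r rfl hr (by
    intro X hX
    rw [Fintype.sum_option]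
    simp only [r, sum_const, card_univ, Fintype.card_fin, nsmul_eq_mul]
    have h1 := (isRank_rk G).mono N (X ∪ N) subset_union_right
    have hXR : X ⊆ R := fun x hx => (mem_sdiff.1 (hX hx)).1
    have hdisj : Disjoint X (N ∩ R) := by
      rw [Finset.disjoint_left]
      intro x hx hx'
      exact (mem_sdiff.1 (hX hx)).2 (mem_inter.1 hx').1
    have h2 := rk_lower G (X ∪ (N ∩ R)) (fun S hS1 hS2 => hR S hS1 (fun e he => by
      rcases mem_union.1 (hS2 e he) with h | h
      · exact hXR h
      · exact (mem_inter.1 h).2))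
    rw [card_union_of_disjoint hdisj] at h2
    have h3 := (isRank_rk G).mono (X ∪ (N ∩ R)) (X ∪ N)
      (union_subset_union (subset_refl _) inter_subset_left)
    push_cast at h2 ⊢
    by_cases hXt : X.card ≤ t
    · rw [min_eq_left (by exact_mod_cast hXt)]
      push_cast
      linarith
    · rw [min_eq_right (by exact_mod_cast (not_le.1 hXt).le)]
      rw [ht]
      push_cast
      linarith)
  refine ⟨fun i => (R \ N).filter fun e => c e = some i, (R \ N).filter fun e => c e = none,
    fun i => ?_, fun i x hx => ?_, fun x hx hxN => ?_, ?_⟩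
  · apply ci_of_rk G
    · intro x hx
      exact (mem_sdiff.1 (mem_filter.1 hx).1).2
    · exact hc (some i)
  · exact (mem_sdiff.1 (mem_filter.1 hx).1).2
  · cases hcx : c x with
    | none => left; exact mem_filter.2 ⟨mem_sdiff.2 ⟨hx, hxN⟩, hcx⟩
    | some i => right; exact ⟨i, mem_filter.2 ⟨mem_sdiff.2 ⟨hx, hxN⟩, hcx⟩⟩
  · have h1 := hc none
    simp only [r] at h1
    have h2 : min ((R \ N).filter fun e => c e = none).card t
        = ((R \ N).filter fun e => c e = none).card := by exact_mod_cast h1
    have := min_le_right ((R \ N).filter fun e => c e = none).card t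
    omega

end Pool.Agent.FlowRec
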