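import Pool.Agent.FlowRec.Divisor

/-!
# The middle step, and the modulus six (MP_3da9df_co)
-/

namespace Pool.Agent.FlowRec

open Finset

section
variable {V E : Type} [Fintype V] [DecidableEq V] [Fintype E] {G : Multigraph V E}

omit [Fintype V] in
/-- The oriented cycle and the step behind an edge of `F(G, ℤ/k)`. -/
lemma edge_data {k : ℕ} (hk : 2 ≤ k) (g : IntFlow G k) (f' : GroupFlow G (ZMod k))
    (hadj : (groupFlowGraph G (ZMod k)).Adj (reduce G k g) f') :
    ∃ (χ : E → ℤ) (c : ℤ), Good G χ ∧ 1 ≤ c ∧ c + 1 ≤ k ∧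
      (∀ e, f'.1 e = ((g.1 e + c * χ e : ℤ) : ZMod k)) ∧ ∀ e, ¬ ((k : ℤ) ∣ g.1 e + c * χ e) := by
  classical
  have : NeZero k := ⟨by omega⟩
  have hC : IsCycleEdgeSet G {e | (g.1 e : ZMod k) - f'.1 e ≠ 0} := hadj
  obtain ⟨χ, hχ, hsupp, hmult⟩ := exists_good_of_cycle hC
  obtain ⟨c₀, hc₀⟩ := hmult (ZMod k) (fun e => f'.1 e - (g.1 e : ZMod k))
    (IsFlow.sub G f'.2.1 (reduce G k g).2.1) (by
      intro x hx
      simp only [Set.mem_ofPred_eq]
      intro h
      apply hx
      rw [← neg_sub, h, neg_zero])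
  have hf' : ∀ e, f'.1 e = ((g.1 e + (c₀.val : ℤ) * χ e : ℤ) : ZMod k) := by
    intro e
    have h1 := hc₀ e
    push_cast
    rw [ZMod.natCast_zmod_val]
    rw [zsmul_eq_mul] at h1
    linear_combination h1
  have hc₀ne : c₀ ≠ 0 := by
    intro h
    apply not_isCycleEdgeSet_empty G _ hC
    ext e
    simp only [Set.mem_ofPred_eq, Set.mem_empty_iff_false, iff_false, not_not]
    have h1 := hc₀ e
    rw [h, smul_zero] at h1
    rw [← neg_sub, h1, neg_zero]
  refine ⟨χ, (c₀.val : ℤ), hχ, ?_, ?_, hf', ?_⟩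
  · have : c₀.val ≠ 0 := by
      intro h; exact hc₀ne ((ZMod.val_eq_zero c₀).1 h)
    omega
  · have := ZMod.val_lt c₀
    omega
  · intro e h
    apply f'.2.2 e
    rw [hf' e, ZMod.intCast_zmod_eq_zero_iff_dvd]
    exact h

/-- If every edge of `F(G, ℤ/k)` can be replaced by a lifted path, then reduction modulo `k`
induces a correspondence of components. -/
lemma reachable_iff_of_lift {k : ℕ}
    (hlift : ∀ (g : IntFlow G k) (f' : GroupFlow G (ZMod k)),
      (groupFlowGraph G (ZMod k)).Adj (reduce G k g) f' →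
      ∃ g' : IntFlow G k, reduce G k g' = f' ∧ (intFlowGraph G k).Reachable g g')
    (g g' : IntFlow G k) : (intFlowGraph G k).Reachable g g' ↔
      (groupFlowGraph G (ZMod k)).Reachable (reduce G k g) (reduce G k g') := by
  constructor
  · rintro ⟨w⟩
    induction w with
    | nil => exact SimpleGraph.Reachable.refl _
    | cons h _ ih =>
      rcases reduce_adj _ _ h with h1 | h1
      · rw [h1]; exact ih
      · exact h1.reachable.trans ih
  · rintro ⟨w⟩
    have key : ∀ (f f' : GroupFlow G (ZMod k)) (_ : (groupFlowGraph G (ZMod k)).Walk f f')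
        (g g' : IntFlow G k), reduce G k g = f → reduce G k g' = f' →
        (intFlowGraph G k).Reachable g g' := by
      intro f f' w
      induction w with
      | nil =>
        intro g g' h1 h2
        refine fibre_reachable _ g g' ?_ rfl
        intro e
        have h3 : ((g.1 e : ℤ) : ZMod k) = ((g'.1 e : ℤ) : ZMod k) := by
          have := congrArg (fun x : GroupFlow G (ZMod k) => x.1 e) (h1.trans h2.symm)
          exact this
        exact (ZMod.intCast_eq_intCast_iff_dvd_sub _ _ _).1 h3
      | cons hadj _ ih =>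
        intro g g' h1 h2
        rw [← h1] at hadj
        obtain ⟨g₂, h4, h5⟩ := hlift g _ hadj
        exact h5.trans (ih g₂ g' h4 h2)
    exact key _ _ w g g' rfl rfl

/-- Every edge of `F(G, ℤ/k)` can be replaced by a lifted path, when the cycles of `G` are short
enough for `k`; the middle step `k / 2` needs no condition. -/
lemma lift_path {k L : ℕ} (hk : 2 ≤ k)
    (hL : ∀ C, IsCycleEdgeSet G C → C.ncard ≤ L)
    (harith : ∀ (c : ℤ) (m m' : ℕ), 1 ≤ c → c + 1 ≤ k → 2 * c ≠ k → (k : ℤ) ≤ (c - 2) * m →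
      (k : ℤ) ≤ (k - c - 2) * m' → L < 2 * m + 2 * m')
    (g : IntFlow G k) (f' : GroupFlow G (ZMod k))
    (hadj : (groupFlowGraph G (ZMod k)).Adj (reduce G k g) f') :
    ∃ g' : IntFlow G k, reduce G k g' = f' ∧ (intFlowGraph G k).Reachable g g' := by
  classical
  obtain ⟨χ, c, hχ, hc1, hck, hf', hnz⟩ := edge_data hk g f' hadj
  -- conclusion from a lift
  have concl : ∀ (g₁ g₂ : IntFlow G k), (∀ e, (k : ℤ) ∣ g₁.1 e - g.1 e) →
      (intFlowGraph G k).Reachable g₁ g₂ → (∀ e, (k : ℤ) ∣ g₂.1 e - (g.1 e + c * χ e)) →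
      ∃ g' : IntFlow G k, reduce G k g' = f' ∧ (intFlowGraph G k).Reachable g g' := by
    intro g₁ g₂ h1 h2 h3
    refine ⟨g₂, ?_, (fibre_reachable _ g g₁ h1 rfl).trans h2⟩
    apply Subtype.ext
    funext e
    show ((g₂.1 e : ℤ) : ZMod k) = f'.1 e
    rw [hf' e, ZMod.intCast_eq_intCast_iff_dvd_sub]
    have := h3 e
    rw [← neg_sub, dvd_neg] at this
    exact this
  by_cases hmid : 2 * c = k
  · -- the middle step
    obtain ⟨c', rfl⟩ : ∃ c' : ℕ, c = c' := ⟨c.toNat, by omega⟩
    have hkq : k = 2 * c' := by omega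
    obtain ⟨g', h1, h2⟩ := divisor_bypass (q := 2) (c := c') (by omega) (by omega) hkq g hχ (by
      intro e he h
      obtain ⟨y, hy⟩ := h
      have h3 := abs_lt.1 (g.2.2.2 e)
      have h4 : g.1 e ≠ 0 := g.2.2.1 e
      have hk' : (k : ℤ) = 2 * c' := hmid.symm
      have hy1 : y < 2 := by nlinarith
      have hy2 : -2 < y := by nlinarith
      have hy3 : y ≠ 0 := by
        intro h5; rw [h5, mul_zero] at hy; exact h4 hy
      apply hnz e
      have hs : g.1 e + c' * χ e = c' * (y + χ e) := by linear_combination hy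
      have hy4 : y = 1 ∨ y = -1 := by omega
      rcases hy4 with h6 | h6 <;> rcases hχ.val e with b | b | b
      · exact absurd b he
      · exact ⟨1, by rw [hs, h6, b, hk']; ring⟩
      · exact ⟨0, by rw [hs, h6, b]; ring⟩
      · exact absurd b he
      · exact ⟨0, by rw [hs, h6, b]; ring⟩
      · exact ⟨-1, by rw [hs, h6, b, hk']; ring⟩) 1
    exact concl g g' (fun e => by simp) h2 (fun e => by
      have := h1 e
      rwa [one_mul] at this)
  rcases lift_or_count hc1 hck hχ _ g hnz rfl with ⟨g₁, h1, h2⟩ | ⟨m, hm1, hm2⟩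
  · obtain ⟨g₂, h3, h4⟩ := finish_lift hc1 hχ g g₁ hnz h1 h2
    refine concl g₁ g₂ h1 h4.reachable (fun e => ?_)
    rw [h3 e]
    obtain ⟨q, hq⟩ := h1 e
    exact ⟨q, by linear_combination hq⟩
  · have hχ' := hχ.neg
    have hnz' : ∀ e, ¬ ((k : ℤ) ∣ g.1 e + (k - c) * (- χ e)) := by
      intro e h
      apply hnz e
      have := dvd_add h (⟨χ e, rfl⟩ : (k : ℤ) ∣ k * χ e)
      have h2 : g.1 e + (k - c) * (- χ e) + k * χ e = g.1 e + c * χ e := by ring
      rwa [h2] at this
    rcases lift_or_count (c := k - c) (by omega) (by omega) hχ' _ g hnz' rfl with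
      ⟨g₁, h1, h2⟩ | ⟨m', hm1', hm2'⟩
    · obtain ⟨g₂, h3, h4⟩ := finish_lift (c := k - c) (by omega) hχ' g g₁ hnz' h1 h2
      refine concl g₁ g₂ h1 h4.reachable (fun e => ?_)
      rw [h3 e]
      obtain ⟨q, hq⟩ := h1 e
      exact ⟨q - χ e, by linear_combination hq⟩
    · exfalso
      have hlt := harith c m m' hc1 hck hmid hm1 hm1'
      have hdisj : Disjoint (high k c χ g.1) (high k (k - c) (fun e => - χ e) g.1) := by
        rw [Finset.disjoint_left]
        intro e h1 h2
        unfold high at h1 h2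
        rw [mem_filter] at h1 h2
        have hpos : (0 : ℤ) < k := by omega
        have h3 : (- χ e * g.1 e) % k = k - (χ e * g.1 e) % k := by
          have hne : (χ e * g.1 e) % k ≠ 0 := by
            intro h
            have := h1.2.2
            omega
          have hlt' := Int.emod_lt_of_pos (χ e * g.1 e) hpos
          have hge := Int.emod_nonneg (χ e * g.1 e) hpos.ne'
          have h4 : (- χ e * g.1 e) = (k - (χ e * g.1 e) % k) + k * (-((χ e * g.1 e) / k) - 1) := by
            have := Int.emod_add_mul_ediv (χ e * g.1 e) k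
            linear_combination this
          rw [h4, Int.add_mul_emod_self_left, Int.emod_eq_of_lt (by omega) (by omega)]
        have h5 := h1.2.2
        have h6 := h2.2.2
        rw [h3] at h6
        omega
      have hsub : high k c χ g.1 ∪ high k (k - c) (fun e => - χ e) g.1
          ⊆ univ.filter fun e => χ e ≠ 0 := by
        intro e he
        rw [mem_union] at he
        unfold high at he
        rw [mem_filter, mem_filter] at he
        rw [mem_filter]
        refine ⟨mem_univ _, ?_⟩
        rcases he with he | he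
        · exact he.2.1
        · intro h; exact he.2.1 (by show - χ e = 0; rw [h, neg_zero])
      have h7 := card_le_card hsub
      rw [card_union_of_disjoint hdisj] at h7
      have h8 := hL _ hχ.cyc
      have h9 : {e | χ e ≠ 0}.ncard = (univ.filter fun e => χ e ≠ 0).card := by
        rw [← Set.ncard_coe_finset]
        congr 1
        ext e
        simp
      omega

/-- All moduli up to six. -/
lemma liftsTo_upToSix {k : ℕ} (hk2 : 2 ≤ k) (hk6 : k ≤ 6) : LiftsTo G k := by
  classical
  refine liftsTo_of_main (reachable_iff_of_lift (lift_path (L := Fintype.card E) hk2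
    (fun C _ => by
      rw [← Nat.card_eq_fintype_card, ← Set.ncard_univ]
      exact Set.ncard_le_ncard (Set.subset_univ _) (Set.toFinite _))
    (fun c m m' h1 h2 h3 h4 h5 => by
      have := pos_aux h1 h2 h4 h5
      omega)))

end

end Pool.Agent.FlowRec
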