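import Pool.Agent.FlowRec.CutSpace

/-!
# Undirected version of the cycle-or-cut alternative
-/

namespace Pool.Agent.FlowRec

open Finset

variable {V E : Type} [Fintype V] [DecidableEq V] [Fintype E] {G : Multigraph V E}

/-- Either there is an oriented cycle through `e₀` all of whose other edges are allowed, or a cut
containing `e₀` and no other allowed edge. -/
lemma cycle_or_cut_undirected (Al : E → Prop) (e₀ : E) :
    (∃ χ : E → ℤ, Good G χ ∧ χ e₀ ≠ 0 ∧ ∀ e, χ e ≠ 0 → e = e₀ ∨ Al e) ∨
    (∃ S : Finset V, cut G S e₀ ≠ 0 ∧ ∀ e, Al e → e ≠ e₀ → cut G S e = 0) := by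
  classical
  let Γ : SimpleGraph V :=
    SimpleGraph.fromRel fun u w => ∃ e, (Al e ∧ e ≠ e₀) ∧ G.src e = u ∧ G.tgt e = w
  by_cases hreach : Γ.Reachable (G.tgt e₀) (G.src e₀)
  · left
    have key : ∀ a b : V, Γ.Walk a b → ∃ y : E → ℤ, (∀ e, y e ≠ 0 → Al e ∧ e ≠ e₀) ∧
        ∀ u, ∑ e, inc G u e * y e = (if a = u then 1 else 0) - (if b = u then 1 else 0) := by
      intro a b w
      induction w with
      | nil => exact ⟨fun _ => 0, fun e he => absurd rfl he, fun u => by simp⟩
      | cons hadj _ ih =>
        rename_i a c b _
        obtain ⟨y, hy, hyu⟩ := ih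
        rw [SimpleGraph.fromRel_adj] at hadj
        rcases hadj.2 with ⟨e, he, h1, h2⟩ | ⟨e, he, h1, h2⟩
        · refine ⟨fun x => y x + (if x = e then 1 else 0), ?_, ?_⟩
          · intro x hx
            by_cases hxe : x = e
            · rw [hxe]; exact he
            · apply hy x
              simpa [hxe] using hx
          · intro u
            simp only [mul_add, sum_add_distrib, hyu u, mul_ite, mul_one, mul_zero, sum_ite_eq',
              mem_univ, if_true]
            unfold inc
            rw [h1, h2]
            ring
        · refine ⟨fun x => y x + (if x = e then -1 else 0), ?_, ?_⟩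
          · intro x hx
            by_cases hxe : x = e
            · rw [hxe]; exact he
            · apply hy x
              simpa [hxe] using hx
          · intro u
            simp only [mul_add, sum_add_distrib, hyu u, mul_ite, mul_neg, mul_one, mul_zero,
              sum_ite_eq', mem_univ, if_true]
            unfold inc
            rw [h1, h2]
            ring
    obtain ⟨w⟩ := hreach
    obtain ⟨y, hy, hyu⟩ := key _ _ w
    have hy0 : y e₀ = 0 := by
      by_contra h
      exact (hy e₀ h).2 rfl
    have hz : IsFlow G (fun x => y x + (if x = e₀ then 1 else 0)) := by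
      rw [isFlow_iff]
      intro u
      simp only [smul_eq_mul, mul_add, sum_add_distrib, hyu u, mul_ite, mul_one, mul_zero,
        sum_ite_eq', mem_univ, if_true]
      unfold inc
      ring
    obtain ⟨χ, h1, h2, h3⟩ := flow_cycle hz (e₀ := e₀) (by simp [hy0])
    refine ⟨χ, h1, h2, fun e he => ?_⟩
    by_cases hee : e = e₀
    · left; exact hee
    · right
      have h4 := h3 e he
      simp only [if_neg hee, add_zero] at h4
      refine (hy e ?_).1
      intro h5
      rw [h5] at h4
      simp at h4
  · right
    refine ⟨univ.filter fun v => Γ.Reachable (G.tgt e₀) v, ?_, ?_⟩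
    · unfold cut
      rw [if_neg (by simpa using hreach), if_pos (by simp)]
      norm_num
    · intro e he hee
      have hadj : Γ.Adj (G.src e) (G.tgt e) := by
        rw [SimpleGraph.fromRel_adj]
        exact ⟨G.loopless e, Or.inl ⟨e, ⟨he, hee⟩, rfl, rfl⟩⟩
      unfold cut
      by_cases h : Γ.Reachable (G.tgt e₀) (G.src e)
      · rw [if_pos (by simpa using h), if_pos (by simpa using h.trans hadj.reachable)]
        norm_num
      · rw [if_neg (by simpa using h), if_neg]
        · norm_num
        · intro h'
          apply h
          simp only [mem_filter, mem_univ, true_and] at h'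
          exact h'.trans hadj.symm.reachable

end Pool.Agent.FlowRec
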